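import Pool.Agent.H74T.Key

set_option autoImplicit false
set_option linter.unusedSectionVars false
set_option linter.unusedVariables false

/-! # Bounds of the right hand side -/

namespace Pool.Agent.H74T

open MvPolynomial MeasureTheory Pool.Agent.W574.SM Pool.Agent.Y230.AR Complex

variable {σ ι : Type} [Fintype σ] [DecidableEq σ] [Fintype ι] [DecidableEq ι]

/-- the norm -/
noncomputable def nu (w : ι → ℂ) : ℝ := Real.sqrt (∑ j, ‖w j‖ ^ 2)

theorem nu_nonneg (w : ι → ℂ) : 0 ≤ nu w := Real.sqrt_nonneg _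

theorem le_nu (w : ι → ℂ) (j : ι) : ‖w j‖ ≤ nu w := by
  apply Real.le_sqrt_of_sq_le
  exact Finset.single_le_sum (f := fun j => ‖w j‖ ^ 2) (fun j _ => by positivity)
    (Finset.mem_univ j)

theorem hom_bound (B : MvPolynomial ι ℂ) (t : ℕ) (hB : B.IsHomogeneous t) :
    ∃ C : ℝ, 0 ≤ C ∧ ∀ w : ι → ℂ, ‖eval w B‖ ≤ C * nu w ^ t := by
  refine ⟨∑ s ∈ B.support, ‖coeff s B‖, Finset.sum_nonneg fun _ _ => norm_nonneg _, fun w => ?_⟩
  rw [eval_eq, Finset.sum_mul]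
  refine (norm_sum_le _ _).trans (Finset.sum_le_sum fun s hs => ?_)
  rw [norm_mul]
  refine mul_le_mul_of_nonneg_left ?_ (norm_nonneg _)
  rw [norm_prod]
  have hdeg : ∑ j, s j = t := by
    have h1 := hB (mem_support_iff.1 hs)
    rw [← h1, Finsupp.weight_apply, Finsupp.sum_fintype _ _ fun i => by simp]
    simp
  calc ∏ i ∈ s.support, ‖w i ^ s i‖ ≤ ∏ i ∈ s.support, nu w ^ s i := by
        refine Finset.prod_le_prod (fun _ _ => norm_nonneg _) fun i _ => ?_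
        rw [norm_pow]
        exact pow_le_pow_left₀ (norm_nonneg _) (le_nu w i) _
    _ = nu w ^ t := by
        rw [Finset.prod_pow_eq_pow_sum, ← hdeg]
        congr 1
        refine Finset.sum_subset (Finset.subset_univ _) fun i _ hi => ?_
        exact Finsupp.notMem_support_iff.1 hi

theorem TT.bound {H₁ : MvPolynomial ι ℂ} {M₁ p k : ℕ} {m : ℤ} (hH : H₁.IsHomogeneous M₁)
    (hk : k ≤ p) {A : MvPolynomial ι ℂ} (hA : A ∈ TT H₁ M₁ p k m) :
    ∃ C : ℝ, 0 ≤ C ∧ ∀ w : ι → ℂ, ‖eval w A‖ * nu w ^ (M₁ * (p - k)) ≤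
      C * ‖eval w H₁‖ ^ (p - k) * nu w ^ m.toNat := by
  refine Submodule.span_induction (p := fun A _ => ∃ C : ℝ, 0 ≤ C ∧ ∀ w : ι → ℂ,
    ‖eval w A‖ * nu w ^ (M₁ * (p - k)) ≤ C * ‖eval w H₁‖ ^ (p - k) * nu w ^ m.toNat)
    ?_ ?_ ?_ ?_ hA
  · rintro A ⟨q, t, B, h1, h2, h3, rfl⟩
    obtain ⟨C1, hC1, hb1⟩ := hom_bound H₁ M₁ hH
    obtain ⟨C2, hC2, hb2⟩ := hom_bound B t h2
    obtain ⟨r, hr⟩ : ∃ r, q = (p - k) + r := ⟨q - (p - k), by omega⟩
    have hm : m.toNat = M₁ * q + t := by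
      rw [← h3]
      norm_cast
    refine ⟨C1 ^ r * C2, by positivity, fun w => ?_⟩
    have h4 := hb1 w
    have h5 := hb2 w
    have h6 := nu_nonneg w
    rw [hm, map_mul, map_pow, norm_mul, norm_pow, hr, pow_add]
    calc ‖eval w H₁‖ ^ (p - k) * ‖eval w H₁‖ ^ r * ‖eval w B‖ * nu w ^ (M₁ * (p - k)) ≤
        ‖eval w H₁‖ ^ (p - k) * (C1 * nu w ^ M₁) ^ r * (C2 * nu w ^ t) *
          nu w ^ (M₁ * (p - k)) := by gcongr
      _ = _ := by
        rw [mul_pow, ← pow_mul, Nat.mul_add, pow_add, pow_add]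
        ring
  · exact ⟨0, le_refl _, fun w => by simp⟩
  · rintro A B _ _ ⟨C1, h1, h2⟩ ⟨C2, h3, h4⟩
    refine ⟨C1 + C2, add_nonneg h1 h3, fun w => ?_⟩
    have h5 := h2 w
    have h6 := h4 w
    have h7 := norm_add_le (eval w A) (eval w B)
    have h8 : 0 ≤ nu w ^ (M₁ * (p - k)) := pow_nonneg (nu_nonneg w) _
    rw [map_add]
    calc _ ≤ (‖eval w A‖ + ‖eval w B‖) * nu w ^ (M₁ * (p - k)) :=
          mul_le_mul_of_nonneg_right h7 h8
      _ = ‖eval w A‖ * nu w ^ (M₁ * (p - k)) + ‖eval w B‖ * nu w ^ (M₁ * (p - k)) := by ring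
      _ ≤ _ := add_le_add h5 h6
      _ = _ := by ring
  · rintro a A _ ⟨C1, h1, h2⟩
    refine ⟨‖a‖ * C1, by positivity, fun w => ?_⟩
    rw [smul_eval, norm_mul]
    calc _ = ‖a‖ * (‖eval w A‖ * nu w ^ (M₁ * (p - k))) := by ring
      _ ≤ ‖a‖ * (C1 * ‖eval w H₁‖ ^ (p - k) * nu w ^ m.toNat) :=
          mul_le_mul_of_nonneg_left (h2 w) (norm_nonneg a)
      _ = _ := by ring

/-- The weight `|H(f)| / |f| ^ M`. -/
noncomputable def Wt (f : ι → MvPolynomial σ ℂ) (H₁ : MvPolynomial ι ℂ) (M₁ : ℕ) (x : σ → ℂ) : ℝ :=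
  ‖eval x (aeval f H₁)‖ / Real.sqrt (Nf f x) ^ M₁

theorem Wt_nonneg (f : ι → MvPolynomial σ ℂ) (H₁ : MvPolynomial ι ℂ) (M₁ : ℕ) (x : σ → ℂ) :
    0 ≤ Wt f H₁ M₁ x := div_nonneg (norm_nonneg _) (pow_nonneg (Real.sqrt_nonneg _) _)

theorem Wt_meas (f : ι → MvPolynomial σ ℂ) (H₁ : MvPolynomial ι ℂ) (M₁ : ℕ) :
    Measurable (Wt f H₁ M₁) := by
  have h1 : Measurable fun x : σ → ℂ => ‖eval x (aeval f H₁)‖ :=
    (continuous_ev (aeval f H₁)).norm.measurable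
  have h2 : Measurable fun x : σ → ℂ => Real.sqrt (Nf f x) ^ M₁ :=
    ((continuous_Nf f).sqrt.pow M₁).measurable
  exact h1.div h2

theorem nu_f (f : ι → MvPolynomial σ ℂ) (x : σ → ℂ) :
    nu (fun j => eval x (f j)) = Real.sqrt (Nf f x) := rfl

theorem Wt_bound (f : ι → MvPolynomial σ ℂ) (H₁ : MvPolynomial ι ℂ) (M₁ : ℕ)
    (hH : H₁.IsHomogeneous M₁) : ∃ C : ℝ, 0 ≤ C ∧ ∀ x, Wt f H₁ M₁ x ≤ C := by
  obtain ⟨C, hC, hb⟩ := hom_bound H₁ M₁ hH
  refine ⟨C, hC, fun x => ?_⟩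
  unfold Wt
  have h1 := hb (fun j => eval x (f j))
  rw [nu_f] at h1
  rw [eval_aeval]
  have h0 : 0 ≤ Real.sqrt (Nf f x) ^ M₁ := pow_nonneg (Real.sqrt_nonneg _) _
  rcases h0.eq_or_lt with h | h
  · rw [← h, div_zero]; exact hC
  · rw [div_le_iff₀ h]
    exact h1

/-- **The bound of the right hand side.** -/
theorem Rg_bound (f : ι → MvPolynomial σ ℂ) (H₁ : MvPolynomial ι ℂ) (M₁ p k : ℕ)
    (hH : H₁.IsHomogeneous M₁) (hk : k ≤ p) (γ : ι → ℕ) (A : MvPolynomial ι ℂ)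
    (hA : A ∈ TT H₁ M₁ p k (M₁ * p + (∑ j, γ j : ℕ) + 1)) :
    ∃ L : ℝ, 0 ≤ L ∧ ∀ τ : ℝ, 0 ≤ τ → ∀ x, 0 < Nf f x →
      ‖Rg f γ A τ x * (starRingEnd ℂ) (eval x (aeval f (H₁ ^ p)))‖ ≤
        L * (Wt f H₁ M₁ x ^ p * Real.sqrt (Nf f x) ^ (2 * (M₁ * p) + 1) *
          Real.exp (-(τ * Nf f x) / 2)) := by
  obtain ⟨C1, hC1, hb1⟩ := TT.bound hH hk hA
  obtain ⟨C2, hC2, hb2⟩ := Wt_bound f H₁ M₁ hH
  set D : ℕ := ∑ j, γ j with hD
  refine ⟨C1 * (D.factorial * 2 ^ D) * C2 ^ (p - k), by positivity, fun τ hτ x hx => ?_⟩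
  have hm : ((M₁ : ℤ) * p + (D : ℕ) + 1).toNat = M₁ * p + D + 1 := by norm_cast
  rw [hm] at hb1
  have h1 := hb1 (fun j => eval x (f j))
  rw [nu_f] at h1
  set N := Nf f x with hN
  set ν := Real.sqrt N with hν
  have hν0 : 0 < ν := Real.sqrt_pos.2 hx
  have hν2 : ν * ν = N := Real.mul_self_sqrt hx.le
  have hfj : ∀ j, ‖eval x (f j)‖ ≤ ν := norm_le_sqrt f x
  set h := ‖eval (fun j => eval x (f j)) H₁‖ with hh
  set W := Wt f H₁ M₁ x with hW
  have hWe : h = W * ν ^ M₁ := by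
    rw [hW, Wt, eval_aeval, ← hN, ← hν, div_mul_cancel₀ _ (pow_pos hν0 _).ne']
  have hW0 : 0 ≤ W := Wt_nonneg _ _ _ _
  rw [Rg, norm_mul, norm_mul, eval_aeval, eval_aeval, RCLike.norm_conj, map_pow, norm_pow, ← hh]
  -- the product of the exponentials
  have e1 : ‖∏ j, ((-(τ : ℂ) * (starRingEnd ℂ) (eval x (f j))) ^ γ j *
      exp (-(τ : ℂ) * (starRingEnd ℂ) (eval x (f j)) * eval x (f j)))‖ ≤
      (τ * ν) ^ D * Real.exp (-(τ * N)) := by
    rw [norm_prod]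
    calc _ ≤ ∏ j, ((τ * ν) ^ γ j * Real.exp (-(τ * ‖eval x (f j)‖ ^ 2))) := by
          refine Finset.prod_le_prod (fun _ _ => norm_nonneg _) fun j _ => ?_
          have e2 : -(τ : ℂ) * (starRingEnd ℂ) (eval x (f j)) * eval x (f j) =
              ((-(τ * ‖eval x (f j)‖ ^ 2) : ℝ) : ℂ) := by
            rw [mul_assoc, Complex.conj_mul']
            push_cast
            ring
          rw [norm_mul, e2, norm_pow, norm_mul, norm_neg, Complex.norm_real, RCLike.norm_conj,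
            Real.norm_eq_abs, abs_of_nonneg hτ, Complex.norm_exp, Complex.ofReal_re]
          refine mul_le_mul_of_nonneg_right ?_ (Real.exp_pos _).le
          exact pow_le_pow_left₀ (by positivity) (mul_le_mul_of_nonneg_left (hfj j) hτ) _
      _ = _ := by
          rw [Finset.prod_mul_distrib, Finset.prod_pow_eq_pow_sum, ← Real.exp_sum,
            Finset.sum_neg_distrib, ← Finset.mul_sum]
          rfl
  have h4 : (τ * N) ^ D ≤ D.factorial * 2 ^ D * Real.exp (τ * N / 2) := by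
    have h5 := Real.pow_div_factorial_le_exp (τ * N / 2) (by positivity) D
    rw [div_le_iff₀ (by positivity), div_pow, div_le_iff₀ (by positivity)] at h5
    calc _ ≤ _ := h5
      _ = _ := by ring
  have hpk : 0 < ν ^ (M₁ * (p - k)) := pow_pos hν0 _
  obtain ⟨r, hr⟩ : ∃ r, p = r + k := ⟨p - k, by omega⟩
  have hrr : p - k = r := by omega
  rw [hrr] at h1 hpk ⊢
  set a := ‖eval (fun j => eval x (f j)) A‖ with ha
  have ha0 : 0 ≤ a := norm_nonneg _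
  refine le_of_mul_le_mul_right ?_ hpk
  calc _ ≤ ((τ * ν) ^ D * Real.exp (-(τ * N))) * a * h ^ p * ν ^ (M₁ * r) := by
        gcongr
    _ = ((τ * ν) ^ D * Real.exp (-(τ * N))) * h ^ p * (a * ν ^ (M₁ * r)) := by ring
    _ ≤ ((τ * ν) ^ D * Real.exp (-(τ * N))) * h ^ p *
        (C1 * h ^ r * ν ^ (M₁ * p + D + 1)) := by
        have : 0 ≤ h := norm_nonneg _
        gcongr
    _ = C1 * ((τ * N) ^ D * Real.exp (-(τ * N))) * (W ^ p * W ^ r) *
        (ν ^ (2 * (M₁ * p) + 1) * ν ^ (M₁ * r)) := by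
        rw [hWe, ← hν2]
        simp only [mul_pow, ← pow_mul]
        ring
    _ ≤ C1 * ((D.factorial * 2 ^ D * Real.exp (τ * N / 2)) * Real.exp (-(τ * N))) *
        (W ^ p * C2 ^ r) * (ν ^ (2 * (M₁ * p) + 1) * ν ^ (M₁ * r)) := by
        have := hb2 x
        gcongr
    _ = C1 * (D.factorial * 2 ^ D) * C2 ^ r * (W ^ p * ν ^ (2 * (M₁ * p) + 1) *
        (Real.exp (τ * N / 2) * Real.exp (-(τ * N)))) * ν ^ (M₁ * r) := by ring
    _ = _ := by
        rw [← Real.exp_add]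
        congr 5
        ring

end Pool.Agent.H74T
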