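import Pool.Agent.H74T.Mel
import Pool.Agent.H74A.Light

set_option autoImplicit false
set_option linter.unusedSectionVars false
set_option linter.unusedVariables false

/-! # Roots from weighted integrals, and the root `-(n + 1) / d` of cones -/

namespace Pool.Agent.H74T

open MvPolynomial MeasureTheory Filter Topology Metric
open scoped Pointwise
open Pool.Agent.Y230.AR (Test Nf Nf_nonneg continuous_Nf dvd_of_bound)
open Pool.Agent.W574.SM (IsFunctionalEq)
open Pool.Agent.H74C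
open Pool.Agent.H74D (Nf_smul Nf_ae chi_test)

section general

variable {σ ι : Type} [Fintype σ] [DecidableEq σ] [Fintype ι] [DecidableEq ι]

/-- **Multiplicities of roots from weighted integrals.** -/
theorem arch_rel {K : Set (σ → ℂ)} (hK : IsCompact K) (f : ι → MvPolynomial σ ℂ)
    (b : Polynomial ℂ) (hb : IsFunctionalEq f b) (H₁ : MvPolynomial ι ℂ) (M₁ : ℕ)
    (hH : H₁.IsHomogeneous M₁) : ∃ k : ℕ, ∀ p, k ≤ p → ∀ (φ : (σ → ℂ) → ℝ)
    (_ : Test K (fun x => (φ x : ℂ))) (_ : ∀ x, 0 ≤ φ x) (s0 : ℝ) (_ : s0 < 0) (κ : ℕ)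
    (_ : ∀ᵐ x ∂(volume.restrict K), 0 < Nf f x)
    (_ : ∀ s : ℝ, s0 < s → s < 0 → IntegrableOn (fun x => Wt f H₁ M₁ x ^ p * Nf f x ^ s) K)
    (c δ : ℝ) (_ : 0 < c) (_ : 0 < δ)
    (_ : ∀ s : ℝ, s0 < s → s < s0 + δ → s < 0 →
      c ≤ (s - s0) ^ κ * ∫ x in K, Wt f H₁ M₁ x ^ (2 * p) * Nf f x ^ s * φ x),
    (Polynomial.X - Polynomial.C (s0 : ℂ)) ^ κ ∣ b := by
  obtain ⟨k, hk⟩ := key_bound' hK f b hb H₁ M₁ hH
  refine ⟨k, fun p hp φ hφ hφ0 s0 hs0 κ hpos hI c δ hc hδ hlow => ?_⟩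
  obtain ⟨Cst, hC0, hC⟩ := hk p hp φ hφ hφ0
  obtain ⟨CW, hCW0, hCW⟩ := Wt_bound f H₁ M₁ hH
  set a0 : ℝ := -s0 with ha0
  have ha0p : 0 < a0 := by linarith
  set a1 : ℝ := max (a0 - 1 / 2) (a0 / 2) with ha1
  have ha1p : 0 < a1 := lt_of_lt_of_le (by linarith) (le_max_right _ _)
  have ha1l : a1 < a0 := max_lt (by linarith) (by linarith)
  have hNc := continuous_Nf f
  set W : (σ → ℂ) → ℝ := fun x => Wt f H₁ M₁ x ^ p with hW
  have hWm : Measurable W := (Wt_meas f H₁ M₁).pow_const p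
  have hW0 : ∀ x, 0 ≤ W x := fun x => pow_nonneg (Wt_nonneg f H₁ M₁ x) _
  have hI1 : IntegrableOn (fun x => W x * Nf f x ^ (-a1)) K := hI (-a1) (by linarith) (by linarith)
  have hI2 : IntegrableOn (fun x => W x * Real.sqrt (Nf f x)) K := by
    have h1 : IntegrableOn (fun x => Real.sqrt (Nf f x)) K :=
      hNc.sqrt.continuousOn.integrableOn_compact hK
    refine Integrable.bdd_mul (c := CW ^ p) h1 hWm.aestronglyMeasurable
      (Eventually.of_forall fun x => ?_)
    rw [Real.norm_eq_abs, abs_of_nonneg (hW0 x)]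
    exact pow_le_pow_left₀ (Wt_nonneg _ _ _ _) (hCW x) p
  set D : ℝ := (∫ x in K, W x * Nf f x ^ (-a1)) + ∫ x in K, W x * Real.sqrt (Nf f x) with hD
  have hD0 : 0 ≤ D := by
    refine add_nonneg ?_ ?_
    · exact integral_nonneg fun x => mul_nonneg (hW0 x) (Real.rpow_nonneg (Nf_nonneg f x) _)
    · exact integral_nonneg fun x => mul_nonneg (hW0 x) (Real.sqrt_nonneg _)
  have hup : ∀ a : ℝ, 0 < a → a < a0 → ∫ x in K, W x * Nf f x ^ (1 / 2 - a) ≤ D := by
    intro a ha haa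
    rw [hD, ← integral_add hI1 hI2]
    refine integral_mono_of_nonneg ?_ (hI1.add hI2) ?_
    · exact Filter.Eventually.of_forall fun x =>
        mul_nonneg (hW0 x) (Real.rpow_nonneg (Nf_nonneg f x) _)
    · filter_upwards [hpos] with x hx
      have h1 : a0 - 1 / 2 ≤ a1 := le_max_left _ _
      have h0 := hW0 x
      rcases le_total (Nf f x) 1 with h | h
      · have h2 : Nf f x ^ (1 / 2 - a) ≤ Nf f x ^ (-a1) :=
          Real.rpow_le_rpow_of_exponent_ge hx h (by linarith)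
        have h3 : 0 ≤ W x * Real.sqrt (Nf f x) := mul_nonneg h0 (Real.sqrt_nonneg (Nf f x))
        have h4 := mul_le_mul_of_nonneg_left h2 h0
        linarith
      · have h2 : Nf f x ^ (1 / 2 - a) ≤ Nf f x ^ (1 / 2 : ℝ) :=
          Real.rpow_le_rpow_of_exponent_le h (by linarith)
        rw [← Real.sqrt_eq_rpow] at h2
        have h3 : 0 ≤ W x * Nf f x ^ (-a1) := mul_nonneg h0 (Real.rpow_nonneg hx.le _)
        have h4 := mul_le_mul_of_nonneg_left h2 h0
        linarith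
  refine dvd_of_bound b s0 κ (min δ a0) (Cst * 2 ^ a0 * D / c) (lt_min hδ ha0p) ?_
  intro s hs hs'
  have hs1 : s < s0 + δ := lt_of_lt_of_le hs' (by linarith [min_le_left δ a0])
  have hs2 : s < 0 := lt_of_lt_of_le hs' (by linarith [min_le_right δ a0])
  have h1 := hlow s hs hs1 hs2
  have h2 := hC (-s) (by linarith) hpos (by rw [neg_neg]; exact hI s hs hs2)
  rw [neg_neg] at h2
  have e1 : b.eval (-((-s : ℝ) : ℂ)) = b.eval (s : ℂ) := by
    congr 1
    push_cast
    ring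
  rw [e1] at h2
  have h3 : Cst * 2 ^ (-s) * ∫ x in K, Wt f H₁ M₁ x ^ p * Nf f x ^ (1 / 2 - -s) ≤
      Cst * 2 ^ a0 * D := by
    have h4 := hup (-s) (by linarith) (by linarith)
    have h5 : (2 : ℝ) ^ (-s) ≤ 2 ^ a0 := Real.rpow_le_rpow_of_exponent_le (by norm_num) (by linarith)
    have h6 : 0 ≤ ∫ x in K, Wt f H₁ M₁ x ^ p * Nf f x ^ (1 / 2 - -s) :=
      integral_nonneg fun x => mul_nonneg (hW0 x) (Real.rpow_nonneg (Nf_nonneg f x) _)
    have h7 : (0 : ℝ) ≤ 2 ^ (-s) := Real.rpow_nonneg (by norm_num) _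
    have h4' : ∫ x in K, Wt f H₁ M₁ x ^ p * Nf f x ^ (1 / 2 - -s) ≤ D := h4
    gcongr
  have hp : 0 < s - s0 := sub_pos.2 hs
  set J := ∫ x in K, Wt f H₁ M₁ x ^ (2 * p) * Nf f x ^ s * φ x with hJ
  have h8 : c * ‖b.eval (s : ℂ)‖ ≤ Cst * 2 ^ a0 * D * (s - s0) ^ κ := by
    calc c * ‖b.eval (s : ℂ)‖ ≤ ((s - s0) ^ κ * J) * ‖b.eval (s : ℂ)‖ :=
          mul_le_mul_of_nonneg_right h1 (norm_nonneg _)
      _ = (s - s0) ^ κ * (‖b.eval (s : ℂ)‖ * J) := by ring
      _ ≤ (s - s0) ^ κ * (Cst * 2 ^ a0 * D) :=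
          mul_le_mul_of_nonneg_left (h2.trans h3) (pow_pos hp κ).le
      _ = _ := by ring
  rw [div_mul_eq_mul_div, le_div_iff₀ hc, mul_comm]
  exact h8

end general

section cone

variable {n : ℕ} {ι : Type} [Fintype ι] [DecidableEq ι]

theorem Wt_smul (f : ι → MvPolynomial (Fin n) ℂ) (d : ℕ) (hf : ∀ j, (f j).IsHomogeneous d)
    (H₁ : MvPolynomial ι ℂ) (M₁ : ℕ) (hH : H₁.IsHomogeneous M₁) (t : ℝ) (ht : 0 < t)
    (x : Fin n → ℂ) : Wt f H₁ M₁ (t • x) = Wt f H₁ M₁ x := by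
  have hF : (aeval f H₁).IsHomogeneous (d * M₁) := hH.aeval f hf
  unfold Wt
  have h1 := Pool.Agent.H74C.eval_smul_hom (aeval f H₁) (d * M₁) hF t x
  rw [h1, norm_mul, norm_pow, Complex.norm_real, Real.norm_eq_abs, abs_of_pos ht,
    Nf_smul f d hf, abs_of_pos ht, Real.sqrt_mul (by positivity), mul_comm 2 d, pow_mul t d 2,
    Real.sqrt_sq (by positivity), mul_pow, ← pow_mul]
  exact mul_div_mul_left _ _ (pow_pos ht _).ne'

/-- integrability of the powers -/
theorem WNf_int (hn : 0 < n) (f : ι → MvPolynomial (Fin n) ℂ) (d : ℕ)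
    (hf : ∀ j, (f j).IsHomogeneous d) (H₁ : MvPolynomial ι ℂ) (M₁ : ℕ)
    (hH : H₁.IsHomogeneous M₁) (q : ℕ) {s : ℝ}
    (hs : IntegrableOn (fun x => Wt f H₁ M₁ x ^ q * Nf f x ^ s) (Shl n))
    (hpos : 0 < (n : ℝ) + d * s) :
    IntegrableOn (fun x => Wt f H₁ M₁ x ^ q * Nf f x ^ s) (closedBall 0 1) := by
  have hmeas : Measurable fun x => Wt f H₁ M₁ x ^ q * Nf f x ^ s :=
    ((Wt_meas f H₁ M₁).pow_const q).mul ((continuous_Nf f).measurable.pow_const _)
  have hnn : ∀ x, 0 ≤ Wt f H₁ M₁ x ^ q * Nf f x ^ s := fun x =>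
    mul_nonneg (pow_nonneg (Wt_nonneg _ _ _ _) _) (Real.rpow_nonneg (Nf_nonneg f x) _)
  refine ⟨hmeas.aestronglyMeasurable, ?_⟩
  rw [hasFiniteIntegral_iff_ofReal (Eventually.of_forall hnn)]
  refine lt_of_le_of_ne le_top ?_
  have hfr := finrank_pi_complex n
  refine Sh.shell_sum volume (by rw [hfr]; omega)
    (fun x => ENNReal.ofReal (Wt f H₁ M₁ x ^ q * Nf f x ^ s))
    (ENNReal.ofReal ((1 / 2 : ℝ) ^ (2 * d * s))) ?_ ?_ ?_
  · intro x
    rw [← ENNReal.ofReal_mul (by positivity)]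
    refine ENNReal.ofReal_le_ofReal (le_of_eq ?_)
    rw [Wt_smul f d hf H₁ M₁ hH _ (by norm_num), Nf_smul f d hf,
      abs_of_pos (by norm_num : (0 : ℝ) < 1 / 2),
      Real.mul_rpow (by positivity) (Nf_nonneg f x), ← Real.rpow_natCast (1 / 2 : ℝ) (2 * d),
      ← Real.rpow_mul (by norm_num)]
    push_cast
    ring
  · rw [← ENNReal.ofReal_mul (by positivity), ← ENNReal.ofReal_one]
    refine (ENNReal.ofReal_lt_ofReal_iff zero_lt_one).2 ?_
    rw [hfr, ← Real.rpow_natCast, ← Real.rpow_add (by norm_num)]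
    refine Real.rpow_lt_one (by norm_num) (by norm_num) ?_
    push_cast
    linarith
  · have h1 := hs.2
    rw [hasFiniteIntegral_iff_ofReal (Eventually.of_forall hnn)] at h1
    refine ne_of_lt (lt_of_le_of_lt ?_ h1)
    have hsub : Sh.Sl (Fin n → ℂ) 0 ⊆ Shl n := by
      rintro x ⟨h2, h3⟩
      simp only [zero_add, pow_one, pow_zero] at h2 h3
      exact ⟨h2.le, h3⟩
    exact lintegral_mono_set hsub

theorem Wt_ae (f : ι → MvPolynomial (Fin n) ℂ) (H₁ : MvPolynomial ι ℂ) (M₁ : ℕ)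
    (hne : aeval f H₁ ≠ 0) (hf : ∃ j, f j ≠ 0) : ∀ᵐ x : Fin n → ℂ, 0 < Wt f H₁ M₁ x := by
  filter_upwards [ae_eval_ne _ hne, Nf_ae f hf] with x hx hx2
  exact div_pos (norm_pos_iff.2 hx) (pow_pos (Real.sqrt_pos.2 hx2) _)

/-- **The root of a cone which is light over an open subset.** -/
theorem rel_root (hn : 0 < n) (f : ι → MvPolynomial (Fin n) ℂ) (d : ℕ) (hd : 0 < d)
    (hf : ∀ j, (f j).IsHomogeneous d) (H₁ : MvPolynomial ι ℂ) (M₁ p₀ : ℕ)
    (hH : H₁.IsHomogeneous M₁) (hne : aeval f H₁ ≠ 0) (hfne : ∃ j, f j ≠ 0)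
    (hl : ∀ c : ℝ, 0 ≤ c → c < (n : ℝ) / d →
      IntegrableOn (fun x => Wt f H₁ M₁ x ^ p₀ * Nf f x ^ (-c)) (Shl n))
    (b : Polynomial ℂ) (hb : IsFunctionalEq f b) : b.eval ((-((n : ℝ) / d) : ℝ) : ℂ) = 0 := by
  classical
  obtain ⟨χ, hχ⟩ := exists_xcut n
  have hdR : (0 : ℝ) < d := by exact_mod_cast hd
  have hnR : (0 : ℝ) < n := by exact_mod_cast hn
  set s0 : ℝ := -((n : ℝ) / d) with hs0
  have hs00 : s0 < 0 := by
    have : 0 < (n : ℝ) / d := by positivity
    rw [hs0]; linarith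
  have hds : (d : ℝ) * s0 = -n := by
    rw [hs0]
    field_simp
  obtain ⟨CW, hCW0, hCW⟩ := Wt_bound f H₁ M₁ hH
  set W : (Fin n → ℂ) → ℝ := Wt f H₁ M₁ with hW
  have hWm : Measurable W := Wt_meas f H₁ M₁
  have hW0 : ∀ x, 0 ≤ W x := Wt_nonneg f H₁ M₁
  have hI' : ∀ q, p₀ ≤ q → ∀ s : ℝ, s0 < s → s < 0 →
      IntegrableOn (fun x => W x ^ q * Nf f x ^ s) (closedBall 0 1) := by
    intro q hq s h1 h2
    refine WNf_int hn f d hf H₁ M₁ hH q ?_ ?_
    · have h3 := hl (-s) (by linarith) (by rw [hs0] at h1; linarith)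
      rw [neg_neg] at h3
      have h4 : IntegrableOn (fun x => W x ^ (q - p₀) * (W x ^ p₀ * Nf f x ^ s)) (Shl n) := by
        refine Integrable.bdd_mul (c := CW ^ (q - p₀)) h3
          (hWm.pow_const _).aestronglyMeasurable (Eventually.of_forall fun x => ?_)
        rw [Real.norm_eq_abs, abs_of_nonneg (pow_nonneg (hW0 x) _)]
        exact pow_le_pow_left₀ (hW0 x) (hCW x) _
      refine h4.congr_fun (fun x _ => ?_) (by
        exact (measurableSet_le measurable_const measurable_norm).inter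
          (measurableSet_le measurable_norm measurable_const))
      simp only
      rw [← mul_assoc, ← pow_add, Nat.sub_add_cancel hq]
    · have : (d : ℝ) * s0 < d * s := mul_lt_mul_of_pos_left h1 hdR
      linarith
  have hK : IsCompact (closedBall (0 : Fin n → ℂ) (3 / 4)) := isCompact_closedBall _ _
  have hK1 : closedBall (0 : Fin n → ℂ) (3 / 4) ⊆ closedBall 0 1 :=
    closedBall_subset_closedBall (by norm_num)
  obtain ⟨M, hM⟩ := (isCompact_closedBall (0 : Fin n → ℂ) 1).exists_bound_of_continuousOn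
    (f := Nf f) (continuous_Nf f).continuousOn
  set M1 : ℝ := max 1 M with hM1
  have hM1' : 1 ≤ M1 := le_max_left _ _
  obtain ⟨k, hk⟩ := arch_rel hK f b hb H₁ M₁ hH
  set p : ℕ := max k p₀ with hp
  set q : ℕ := 2 * p with hq
  have hI : ∀ s : ℝ, s0 < s → s < 0 →
      IntegrableOn (fun x => W x ^ q * Nf f x ^ s) (closedBall 0 1) :=
    hI' q (by rw [hq, hp]; have := le_max_right k p₀; omega)
  -- the shell
  set A : Set (Fin n → ℂ) := Sh.Sl (Fin n → ℂ) 1 with hA
  have hAm : MeasurableSet A := Sh.Sl_meas 1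
  have hAsub : A ⊆ closedBall 0 (1 / 2) := by
    rintro x ⟨-, h2⟩
    rw [mem_closedBall_zero_iff]
    simpa using h2
  have hAμ' : 0 < volume A := by
    have hopen : IsOpen {x : Fin n → ℂ | (1 / 4 : ℝ) < ‖x‖ ∧ ‖x‖ < 1 / 2} :=
      (isOpen_lt continuous_const continuous_norm).inter (isOpen_lt continuous_norm continuous_const)
    have hne2 : {x : Fin n → ℂ | (1 / 4 : ℝ) < ‖x‖ ∧ ‖x‖ < 1 / 2}.Nonempty := by
      have : Nonempty (Fin n) := ⟨⟨0, hn⟩⟩
      refine ⟨fun _ => ((3 / 8 : ℝ) : ℂ), ?_⟩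
      have : ‖(fun _ : Fin n => ((3 / 8 : ℝ) : ℂ))‖ = 3 / 8 := by
        rw [pi_norm_const, Complex.norm_real, Real.norm_eq_abs, abs_of_pos (by norm_num)]
      constructor
      · rw [this]; norm_num
      · rw [this]; norm_num
    have h1 := hopen.measure_pos volume hne2
    refine lt_of_lt_of_le h1 (measure_mono ?_)
    rintro x ⟨h2, h3⟩
    refine ⟨?_, ?_⟩
    · norm_num
      linarith
    · norm_num
      linarith
  have hAfin : volume A < ⊤ := (measure_mono hAsub).trans_lt measure_closedBall_lt_top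
  have hWI : IntegrableOn (fun x => W x ^ q) A := by
    refine Measure.integrableOn_of_bounded (M := CW ^ q) hAfin.ne
      (hWm.pow_const q).aestronglyMeasurable (Eventually.of_forall fun x => ?_)
    rw [Real.norm_eq_abs, abs_of_nonneg (pow_nonneg (hW0 x) _)]
    exact pow_le_pow_left₀ (hW0 x) (hCW x) _
  have hAμ : 0 < ∫ x in A, W x ^ q := by
    rw [setIntegral_pos_iff_support_of_nonneg_ae
      (Eventually.of_forall fun x => pow_nonneg (hW0 x) q) hWI]
    have h1 : volume (Function.support (fun x => W x ^ q) ∩ A) = volume A := by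
      refine measure_congr ?_
      filter_upwards [Wt_ae f H₁ M₁ hne hfne] with x hx
      refine propext ⟨fun h => h.2, fun h => ⟨?_, h⟩⟩
      exact (pow_pos hx q).ne'
    rw [h1]
    exact hAμ'
  set S0 : ℝ := (∫ x in A, W x ^ q) * M1 ^ s0 with hS0
  have hS0p : 0 < S0 := mul_pos hAμ (Real.rpow_pos_of_pos (by linarith) _)
  have hL : 0 < Real.log 2 := Real.log_pos (by norm_num)
  have hmain := hk p (le_max_left _ _) χ (chi_test hχ) hχ.nonneg s0 hs00 1
    (ae_restrict_of_ae (Nf_ae f hfne))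
    (fun s h1 h2 => (hI' p (le_max_right _ _) s h1 h2).mono_set hK1)
    (S0 / (2 * d * Real.log 2)) 1 (by positivity) one_pos ?_
  · rw [pow_one, Polynomial.dvd_iff_isRoot, Polynomial.IsRoot.def] at hmain
    exact hmain
  intro s h1 h2 h3
  have hIs := hI s h1 h3
  have hnn : ∀ x, 0 ≤ W x ^ q * Nf f x ^ s := fun x =>
    mul_nonneg (pow_nonneg (hW0 x) q) (Real.rpow_nonneg (Nf_nonneg f x) _)
  have hIh : IntegrableOn (fun x => W x ^ q * Nf f x ^ s) (closedBall 0 (1 / 2)) :=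
    hIs.mono_set (closedBall_subset_closedBall (by norm_num))
  -- the lower bound by the half ball
  have e1 : ∫ x in closedBall (0 : Fin n → ℂ) (1 / 2), W x ^ q * Nf f x ^ s ≤
      ∫ x in closedBall (0 : Fin n → ℂ) (3 / 4), W x ^ q * Nf f x ^ s * χ x := by
    have h4 : ∫ x in closedBall (0 : Fin n → ℂ) (1 / 2), W x ^ q * Nf f x ^ s =
        ∫ x in closedBall (0 : Fin n → ℂ) (1 / 2), W x ^ q * Nf f x ^ s * χ x := by
      refine setIntegral_congr_fun measurableSet_closedBall fun x hx => ?_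
      change W x ^ q * Nf f x ^ s = W x ^ q * Nf f x ^ s * χ x
      rw [hχ.one x (by rw [mem_closedBall_zero_iff] at hx; exact hx), mul_one]
    rw [h4]
    refine setIntegral_mono_set ?_ (Eventually.of_forall fun x => mul_nonneg (hnn x) (hχ.nonneg x))
      (Eventually.of_forall (closedBall_subset_closedBall (by norm_num)))
    refine (hIs.mono_set hK1).mono' ?_ (Eventually.of_forall fun x => ?_)
    · exact (((hWm.pow_const q).mul ((continuous_Nf f).measurable.pow_const _)).mul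
        hχ.smooth.continuous.measurable).aestronglyMeasurable
    · rw [norm_mul, Real.norm_eq_abs, Real.norm_eq_abs, abs_of_nonneg (hnn x),
        abs_of_nonneg (hχ.nonneg x)]
      exact mul_le_of_le_one_right (hnn x) (hχ.le_one x)
  -- self-similarity
  set θ : ℝ := (1 / 2 : ℝ) ^ (2 * n + 2 * d * s) with hθ
  have e2 : ∫ x in closedBall (0 : Fin n → ℂ) (1 / 4), W x ^ q * Nf f x ^ s =
      θ * ∫ x in closedBall (0 : Fin n → ℂ) (1 / 2), W x ^ q * Nf f x ^ s := by
    have h4 := Measure.setIntegral_comp_smul_of_pos (volume : Measure (Fin n → ℂ))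
      (fun x => W x ^ q * Nf f x ^ s) (closedBall (0 : Fin n → ℂ) (1 / 2))
      (by norm_num : (0 : ℝ) < 1 / 2)
    have h5 : (1 / 2 : ℝ) • closedBall (0 : Fin n → ℂ) (1 / 2) = closedBall 0 (1 / 4) := by
      rw [_root_.smul_closedBall _ _ (by norm_num), smul_zero, Real.norm_eq_abs,
        abs_of_pos (by norm_num : (0 : ℝ) < 1 / 2)]
      norm_num
    rw [h5, finrank_pi_complex, smul_eq_mul] at h4
    have h6 : ∫ x in closedBall (0 : Fin n → ℂ) (1 / 2),
        W ((1 / 2 : ℝ) • x) ^ q * Nf f ((1 / 2 : ℝ) • x) ^ s =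
        (1 / 2 : ℝ) ^ (2 * d * s) *
          ∫ x in closedBall (0 : Fin n → ℂ) (1 / 2), W x ^ q * Nf f x ^ s := by
      rw [← integral_const_mul]
      refine integral_congr_ae (Eventually.of_forall fun x => ?_)
      change W ((1 / 2 : ℝ) • x) ^ q * Nf f ((1 / 2 : ℝ) • x) ^ s =
        (1 / 2 : ℝ) ^ (2 * d * s) * (W x ^ q * Nf f x ^ s)
      rw [hW, Wt_smul f d hf H₁ M₁ hH _ (by norm_num), Nf_smul f d hf,
        abs_of_pos (by norm_num : (0 : ℝ) < 1 / 2),
        Real.mul_rpow (by positivity) (Nf_nonneg f x), ← Real.rpow_natCast (1 / 2 : ℝ) (2 * d),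
        ← Real.rpow_mul (by norm_num)]
      push_cast
      ring
    rw [h6] at h4
    have h7 : (1 / 2 : ℝ) ^ (2 * n) ≠ 0 := by positivity
    have h8 : θ = (1 / 2 : ℝ) ^ (2 * n) * (1 / 2 : ℝ) ^ (2 * d * s) := by
      rw [hθ, Real.rpow_add (by norm_num), ← Real.rpow_natCast]
      push_cast
      rfl
    rw [h8, mul_assoc, h4, ← mul_assoc, mul_inv_cancel₀ h7, one_mul]
  have hAB : closedBall (0 : Fin n → ℂ) (1 / 2) = closedBall 0 (1 / 4) ∪ A := by
    ext x
    rw [Set.mem_union, mem_closedBall_zero_iff, mem_closedBall_zero_iff]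
    constructor
    · intro h
      by_cases h4 : ‖x‖ ≤ 1 / 4
      · exact Or.inl h4
      · push Not at h4
        refine Or.inr ⟨?_, ?_⟩
        · norm_num
          linarith
        · norm_num
          linarith
    · rintro (h | h)
      · linarith
      · have := h.2
        norm_num at this
        linarith
  have hdisj : Disjoint (closedBall (0 : Fin n → ℂ) (1 / 4)) A := by
    rw [Set.disjoint_left]
    intro x h4 h5
    rw [mem_closedBall_zero_iff] at h4
    have := h5.1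
    norm_num at this
    linarith
  have e3 : (∫ x in closedBall (0 : Fin n → ℂ) (1 / 2), W x ^ q * Nf f x ^ s) * (1 - θ) =
      ∫ x in A, W x ^ q * Nf f x ^ s := by
    have h4 : ∫ x in closedBall (0 : Fin n → ℂ) (1 / 2), W x ^ q * Nf f x ^ s =
        (∫ x in closedBall (0 : Fin n → ℂ) (1 / 4), W x ^ q * Nf f x ^ s) +
          ∫ x in A, W x ^ q * Nf f x ^ s := by
      rw [hAB, setIntegral_union hdisj hAm
        (hIh.mono_set (closedBall_subset_closedBall (by norm_num))) (hIh.mono_set hAsub)]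
    rw [e2] at h4
    linarith
  have e4 : S0 ≤ ∫ x in A, W x ^ q * Nf f x ^ s := by
    have h4 : ∫ x in A, W x ^ q * M1 ^ s0 = S0 := by
      rw [integral_mul_const, hS0]
    rw [← h4]
    refine setIntegral_mono_ae_restrict (hWI.mul_const _) (hIh.mono_set hAsub) ?_
    filter_upwards [ae_restrict_of_ae (Nf_ae f hfne), ae_restrict_mem hAm] with x hx hxA
    have h5 : Nf f x ≤ M1 := by
      have h6 := hM x ((hAsub.trans (closedBall_subset_closedBall (by norm_num))) hxA)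
      rw [Real.norm_eq_abs] at h6
      exact ((le_abs_self _).trans h6).trans (le_max_right _ _)
    refine mul_le_mul_of_nonneg_left ?_ (pow_nonneg (hW0 x) q)
    calc M1 ^ s0 ≤ M1 ^ s := Real.rpow_le_rpow_of_exponent_le hM1' h1.le
      _ ≤ Nf f x ^ s := Real.rpow_le_rpow_of_nonpos hx h5 h3.le
  have e5 : 1 - θ ≤ 2 * d * Real.log 2 * (s - s0) := by
    have h4 : θ = Real.exp (-(2 * d * Real.log 2 * (s - s0))) := by
      rw [hθ, Real.rpow_def_of_pos (by norm_num)]
      congr 1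
      rw [one_div, Real.log_inv]
      linear_combination (-2 * Real.log 2) * hds
    rw [h4]
    have := Real.add_one_le_exp (-(2 * d * Real.log 2 * (s - s0)))
    linarith
  have hpos : 0 < s - s0 := by linarith
  have hI0 : 0 ≤ ∫ x in closedBall (0 : Fin n → ℂ) (1 / 2), W x ^ q * Nf f x ^ s :=
    setIntegral_nonneg measurableSet_closedBall fun x _ => hnn x
  rw [pow_one]
  rw [div_le_iff₀ (by positivity)]
  calc S0 ≤ (∫ x in closedBall (0 : Fin n → ℂ) (1 / 2), W x ^ q * Nf f x ^ s) * (1 - θ) := by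
        rw [e3]; exact e4
    _ ≤ (∫ x in closedBall (0 : Fin n → ℂ) (1 / 2), W x ^ q * Nf f x ^ s) *
        (2 * d * Real.log 2 * (s - s0)) := mul_le_mul_of_nonneg_left e5 hI0
    _ ≤ (∫ x in closedBall (0 : Fin n → ℂ) (3 / 4), W x ^ q * Nf f x ^ s * χ x) *
        (2 * d * Real.log 2 * (s - s0)) := mul_le_mul_of_nonneg_right e1 (by positivity)
    _ = _ := by ring

end cone

end Pool.Agent.H74T
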