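import Mathlib

set_option autoImplicit false
set_option linter.unusedSectionVars false
set_option linter.unusedVariables false

/-! # Landau's lemma for moment generating functions -/

namespace Pool.Agent.H74T

open MeasureTheory ProbabilityTheory Filter Topology Metric

theorem landau {Ω : Type} [MeasurableSpace Ω] {μ : Measure Ω} {X : Ω → ℝ} (hXm : Measurable X)
    (hX : ∀ᵐ ω ∂μ, 0 ≤ X ω) (S r : ℝ) (hr : 0 < r)
    (hint : ∀ a : ℝ, a < S → Integrable (fun ω => Real.exp (a * X ω)) μ) (F : ℂ → ℂ)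
    (hF : DifferentiableOn ℂ F (ball (S : ℂ) r))
    (hFeq : ∀ a : ℝ, S - r < a → a < S → F a = ((∫ ω, Real.exp (a * X ω) ∂μ : ℝ) : ℂ)) :
    ∃ ε : ℝ, 0 < ε ∧ Integrable (fun ω => Real.exp ((S + ε) * X ω)) μ := by
  set a₀ : ℝ := S - r / 4 with ha₀
  have hset : ∀ z : ℂ, z.re < S → z.re ∈ interior (integrableExpSet X μ) := by
    intro z hz
    exact mem_interior.2 ⟨Set.Iio S, fun a ha => hint a ha, isOpen_Iio, hz⟩
  have ha₀S : a₀ < S := by rw [ha₀]; linarith
  have ha₀i : ((a₀ : ℂ)).re ∈ interior (integrableExpSet X μ) :=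
    hset _ (by rw [Complex.ofReal_re]; exact ha₀S)
  -- equality near `a₀`
  have hU1 : ball (a₀ : ℂ) (r / 4) ⊆ ball (S : ℂ) r := by
    intro z hz
    rw [mem_ball] at hz ⊢
    have h1 : dist (a₀ : ℂ) (S : ℂ) = r / 4 := by
      rw [Complex.dist_eq, ← Complex.ofReal_sub, Complex.norm_real, Real.norm_eq_abs, ha₀]
      rw [show S - r / 4 - S = -(r / 4) by ring, abs_neg, abs_of_pos (by positivity)]
    have h2 := dist_triangle z (a₀ : ℂ) (S : ℂ)
    linarith
  have hU2 : ∀ z ∈ ball (a₀ : ℂ) (r / 4), z.re < S := by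
    intro z hz
    rw [mem_ball, Complex.dist_eq] at hz
    have h1 := (Complex.abs_re_le_norm (z - a₀)).trans hz.le
    rw [Complex.sub_re, Complex.ofReal_re] at h1
    have h2 := (Complex.abs_re_le_norm (z - a₀)).trans_lt hz
    rw [Complex.sub_re, Complex.ofReal_re] at h2
    have h3 := (le_abs_self _).trans_lt h2
    rw [ha₀] at h3
    linarith
  have hFa : AnalyticOnNhd ℂ F (ball (a₀ : ℂ) (r / 4)) :=
    (hF.mono hU1).analyticOnNhd isOpen_ball
  have hGa : AnalyticOnNhd ℂ (complexMGF X μ) (ball (a₀ : ℂ) (r / 4)) := fun z hz =>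
    analyticAt_complexMGF (hset z (hU2 z hz))
  have hfreq : ∃ᶠ z in 𝓝[≠] (a₀ : ℂ), F z = complexMGF X μ z := by
    have ht : Tendsto (fun a : ℝ => (a : ℂ)) (𝓝[≠] a₀) (𝓝[≠] (a₀ : ℂ)) := by
      refine tendsto_nhdsWithin_of_tendsto_nhds_of_eventually_within _ ?_ ?_
      · exact (Complex.continuous_ofReal.tendsto a₀).mono_left nhdsWithin_le_nhds
      · filter_upwards [self_mem_nhdsWithin] with a ha
        intro h
        exact ha (Complex.ofReal_injective h)
    refine ht.frequently (Eventually.frequently ?_)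
    have h1 : ∀ᶠ a in 𝓝 a₀, S - r < a ∧ a < S :=
      Ioo_mem_nhds (by rw [ha₀]; linarith) ha₀S
    filter_upwards [h1.filter_mono nhdsWithin_le_nhds] with a ha
    rw [hFeq a ha.1 ha.2, complexMGF_ofReal]
    rfl
  have hEq : Set.EqOn F (complexMGF X μ) (ball (a₀ : ℂ) (r / 4)) :=
    hFa.eqOn_of_preconnected_of_frequently_eq hGa (convex_ball _ _).isPreconnected
      (mem_ball_self (by positivity)) hfreq
  have hEv : F =ᶠ[𝓝 (a₀ : ℂ)] complexMGF X μ :=
    eventually_of_mem (ball_mem_nhds _ (by positivity)) hEq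
  -- the derivatives
  have hder : ∀ n : ℕ, iteratedDeriv n F (a₀ : ℂ) =
      ((∫ ω, X ω ^ n * Real.exp (a₀ * X ω) ∂μ : ℝ) : ℂ) := by
    intro n
    rw [hEv.iteratedDeriv_eq n, iteratedDeriv_complexMGF ha₀i n]
    rw [← integral_complex_ofReal]
    refine integral_congr_ae (Eventually.of_forall fun ω => ?_)
    push_cast
    rfl
  have hR : closedBall (a₀ : ℂ) (r / 2) ⊆ ball (S : ℂ) r := by
    intro z hz
    rw [mem_closedBall] at hz
    rw [mem_ball]
    have h1 : dist (a₀ : ℂ) (S : ℂ) = r / 4 := by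
      rw [Complex.dist_eq, ← Complex.ofReal_sub, Complex.norm_real, Real.norm_eq_abs, ha₀]
      rw [show S - r / 4 - S = -(r / 4) by ring, abs_neg, abs_of_pos (by positivity)]
    have h2 := dist_triangle z (a₀ : ℂ) (S : ℂ)
    linarith
  obtain ⟨C, hC⟩ := (isCompact_closedBall (a₀ : ℂ) (r / 2)).exists_bound_of_continuousOn
    (f := F) (hF.mono hR).continuousOn
  have hC0 : 0 ≤ C := (norm_nonneg _).trans (hC (a₀ : ℂ) (mem_closedBall_self (by positivity)))
  have hcau : ∀ n : ℕ, ∫ ω, X ω ^ n * Real.exp (a₀ * X ω) ∂μ ≤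
      n.factorial * C / (r / 2) ^ n := by
    intro n
    have h1 := Complex.norm_iteratedDeriv_le_of_forall_mem_sphere_norm_le (f := F) n
      (by positivity : 0 < r / 2) (hF.diffContOnCl_ball hR)
      (fun z hz => hC z (sphere_subset_closedBall hz))
    rw [hder n, Complex.norm_real, Real.norm_eq_abs] at h1
    exact (le_abs_self _).trans h1
  -- integrability of the terms
  have hterm : ∀ n : ℕ, Integrable (fun ω => X ω ^ n * Real.exp (a₀ * X ω)) μ := by
    intro n
    have h1 : (a₀ : ℝ) ∈ interior (integrableExpSet X μ) := by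
      have := ha₀i
      rwa [Complex.ofReal_re] at this
    exact integrable_pow_mul_exp_of_mem_interior_integrableExpSet h1 n
  -- the sum
  refine ⟨r / 12, by positivity, ?_⟩
  have hm : Measurable fun ω => Real.exp ((S + r / 12) * X ω) :=
    Real.measurable_exp.comp (measurable_const.mul hXm)
  refine ⟨hm.aestronglyMeasurable, ?_⟩
  rw [hasFiniteIntegral_iff_ofReal (Eventually.of_forall fun ω => (Real.exp_pos _).le)]
  have e1 : ∀ᵐ ω ∂μ, ENNReal.ofReal (Real.exp ((S + r / 12) * X ω)) =
      ∑' n : ℕ, ENNReal.ofReal ((r / 3) ^ n / n.factorial * (X ω ^ n * Real.exp (a₀ * X ω))) := by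
    filter_upwards [hX] with ω hω
    have h1 : HasSum (fun n : ℕ => (r / 3) ^ n / n.factorial * (X ω ^ n * Real.exp (a₀ * X ω)))
        (Real.exp ((S + r / 12) * X ω)) := by
      have h2 := (NormedSpace.expSeries_div_hasSum_exp (r / 3 * X ω)).mul_right
        (Real.exp (a₀ * X ω))
      rw [← Real.exp_eq_exp_ℝ] at h2
      have h3 : Real.exp (r / 3 * X ω) * Real.exp (a₀ * X ω) =
          Real.exp ((S + r / 12) * X ω) := by
        rw [← Real.exp_add]
        congr 1
        rw [ha₀]
        ring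
      rw [h3] at h2
      have h4 : (fun n : ℕ => (r / 3) ^ n / n.factorial * (X ω ^ n * Real.exp (a₀ * X ω))) =
          fun n : ℕ => (r / 3 * X ω) ^ n / n.factorial * Real.exp (a₀ * X ω) := by
        funext n
        rw [mul_pow]
        ring
      rw [h4]
      exact h2
    rw [← h1.tsum_eq]
    refine ENNReal.ofReal_tsum_of_nonneg (fun n => ?_) h1.summable
    positivity
  rw [lintegral_congr_ae e1, lintegral_tsum]
  · have h2 : ∀ n : ℕ, ∫⁻ ω, ENNReal.ofReal ((r / 3) ^ n / n.factorial *
        (X ω ^ n * Real.exp (a₀ * X ω))) ∂μ ≤ ENNReal.ofReal (C * (2 / 3) ^ n) := by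
      intro n
      rw [← ofReal_integral_eq_lintegral_ofReal ((hterm n).const_mul _)]
      · refine ENNReal.ofReal_le_ofReal ?_
        rw [integral_const_mul]
        calc (r / 3) ^ n / n.factorial * ∫ ω, X ω ^ n * Real.exp (a₀ * X ω) ∂μ ≤
              (r / 3) ^ n / n.factorial * (n.factorial * C / (r / 2) ^ n) :=
              mul_le_mul_of_nonneg_left (hcau n) (by positivity)
          _ = C * ((r / 3) / (r / 2)) ^ n := by
              rw [div_pow (r / 3)]
              have : (n.factorial : ℝ) ≠ 0 := Nat.cast_ne_zero.2 (Nat.factorial_ne_zero n)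
              field_simp
          _ = _ := by
              congr 2
              field_simp
      · filter_upwards [hX] with ω hω
        positivity
    refine lt_of_le_of_lt (ENNReal.tsum_le_tsum h2) ?_
    have h3 : Summable fun n : ℕ => C * (2 / 3 : ℝ) ^ n :=
      (summable_geometric_of_lt_one (by norm_num) (by norm_num)).mul_left C
    rw [← ENNReal.ofReal_tsum_of_nonneg (fun n => by positivity) h3]
    exact ENNReal.ofReal_lt_top
  · intro n
    exact ((measurable_const.mul ((hXm.pow_const n).mul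
      (Real.measurable_exp.comp (measurable_const.mul hXm)))).ennreal_ofReal).aemeasurable

end Pool.Agent.H74T
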