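import Pool.Agent.H74T.Mel2
import Pool.Agent.H74T.Landau
import Pool.Agent.H74A.Light

set_option autoImplicit false
set_option linter.unusedSectionVars false
set_option linter.unusedVariables false

/-! # Analytic continuation -/

namespace Pool.Agent.H74T

open MvPolynomial MeasureTheory Filter Topology Metric
open Pool.Agent.Y230.AR (Test Nf Nf_nonneg continuous_Nf)
open Pool.Agent.W574.SM (IsFunctionalEq)
open Pool.Agent.H74D (Nf_ae)

theorem rpow_exp_bound (m : ℝ) (hm : 0 ≤ m) : ∃ C : ℝ, 0 ≤ C ∧ ∀ y : ℝ, 0 ≤ y →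
    y ^ m * Real.exp (-y / 2) ≤ C := by
  set n : ℕ := ⌈m⌉₊ with hn
  refine ⟨1 + 2 ^ n * n.factorial, by positivity, fun y hy => ?_⟩
  have h1 : y ^ m ≤ 1 + y ^ n := by
    rcases le_total y 1 with h | h
    · have h2 : y ^ m ≤ 1 := Real.rpow_le_one hy h hm
      have h3 : 0 ≤ y ^ n := by positivity
      linarith
    · have h2 : y ^ m ≤ y ^ (n : ℝ) :=
        Real.rpow_le_rpow_of_exponent_le h (Nat.le_ceil m)
      rw [Real.rpow_natCast] at h2
      linarith
  have h2 : y ^ n ≤ 2 ^ n * n.factorial * Real.exp (y / 2) := by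
    have h3 := Real.pow_div_factorial_le_exp (y / 2) (by positivity) n
    rw [div_pow, div_div, div_le_iff₀ (by positivity)] at h3
    linarith
  have h4 : Real.exp (y / 2) * Real.exp (-y / 2) = 1 := by
    rw [← Real.exp_add, ← Real.exp_zero]
    congr 1
    ring
  have h5 : Real.exp (-y / 2) ≤ 1 := Real.exp_le_one_iff.2 (by linarith)
  calc y ^ m * Real.exp (-y / 2) ≤ (1 + y ^ n) * Real.exp (-y / 2) :=
        mul_le_mul_of_nonneg_right h1 (Real.exp_pos _).le
    _ ≤ (1 + 2 ^ n * n.factorial * Real.exp (y / 2)) * Real.exp (-y / 2) :=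
        mul_le_mul_of_nonneg_right (by linarith) (Real.exp_pos _).le
    _ = Real.exp (-y / 2) + 2 ^ n * n.factorial * (Real.exp (y / 2) * Real.exp (-y / 2)) := by ring
    _ ≤ _ := by rw [h4, mul_one]; linarith

section

variable {σ ι : Type} [Fintype σ] [DecidableEq σ] [Fintype ι] [DecidableEq ι]

/-- **The Mellin transform is analytic in a larger strip.** -/
theorem mellin_diff {K : Set (σ → ℂ)} (hK : IsCompact K) (f : ι → MvPolynomial σ ℂ)
    (H₁ : MvPolynomial ι ℂ) (M₁ : ℕ) (hH : H₁.IsHomogeneous M₁) (p : ℕ)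
    (hpos : ∀ᵐ x ∂(volume.restrict K), 0 < Nf f x) (Φ : ℝ → ℂ) (G : ℝ) (hG0 : 0 ≤ G)
    (hc : ContinuousOn Φ (Set.Ioi 0))
    (hb : ∀ u : ℝ, 0 ≤ u → ‖Φ u‖ ≤ G * ∫ x in K, Wt f H₁ M₁ x ^ p *
        Real.sqrt (Nf f x) ^ (2 * (M₁ * p) + 1) * Real.exp (-(u * Nf f x) / 2)) (c : ℝ)
    (hc0 : 0 ≤ c) (hI : IntegrableOn (fun x => Wt f H₁ M₁ x ^ p * Nf f x ^ (-c)) K) (s : ℂ)
    (hs : 0 < s.re) (hs' : s.re < c + 1 / 2 + (M₁ * p : ℕ)) : DifferentiableAt ℂ (mellin Φ) s := by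
  set M : ℕ := M₁ * p with hM
  set W : (σ → ℂ) → ℝ := Wt f H₁ M₁ with hW
  have hWm : Measurable W := Wt_meas f H₁ M₁
  have hW0 : ∀ x, 0 ≤ W x := Wt_nonneg f H₁ M₁
  obtain ⟨CW, hCW0, hCW⟩ := Wt_bound f H₁ M₁ hH
  have hNc := continuous_Nf f
  set m : ℝ := c + 1 / 2 + (M : ℝ) with hm
  have hm0 : 0 ≤ m := by positivity
  obtain ⟨C, hC0, hC⟩ := rpow_exp_bound m hm0
  refine mellin_differentiableAt_of_isBigO_rpow (a := m) (b := 0)
    (hc.locallyIntegrableOn measurableSet_Ioi) ?_ hs' ?_ hs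
  · -- at infinity
    set J : ℝ := ∫ x in K, W x ^ p * Nf f x ^ (-c) with hJ
    have hJ0 : 0 ≤ J := integral_nonneg fun x =>
      mul_nonneg (pow_nonneg (hW0 x) _) (Real.rpow_nonneg (Nf_nonneg f x) _)
    refine Asymptotics.IsBigO.of_bound (G * (C * J)) ?_
    filter_upwards [eventually_gt_atTop 0] with u hu
    rw [Real.norm_eq_abs, abs_of_nonneg (Real.rpow_nonneg hu.le _)]
    refine (hb u hu.le).trans ?_
    rw [mul_assoc]
    refine mul_le_mul_of_nonneg_left ?_ hG0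
    have h1 : ∫ x in K, W x ^ p * Real.sqrt (Nf f x) ^ (2 * M + 1) *
        Real.exp (-(u * Nf f x) / 2) ≤ ∫ x in K, C * u ^ (-m) * (W x ^ p * Nf f x ^ (-c)) := by
      refine integral_mono_of_nonneg ?_ (hI.const_mul _) ?_
      · exact Eventually.of_forall fun x => mul_nonneg (mul_nonneg (pow_nonneg (hW0 x) _)
          (pow_nonneg (Real.sqrt_nonneg _) _)) (Real.exp_pos _).le
      · filter_upwards [hpos] with x hx
        have h2 : Real.sqrt (Nf f x) ^ (2 * M + 1) = Nf f x ^ ((M : ℝ) + 1 / 2) := by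
          rw [pow_succ, pow_mul, Real.sq_sqrt hx.le, Real.rpow_add hx, Real.rpow_natCast,
            ← Real.sqrt_eq_rpow]
        have h3 : Nf f x ^ ((M : ℝ) + 1 / 2) = Nf f x ^ (-c) * (u ^ (-m) * (u * Nf f x) ^ m) := by
          rw [Real.mul_rpow hu.le hx.le, ← mul_assoc (u ^ (-m)), ← Real.rpow_add hu, neg_add_cancel,
            Real.rpow_zero, one_mul, ← Real.rpow_add hx, hm]
          congr 1
          ring
        have h4 := hC (u * Nf f x) (by positivity)
        have h5 : 0 ≤ W x ^ p := pow_nonneg (hW0 x) _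
        have h6 : 0 ≤ Nf f x ^ (-c) := Real.rpow_nonneg hx.le _
        have h7 : 0 ≤ u ^ (-m) := Real.rpow_nonneg hu.le _
        change W x ^ p * Real.sqrt (Nf f x) ^ (2 * M + 1) * Real.exp (-(u * Nf f x) / 2) ≤
          C * u ^ (-m) * (W x ^ p * Nf f x ^ (-c))
        rw [h2, h3]
        calc W x ^ p * (Nf f x ^ (-c) * (u ^ (-m) * (u * Nf f x) ^ m)) *
              Real.exp (-(u * Nf f x) / 2) =
              (W x ^ p * Nf f x ^ (-c) * u ^ (-m)) * ((u * Nf f x) ^ m *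
                Real.exp (-(u * Nf f x) / 2)) := by ring
          _ ≤ (W x ^ p * Nf f x ^ (-c) * u ^ (-m)) * C :=
              mul_le_mul_of_nonneg_left h4 (by positivity)
          _ = _ := by ring
    rw [integral_const_mul] at h1
    calc _ ≤ _ := h1
      _ = C * J * u ^ (-m) := by ring
  · -- at zero
    set J : ℝ := ∫ x in K, W x ^ p * Real.sqrt (Nf f x) ^ (2 * M + 1) with hJ
    refine Asymptotics.IsBigO.of_bound (G * J) ?_
    filter_upwards [self_mem_nhdsWithin] with u hu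
    have hu0 : (0 : ℝ) < u := hu
    rw [neg_zero, Real.rpow_zero, norm_one, mul_one]
    refine (hb u hu0.le).trans (mul_le_mul_of_nonneg_left ?_ hG0)
    have h1 : Integrable (fun x => W x ^ p * Real.sqrt (Nf f x) ^ (2 * M + 1))
        (volume.restrict K) := by
      have h2 : Integrable (fun x => Real.sqrt (Nf f x) ^ (2 * M + 1)) (volume.restrict K) :=
        (hNc.sqrt.pow _).continuousOn.integrableOn_compact hK
      exact Integrable.bdd_mul (c := CW ^ p) h2 (hWm.pow_const p).aestronglyMeasurable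
        (Eventually.of_forall fun x => by
          rw [Real.norm_eq_abs, abs_of_nonneg (pow_nonneg (hW0 x) p)]
          exact pow_le_pow_left₀ (hW0 x) (hCW x) p)
    refine integral_mono_of_nonneg ?_ h1 ?_
    · exact Eventually.of_forall fun x => mul_nonneg (mul_nonneg (pow_nonneg (hW0 x) _)
        (pow_nonneg (Real.sqrt_nonneg _) _)) (Real.exp_pos _).le
    · refine Eventually.of_forall fun x => ?_
      have h3 : 0 ≤ W x ^ p * Real.sqrt (Nf f x) ^ (2 * M + 1) :=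
        mul_nonneg (pow_nonneg (hW0 x) _) (pow_nonneg (Real.sqrt_nonneg _) _)
      refine mul_le_of_le_one_right h3 (Real.exp_le_one_iff.2 ?_)
      have := mul_nonneg hu0.le (Nf_nonneg f x)
      linarith

/-- **Extension of the relative zeta functions.** -/
theorem rel_cont {K : Set (σ → ℂ)} (hK : IsCompact K) (f : ι → MvPolynomial σ ℂ)
    (b : Polynomial ℂ) (hb : IsFunctionalEq f b) (H₁ : MvPolynomial ι ℂ) (M₁ : ℕ)
    (hH : H₁.IsHomogeneous M₁) : ∃ k : ℕ, ∀ p, k ≤ p → ∀ (φ : (σ → ℂ) → ℂ)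
    (_ : Test K φ) (_ : ∀ᵐ x ∂(volume.restrict K), 0 < Nf f x) (c : ℝ) (_ : 0 ≤ c)
    (_ : IntegrableOn (fun x => Wt f H₁ M₁ x ^ p * Nf f x ^ (-c)) K),
    ∃ E : ℂ → ℂ, (∀ z : ℂ, 0 < z.re → z.re < c + 1 / 2 → DifferentiableAt ℂ E z) ∧
      ∀ a : ℝ, 0 < a → IntegrableOn (fun x => Wt f H₁ M₁ x ^ (2 * p) * Nf f x ^ (-a) * ‖φ x‖) K →
        E (a : ℂ) = b.eval (-(a : ℂ)) *
            ∫ x in K, ((Wt f H₁ M₁ x ^ (2 * p) * Nf f x ^ (-a) : ℝ) : ℂ) * φ x := by
  obtain ⟨k, hk⟩ := key_mellin hK f b hb H₁ M₁ hH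
  refine ⟨k, fun p hp φ hφ hpos c hc0 hI => ?_⟩
  obtain ⟨Φ, G, hG0, hΦc, hΦb, hid⟩ := hk p hp φ hφ hpos
  set M : ℕ := M₁ * p with hM
  refine ⟨fun z => mellin Φ (z + (M : ℂ)) / Complex.Gamma (z + (M : ℂ)), fun z hz1 hz2 => ?_,
    fun a ha hIa => ?_⟩
  · have hre : (z + (M : ℂ)).re = z.re + M := by simp
    have hre0 : 0 < (z + (M : ℂ)).re := by
      rw [hre]
      positivity
    have h1 : DifferentiableAt ℂ (mellin Φ) (z + (M : ℂ)) :=
      mellin_diff hK f H₁ M₁ hH p hpos Φ G hG0 hΦc hΦb c hc0 hI _ hre0 (by rw [hre]; linarith)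
    have h2 : DifferentiableAt ℂ Complex.Gamma (z + (M : ℂ)) := by
      refine Complex.differentiableAt_Gamma _ fun n hn => ?_
      have := congrArg Complex.re hn
      rw [Complex.neg_re, Complex.natCast_re] at this
      rw [this] at hre0
      have hn0 : (0 : ℝ) ≤ n := Nat.cast_nonneg n
      linarith
    have hadd : DifferentiableAt ℂ (fun z : ℂ => z + (M : ℂ)) z := by fun_prop
    have h3 : DifferentiableAt ℂ ((mellin Φ) ∘ fun z : ℂ => z + (M : ℂ)) z :=
      DifferentiableAt.comp z h1 hadd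
    have h4 : DifferentiableAt ℂ (Complex.Gamma ∘ fun z : ℂ => z + (M : ℂ)) z :=
      DifferentiableAt.comp z h2 hadd
    exact DifferentiableAt.div h3 h4 (Complex.Gamma_ne_zero_of_re_pos hre0)
  · have h1 := hid a ha hIa
    have e1 : ((a + (M : ℕ) : ℝ) : ℂ) = (a : ℂ) + (M : ℂ) := by push_cast; rfl
    rw [e1] at h1
    have hΓ : ((Real.Gamma (a + (M : ℕ)) : ℝ) : ℂ) = Complex.Gamma ((a : ℂ) + (M : ℂ)) := by
      rw [← Complex.Gamma_ofReal, e1]
    rw [hΓ] at h1
    have hne : Complex.Gamma ((a : ℂ) + (M : ℂ)) ≠ 0 := by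
      refine Complex.Gamma_ne_zero_of_re_pos ?_
      simp only [Complex.add_re, Complex.ofReal_re, Complex.natCast_re]
      positivity
    change mellin Φ ((a : ℂ) + (M : ℂ)) / Complex.Gamma ((a : ℂ) + (M : ℂ)) = _
    rw [h1]
    field_simp

end

end Pool.Agent.H74T
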