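import Pool.Agent.H74T.Mel
import Pool.Agent.H74A.Light

set_option autoImplicit false
set_option linter.unusedSectionVars false
set_option linter.unusedVariables false

/-! # Orders of the thresholds on open subsets of the blow-up of an ideal -/

namespace Pool.Agent.H74T

open MvPolynomial MeasureTheory Filter Topology Metric
open Pool.Agent.Y230.AR (Test Nf Nf_nonneg continuous_Nf dvd_of_bound)
open Pool.Agent.W574.SM (IsFunctionalEq)
open Pool.Agent.H74D (Nf_ae)

/-- a lower bound near a root of small multiplicity -/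
theorem low_of_not_dvd (b : Polynomial ℂ) (s0 : ℝ) (k : ℕ)
    (h : ¬ (Polynomial.X - Polynomial.C (s0 : ℂ)) ^ (k + 1) ∣ b) :
    ∃ ε : ℝ, 0 < ε ∧ ∃ δ : ℝ, 0 < δ ∧ ∀ s : ℝ, s0 < s → s < s0 + δ →
      ε * (s - s0) ^ k ≤ ‖b.eval (s : ℂ)‖ := by
  have hb : b ≠ 0 := by
    rintro rfl
    exact h (dvd_zero _)
  obtain ⟨q, hq, hnd⟩ := Polynomial.exists_eq_pow_rootMultiplicity_mul_and_not_dvd b hb (s0 : ℂ)
  set m := b.rootMultiplicity (s0 : ℂ) with hm
  have hmk : m ≤ k := by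
    by_contra hcon
    push Not at hcon
    exact h ((pow_dvd_pow _ hcon).trans ⟨q, hq⟩)
  rw [Polynomial.dvd_iff_isRoot, Polynomial.IsRoot.def] at hnd
  have hpos : 0 < ‖q.eval (s0 : ℂ)‖ := norm_pos_iff.2 hnd
  have hc : Continuous fun s : ℝ => ‖q.eval (s : ℂ)‖ :=
    (q.continuous.comp Complex.continuous_ofReal).norm
  have h1 := (hc.tendsto s0).eventually (lt_mem_nhds (half_lt_self hpos))
  obtain ⟨δ, hδ, h2⟩ := Metric.eventually_nhds_iff.1 h1
  refine ⟨‖q.eval (s0 : ℂ)‖ / 2, by positivity, min δ 1, lt_min hδ one_pos, fun s hs hs' => ?_⟩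
  have hp : 0 < s - s0 := sub_pos.2 hs
  have hs1 : s - s0 < δ := by linarith [min_le_left δ 1]
  have hs2 : s - s0 < 1 := by linarith [min_le_right δ 1]
  have h3 := h2 (y := s) (by rw [Real.dist_eq, abs_of_pos hp]; exact hs1)
  have h4 : ‖b.eval (s : ℂ)‖ = (s - s0) ^ m * ‖q.eval (s : ℂ)‖ := by
    conv_lhs => rw [hq]
    rw [Polynomial.eval_mul, Polynomial.eval_pow, Polynomial.eval_sub, Polynomial.eval_X,
      Polynomial.eval_C, norm_mul, norm_pow, ← Complex.ofReal_sub, Complex.norm_real,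
      Real.norm_eq_abs, abs_of_pos hp]
  rw [h4, mul_comm]
  exact mul_le_mul (pow_le_pow_of_le_one hp.le hs2.le hmk) h3.le (by positivity) (by positivity)

variable {N : ℕ} {ι : Type} [Fintype ι] [DecidableEq ι]

/-- **The order of the threshold on an open subset of the blow-up.** -/
theorem rel_order (f : ι → MvPolynomial (Fin N) ℂ) (hf : ∃ j, f j ≠ 0) (b : Polynomial ℂ)
    (hb : IsFunctionalEq f b) (H : MvPolynomial ι ℂ) (M : ℕ) (hH : H.IsHomogeneous M)
    (P : Fin N → ℂ) (c₀ : ℝ) (hc₀ : 0 < c₀) (k : ℕ)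
    (hfin : ∃ (p : ℕ) (ρ : ℝ), 0 < ρ ∧ ∀ c : ℝ, 0 ≤ c → c < c₀ →
      IntegrableOn (fun x => Wt f H M x ^ p * Nf f x ^ (-c)) (closedBall P ρ))
    (hdiv : ∀ (p : ℕ) (ρ B : ℝ), 0 < ρ → ∃ᶠ c in 𝓝[<] c₀,
      B < (c₀ - c) ^ k * ∫ x in closedBall P ρ, Wt f H M x ^ p * Nf f x ^ (-c)) :
    (Polynomial.X + Polynomial.C (c₀ : ℂ)) ^ (k + 1) ∣ b := by
  classical
  obtain ⟨p₀, ρ, hρ, hfin⟩ := hfin
  have hrw : (Polynomial.X + Polynomial.C (c₀ : ℂ)) =
      Polynomial.X - Polynomial.C (((-c₀ : ℝ)) : ℂ) := by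
    push_cast
    rw [Polynomial.C_neg, sub_neg_eq_add]
  rw [hrw]
  by_contra hcon
  obtain ⟨ε, hε, δ, hδ, hlow⟩ := low_of_not_dvd b (-c₀) k hcon
  set K : Set (Fin N → ℂ) := closedBall P ρ with hK
  have hKc : IsCompact K := isCompact_closedBall _ _
  obtain ⟨k₁, hk₁⟩ := key_bound' hKc f b hb H M hH
  set p : ℕ := max k₁ p₀ with hp
  obtain ⟨CW, hCW0, hCW⟩ := Wt_bound f H M hH
  set W : (Fin N → ℂ) → ℝ := Wt f H M with hW
  have hWm : Measurable W := Wt_meas f H M
  have hW0 : ∀ x, 0 ≤ W x := Wt_nonneg f H M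
  have hNc := continuous_Nf f
  have hI : ∀ q, p₀ ≤ q → ∀ c : ℝ, 0 ≤ c → c < c₀ →
      IntegrableOn (fun x => W x ^ q * Nf f x ^ (-c)) K := by
    intro q hq c h1 h2
    have h3 := hfin c h1 h2
    have h4 : IntegrableOn (fun x => W x ^ (q - p₀) * (W x ^ p₀ * Nf f x ^ (-c))) K := by
      refine Integrable.bdd_mul (c := CW ^ (q - p₀)) h3
        (hWm.pow_const _).aestronglyMeasurable (Eventually.of_forall fun x => ?_)
      rw [Real.norm_eq_abs, abs_of_nonneg (pow_nonneg (hW0 x) _)]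
      exact pow_le_pow_left₀ (hW0 x) (hCW x) _
    refine h4.congr_fun (fun x _ => ?_) measurableSet_closedBall
    simp only
    rw [← mul_assoc, ← pow_add, Nat.sub_add_cancel hq]
  -- the test function
  set χ : ContDiffBump P := ⟨ρ / 2, ρ, by positivity, by linarith⟩ with hχ
  have hχT : Test K (fun x => ((χ x : ℝ) : ℂ)) := by
    constructor
    · exact Complex.ofRealCLM.contDiff.comp χ.contDiff
    · refine closure_minimal ?_ isClosed_closedBall
      intro v hv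
      rw [Function.mem_support] at hv
      rw [mem_closedBall]
      by_contra hcon2
      push Not at hcon2
      refine hv ?_
      rw [χ.zero_of_le_dist hcon2.le]
      simp
  have hpos : ∀ᵐ x ∂(volume.restrict K), 0 < Nf f x := ae_restrict_of_ae (Nf_ae f hf)
  obtain ⟨Cst, hC0, hC⟩ := hk₁ p (le_max_left _ _) (fun x => χ x) hχT (fun x => χ.nonneg)
  have hI1 : IntegrableOn (fun x => W x ^ p * Nf f x ^ (-max (c₀ - 1 / 2) 0)) K :=
    hI p (le_max_right _ _) _ (le_max_right _ _) (max_lt (by linarith) hc₀)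
  have hI2 : IntegrableOn (fun x => W x ^ p * Real.sqrt (Nf f x)) K := by
    have h1 : IntegrableOn (fun x => Real.sqrt (Nf f x)) K :=
      hNc.sqrt.continuousOn.integrableOn_compact hKc
    refine Integrable.bdd_mul (c := CW ^ p) h1 (hWm.pow_const _).aestronglyMeasurable
      (Eventually.of_forall fun x => ?_)
    rw [Real.norm_eq_abs, abs_of_nonneg (pow_nonneg (hW0 x) _)]
    exact pow_le_pow_left₀ (hW0 _) (hCW x) p
  set D : ℝ := (∫ x in K, W x ^ p * Nf f x ^ (-max (c₀ - 1 / 2) 0)) +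
    ∫ x in K, W x ^ p * Real.sqrt (Nf f x) with hD
  have hD0 : 0 ≤ D := by
    refine add_nonneg ?_ ?_
    · exact integral_nonneg fun x =>
        mul_nonneg (pow_nonneg (hW0 x) _) (Real.rpow_nonneg (Nf_nonneg f x) _)
    · exact integral_nonneg fun x => mul_nonneg (pow_nonneg (hW0 x) _) (Real.sqrt_nonneg _)
  have hup : ∀ a : ℝ, 0 < a → a < c₀ → ∫ x in K, W x ^ p * Nf f x ^ (1 / 2 - a) ≤ D := by
    intro a ha haa
    rw [hD, ← integral_add hI1 hI2]
    refine integral_mono_of_nonneg ?_ (hI1.add hI2) ?_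
    · exact Filter.Eventually.of_forall fun x =>
        mul_nonneg (pow_nonneg (hW0 x) _) (Real.rpow_nonneg (Nf_nonneg f x) _)
    · filter_upwards [hpos] with x hx
      have h0 := pow_nonneg (hW0 x) p
      have e1 : (0 : ℝ) ≤ W x ^ p * Nf f x ^ (-max (c₀ - 1 / 2) 0) :=
        mul_nonneg h0 (Real.rpow_nonneg hx.le _)
      have e2 : (0 : ℝ) ≤ W x ^ p * Real.sqrt (Nf f x) := mul_nonneg h0 (Real.sqrt_nonneg _)
      change W x ^ p * Nf f x ^ (1 / 2 - a) ≤
        W x ^ p * Nf f x ^ (-max (c₀ - 1 / 2) 0) + W x ^ p * Real.sqrt (Nf f x)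
      rcases le_total (Nf f x) 1 with h | h
      · have h2 : Nf f x ^ (1 / 2 - a) ≤ Nf f x ^ (-max (c₀ - 1 / 2) 0) :=
          Real.rpow_le_rpow_of_exponent_ge hx h (by
            have := le_max_left (c₀ - 1 / 2) 0
            linarith)
        have h4 := mul_le_mul_of_nonneg_left h2 h0
        linarith
      · have h2 : Nf f x ^ (1 / 2 - a) ≤ Nf f x ^ (1 / 2 : ℝ) :=
          Real.rpow_le_rpow_of_exponent_le h (by linarith)
        rw [← Real.sqrt_eq_rpow] at h2
        have h4 := mul_le_mul_of_nonneg_left h2 h0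
        linarith
  -- the contradiction
  set B : ℝ := Cst * 2 ^ c₀ * D / ε with hB
  have hf1 := hdiv (2 * p) (ρ / 2) B (by positivity)
  have hev : ∀ᶠ c in 𝓝[<] c₀, max 0 (c₀ - δ) < c ∧ c < c₀ := by
    refine Ioo_mem_nhdsLT (max_lt hc₀ (by linarith))
  obtain ⟨c, h1, h2, h3⟩ := (hf1.and_eventually hev).exists
  have hc1 : 0 < c := lt_of_le_of_lt (le_max_left _ _) h2
  have hc2 : c₀ - δ < c := lt_of_le_of_lt (le_max_right _ _) h2
  have h4 := hC c hc1 hpos (hI p (le_max_right _ _) c hc1.le h3)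
  have h5 := hlow (-c) (by linarith) (by linarith)
  have e1 : b.eval (((-c : ℝ)) : ℂ) = b.eval (-(c : ℂ)) := by
    congr 1
    push_cast
    ring
  rw [e1] at h5
  have e2 : -c - -c₀ = c₀ - c := by ring
  rw [e2] at h5
  have hnn : ∀ x, 0 ≤ W x ^ (2 * p) * Nf f x ^ (-c) := fun x =>
    mul_nonneg (pow_nonneg (hW0 x) _) (Real.rpow_nonneg (Nf_nonneg f x) _)
  have hI3 : IntegrableOn (fun x => W x ^ (2 * p) * Nf f x ^ (-c)) K :=
    hI (2 * p) (by have := le_max_right k₁ p₀; omega) c hc1.le h3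
  have h6 : ∫ x in closedBall P (ρ / 2), W x ^ (2 * p) * Nf f x ^ (-c) ≤
      ∫ x in K, W x ^ (2 * p) * Nf f x ^ (-c) * χ x := by
    have h7 : ∫ x in closedBall P (ρ / 2), W x ^ (2 * p) * Nf f x ^ (-c) =
        ∫ x in closedBall P (ρ / 2), W x ^ (2 * p) * Nf f x ^ (-c) * χ x := by
      refine setIntegral_congr_fun measurableSet_closedBall fun x hx => ?_
      change W x ^ (2 * p) * Nf f x ^ (-c) = W x ^ (2 * p) * Nf f x ^ (-c) * χ x
      rw [χ.one_of_mem_closedBall hx, mul_one]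
    rw [h7]
    refine setIntegral_mono_set ?_ (Eventually.of_forall fun x => mul_nonneg (hnn x) χ.nonneg)
      (Eventually.of_forall (closedBall_subset_closedBall (by linarith)))
    refine hI3.mono' ?_ (Eventually.of_forall fun x => ?_)
    · exact (((hWm.pow_const _).mul ((continuous_Nf f).measurable.pow_const _)).mul
        χ.continuous.measurable).aestronglyMeasurable
    · rw [norm_mul, Real.norm_eq_abs, Real.norm_eq_abs, abs_of_nonneg (hnn x),
        abs_of_nonneg χ.nonneg]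
      exact mul_le_of_le_one_right (hnn x) χ.le_one
  set J := ∫ x in closedBall P (ρ / 2), W x ^ (2 * p) * Nf f x ^ (-c) with hJ
  have hJ0 : 0 ≤ J := setIntegral_nonneg measurableSet_closedBall fun x _ => hnn x
  have hpc : 0 < c₀ - c := by linarith
  have h8 : Cst * 2 ^ c * ∫ x in K, W x ^ p * Nf f x ^ (1 / 2 - c) ≤ Cst * 2 ^ c₀ * D := by
    have h9 := hup c hc1 h3
    have h10 : (2 : ℝ) ^ c ≤ 2 ^ c₀ := Real.rpow_le_rpow_of_exponent_le (by norm_num) h3.le
    have h11 : 0 ≤ ∫ x in K, W x ^ p * Nf f x ^ (1 / 2 - c) :=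
      integral_nonneg fun x =>
        mul_nonneg (pow_nonneg (hW0 x) _) (Real.rpow_nonneg (Nf_nonneg f x) _)
    have h12 : (0 : ℝ) ≤ 2 ^ c := Real.rpow_nonneg (by norm_num) _
    gcongr
  have h9 : ε * (c₀ - c) ^ k * J ≤ Cst * 2 ^ c₀ * D := by
    calc ε * (c₀ - c) ^ k * J ≤ ‖b.eval (-(c : ℂ))‖ * J := mul_le_mul_of_nonneg_right h5 hJ0
      _ ≤ ‖b.eval (-(c : ℂ))‖ * ∫ x in K, W x ^ (2 * p) * Nf f x ^ (-c) * χ x :=
          mul_le_mul_of_nonneg_left h6 (norm_nonneg _)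
      _ ≤ _ := h4
      _ ≤ _ := h8
  have h10 : (c₀ - c) ^ k * J ≤ B := by
    rw [hB, le_div_iff₀ hε]
    linarith
  exact absurd h1 (not_lt.2 h10)

end Pool.Agent.H74T
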