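import Pool.Agent.H74T.Ext
import Pool.Agent.H74T.Gen

set_option autoImplicit false
set_option linter.unusedSectionVars false
set_option linter.unusedVariables false

/-! # Relative log canonical thresholds are roots -/

namespace Pool.Agent.H74T

open MvPolynomial MeasureTheory Filter Topology Metric
open Pool.Agent.Y230.AR (Test Nf Nf_nonneg continuous_Nf)
open Pool.Agent.W574.SM (IsFunctionalEq)
open Pool.Agent.H74D (Nf_ae)

section

variable {σ ι : Type} [Fintype σ] [DecidableEq σ] [Fintype ι] [DecidableEq ι]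

/-- **The integrals converge beyond numbers which are not roots.** -/
theorem ext_step {K : Set (σ → ℂ)} (hK : IsCompact K) (f : ι → MvPolynomial σ ℂ)
    (b : Polynomial ℂ) (H₁ : MvPolynomial ι ℂ) (M₁ : ℕ) (hH : H₁.IsHomogeneous M₁) (p : ℕ)
    (φ : (σ → ℂ) → ℝ) (hφ : Test K (fun x => (φ x : ℂ))) (hφ0 : ∀ x, 0 ≤ φ x)
    (hpos : ∀ᵐ x ∂(volume.restrict K), 0 < Nf f x) (c : ℝ) (E : ℂ → ℂ)
    (hE : ∀ z : ℂ, 0 < z.re → z.re < c + 1 / 2 → DifferentiableAt ℂ E z)
    (hE2 : ∀ a : ℝ, 0 < a →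
      IntegrableOn (fun x => Wt f H₁ M₁ x ^ (2 * p) * Nf f x ^ (-a) * ‖(φ x : ℂ)‖) K →
        E (a : ℂ) = b.eval (-(a : ℂ)) *
            ∫ x in K, ((Wt f H₁ M₁ x ^ (2 * p) * Nf f x ^ (-a) : ℝ) : ℂ) * (φ x : ℂ))
    (S : ℝ) (hS0 : 0 < S) (hSc : S < c + 1 / 2) (hne : b.eval (-(S : ℂ)) ≠ 0)
    (hS : ∀ a : ℝ, 0 < a → a < S →
      IntegrableOn (fun x => Wt f H₁ M₁ x ^ (2 * p) * Nf f x ^ (-a) * φ x) K) :
    ∃ ε : ℝ, 0 < ε ∧
      IntegrableOn (fun x => Wt f H₁ M₁ x ^ (2 * p) * Nf f x ^ (-(S + ε)) * φ x) K := by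
  set μ := (volume : Measure (σ → ℂ)).restrict K with hμ
  have hKf : IsFiniteMeasure μ := ⟨by rw [hμ, Measure.restrict_apply_univ]; exact hK.measure_lt_top⟩
  set W : (σ → ℂ) → ℝ := Wt f H₁ M₁ with hW
  have hWm : Measurable W := Wt_meas f H₁ M₁
  have hW0 : ∀ x, 0 ≤ W x := Wt_nonneg f H₁ M₁
  obtain ⟨CW, hCW0, hCW⟩ := Wt_bound f H₁ M₁ hH
  have hNc := continuous_Nf f
  have hφc : Continuous φ := by
    have h0 : φ = fun x => ((φ x : ℂ)).re := by
      funext x
      rw [Complex.ofReal_re]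
    rw [h0]
    exact Complex.continuous_re.comp hφ.1.continuous
  have hcs : HasCompactSupport (fun x => (φ x : ℂ)) :=
    hK.of_isClosed_subset (isClosed_tsupport _) hφ.2
  obtain ⟨Bφ, hBφ⟩ := hcs.exists_bound_of_continuous hφ.1.continuous
  have hBφ' : ∀ x, φ x ≤ Bφ := fun x => by
    have := hBφ x
    rw [Complex.norm_real, Real.norm_eq_abs, abs_of_nonneg (hφ0 x)] at this
    exact this
  obtain ⟨m, hm⟩ := hK.exists_bound_of_continuousOn (f := fun x => Nf f x) hNc.continuousOn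
  set CN : ℝ := max m 1 with hCN
  have hCN1 : 1 ≤ CN := le_max_right _ _
  have hCN0 : 0 < CN := by linarith
  have hNle : ∀ x ∈ K, Nf f x ≤ CN := fun x hx => by
    have := hm x hx
    rw [Real.norm_eq_abs] at this
    exact ((le_abs_self _).trans this).trans (le_max_left _ _)
  set X : (σ → ℂ) → ℝ := fun x => Real.log (CN / Nf f x) with hX
  have hXm : Measurable X := Real.measurable_log.comp (measurable_const.div hNc.measurable)
  have hXexp : ∀ (a : ℝ) (x : σ → ℂ), 0 < Nf f x →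
      Real.exp (a * X x) = CN ^ a * Nf f x ^ (-a) := by
    intro a x hx
    rw [hX, mul_comm, ← Real.rpow_def_of_pos (div_pos hCN0 hx), Real.div_rpow hCN0.le hx.le,
      Real.rpow_neg hx.le]
    rfl
  set dens : (σ → ℂ) → ENNReal := fun x => ENNReal.ofReal (W x ^ (2 * p) * φ x) with hdens
  have hwm : Measurable fun x => W x ^ (2 * p) * φ x := (hWm.pow_const _).mul hφc.measurable
  have hw0 : ∀ x, 0 ≤ W x ^ (2 * p) * φ x := fun x =>
    mul_nonneg (pow_nonneg (hW0 x) _) (hφ0 x)
  have hdm : Measurable dens := hwm.ennreal_ofReal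
  have hdt : ∀ᵐ x ∂μ, dens x < ⊤ := Eventually.of_forall fun x => ENNReal.ofReal_lt_top
  have hdr : ∀ x, (dens x).toReal = W x ^ (2 * p) * φ x := fun x => ENNReal.toReal_ofReal (hw0 x)
  set μ' : Measure (σ → ℂ) := μ.withDensity dens with hμ'
  have hint : ∀ a : ℝ, Integrable (fun x => Real.exp (a * X x)) μ' ↔
      Integrable (fun x => W x ^ (2 * p) * Nf f x ^ (-a) * φ x) μ := by
    intro a
    rw [hμ', integrable_withDensity_iff hdm hdt]
    have h1 : (fun x => Real.exp (a * X x) * (dens x).toReal) =ᵐ[μ]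
        fun x => CN ^ a * (W x ^ (2 * p) * Nf f x ^ (-a) * φ x) := by
      filter_upwards [hpos] with x hx
      rw [hdr x, hXexp a x hx]
      ring
    rw [integrable_congr h1]
    have hCa : CN ^ a ≠ 0 := (Real.rpow_pos_of_pos hCN0 a).ne'
    exact integrable_const_mul_iff (isUnit_iff_ne_zero.2 hCa) _
  have hval : ∀ a : ℝ, ∫ x, Real.exp (a * X x) ∂μ' =
      CN ^ a * ∫ x, W x ^ (2 * p) * Nf f x ^ (-a) * φ x ∂μ := by
    intro a
    rw [hμ', integral_withDensity_eq_integral_toReal_smul hdm hdt, ← integral_const_mul]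
    refine integral_congr_ae ?_
    filter_upwards [hpos] with x hx
    rw [hdr x, hXexp a x hx, smul_eq_mul]
    ring
  have hXae : ∀ᵐ x ∂μ', 0 ≤ X x := by
    refine (withDensity_absolutelyContinuous μ dens).ae_le ?_
    filter_upwards [hpos, ae_restrict_mem hK.measurableSet] with x hx hxK
    exact Real.log_nonneg ((one_le_div hx).2 (hNle x hxK))
  -- integrability to the left of `S`
  have hleft : ∀ a : ℝ, a < S → Integrable (fun x => Real.exp (a * X x)) μ' := by
    intro a ha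
    rcases lt_or_ge 0 a with h | h
    · exact (hint a).2 (hS a h ha)
    · have h1 : Integrable (fun x => Real.exp ((0 : ℝ) * X x)) μ' := by
        rw [hint 0]
        have h2 : Integrable (fun x => W x ^ (2 * p) * φ x) μ := by
          have h3 : Integrable (fun _ : σ → ℂ => (1 : ℝ)) μ := integrable_const _
          have h4 := Integrable.bdd_mul (c := CW ^ (2 * p) * Bφ) h3 hwm.aestronglyMeasurable
            (Eventually.of_forall fun x => by
              rw [Real.norm_eq_abs, abs_of_nonneg (hw0 x)]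
              exact mul_le_mul (pow_le_pow_left₀ (hW0 x) (hCW x) _) (hBφ' x) (hφ0 x)
                (pow_nonneg hCW0 _))
          simpa using h4
        refine h2.congr (Eventually.of_forall fun x => ?_)
        simp
      refine h1.mono' (Real.measurable_exp.comp
        (measurable_const.mul hXm)).aestronglyMeasurable ?_
      filter_upwards [hXae] with x hx
      rw [Real.norm_eq_abs, abs_of_pos (Real.exp_pos _)]
      exact Real.exp_le_exp.2 (mul_le_mul_of_nonneg_right h hx)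
  -- the analytic function
  have hopen : IsOpen {z : ℂ | b.eval (-z) ≠ 0 ∧ 0 < z.re ∧ z.re < c + 1 / 2} := by
    refine IsOpen.inter ?_ (IsOpen.inter ?_ ?_)
    · exact isOpen_ne_fun (b.continuous.comp continuous_neg) continuous_const
    · exact isOpen_lt continuous_const Complex.continuous_re
    · exact isOpen_lt Complex.continuous_re continuous_const
  obtain ⟨r, hr, hball⟩ := Metric.isOpen_iff.1 hopen (S : ℂ)
    ⟨hne, by rw [Complex.ofReal_re]; exact hS0, by rw [Complex.ofReal_re]; exact hSc⟩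
  have hCNc : (CN : ℂ) ≠ 0 := Complex.ofReal_ne_zero.2 hCN0.ne'
  obtain ⟨ε, hε, hI⟩ := landau hXm hXae S r hr hleft
    (fun z => (CN : ℂ) ^ z * E z / b.eval (-z)) (by
      intro z hz
      obtain ⟨h1, h2, h3⟩ := hball hz
      have d1 : DifferentiableAt ℂ (fun z : ℂ => (CN : ℂ) ^ z) z :=
        differentiableAt_id.const_cpow (Or.inl hCNc)
      have d2 := hE z h2 h3
      have d3 : DifferentiableAt ℂ (fun z : ℂ => b.eval (-z)) z :=
        b.differentiable.differentiableAt.comp z (differentiableAt_id.neg)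
      exact ((d1.mul d2).div d3 h1).differentiableWithinAt)
    (by
      intro a ha1 ha2
      have hmem : (a : ℂ) ∈ ball (S : ℂ) r := by
        rw [mem_ball, Complex.dist_eq, ← Complex.ofReal_sub, Complex.norm_real, Real.norm_eq_abs,
          abs_of_neg (by linarith)]
        linarith
      obtain ⟨h1, h2, h3⟩ := hball hmem
      rw [Complex.ofReal_re] at h2
      have h4 := hE2 a h2 (by
        refine (hS a h2 ha2).congr (Eventually.of_forall fun x => ?_)
        simp only
        rw [Complex.norm_real, Real.norm_eq_abs, abs_of_nonneg (hφ0 x)])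
      change (CN : ℂ) ^ (a : ℂ) * E a / b.eval (-(a : ℂ)) = _
      rw [h4, hval a]
      have h5 : ∫ x in K, ((W x ^ (2 * p) * Nf f x ^ (-a) : ℝ) : ℂ) * (φ x : ℂ) =
          ((∫ x, W x ^ (2 * p) * Nf f x ^ (-a) * φ x ∂μ : ℝ) : ℂ) := by
        rw [← integral_complex_ofReal]
        refine integral_congr_ae (Eventually.of_forall fun x => ?_)
        push_cast
        rfl
      rw [h5, mul_div_assoc, mul_div_cancel_left₀ _ h1, Complex.ofReal_mul,
        Complex.ofReal_cpow hCN0.le])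
  exact ⟨ε, hε, (hint _).1 hI⟩

end

section

variable {N : ℕ} {ι : Type} [Fintype ι] [DecidableEq ι]

/-- **Integrability up to the first root.** -/
theorem reach (f : ι → MvPolynomial (Fin N) ℂ) (hf : ∃ j, f j ≠ 0) (b : Polynomial ℂ)
    (hb : IsFunctionalEq f b) (H : MvPolynomial ι ℂ) (M : ℕ) (hH : H.IsHomogeneous M)
    (P : Fin N → ℂ) (c : ℝ) (hc : 0 < c) (p₁ : ℕ) (ρ : ℝ) (hρ : 0 < ρ)
    (hI : IntegrableOn (fun x => Wt f H M x ^ p₁ * Nf f x ^ (-c)) (closedBall P ρ)) :
    ∃ p : ℕ, ∀ S : ℝ, S < c + 1 / 2 → (∀ a : ℝ, c ≤ a → a < S → b.eval (-(a : ℂ)) ≠ 0) →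
      ∀ a : ℝ, 0 ≤ a → a < S →
        IntegrableOn (fun x => Wt f H M x ^ p * Nf f x ^ (-a)) (closedBall P (ρ / 2)) := by
  classical
  set K : Set (Fin N → ℂ) := closedBall P ρ with hK
  have hKc : IsCompact K := isCompact_closedBall _ _
  obtain ⟨k, hk⟩ := rel_cont hKc f b hb H M hH
  set p : ℕ := max k p₁ with hp
  obtain ⟨CW, hCW0, hCW⟩ := Wt_bound f H M hH
  set W : (Fin N → ℂ) → ℝ := Wt f H M with hW
  have hWm : Measurable W := Wt_meas f H M
  have hW0 : ∀ x, 0 ≤ W x := Wt_nonneg f H M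
  have hNc := continuous_Nf f
  have hpos : ∀ᵐ x ∂(volume.restrict K), 0 < Nf f x := ae_restrict_of_ae (Nf_ae f hf)
  have hraise : ∀ q, p₁ ≤ q → IntegrableOn (fun x => W x ^ q * Nf f x ^ (-c)) K := by
    intro q hq
    have h4 : IntegrableOn (fun x => W x ^ (q - p₁) * (W x ^ p₁ * Nf f x ^ (-c))) K := by
      refine Integrable.bdd_mul (c := CW ^ (q - p₁)) hI
        (hWm.pow_const _).aestronglyMeasurable (Eventually.of_forall fun x => ?_)
      rw [Real.norm_eq_abs, abs_of_nonneg (pow_nonneg (hW0 x) _)]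
      exact pow_le_pow_left₀ (hW0 x) (hCW x) _
    refine h4.congr_fun (fun x _ => ?_) measurableSet_closedBall
    simp only
    rw [← mul_assoc, ← pow_add, Nat.sub_add_cancel hq]
  -- the test function
  set χ : ContDiffBump P := ⟨ρ / 2, ρ, by positivity, by linarith⟩ with hχ
  have hχT : Test K (fun x => ((χ x : ℝ) : ℂ)) := by
    constructor
    · exact Complex.ofRealCLM.contDiff.comp χ.contDiff
    · refine closure_minimal ?_ isClosed_closedBall
      intro v hv
      rw [Function.mem_support] at hv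
      rw [mem_closedBall]
      by_contra hcon2
      push Not at hcon2
      refine hv ?_
      rw [χ.zero_of_le_dist hcon2.le]
      simp
  obtain ⟨E, hE1, hE2⟩ := hk p (le_max_left _ _) (fun x => ((χ x : ℝ) : ℂ)) hχT hpos c hc.le
    (hraise p (le_max_right _ _))
  -- the set of the exponents
  have hmono : ∀ a a' : ℝ, a' ≤ a → IntegrableOn (fun x => W x ^ (2 * p) * Nf f x ^ (-a) * χ x) K →
      IntegrableOn (fun x => W x ^ (2 * p) * Nf f x ^ (-a') * χ x) K := by
    intro a a' h1 h2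
    obtain ⟨m, hm⟩ := hKc.exists_bound_of_continuousOn (f := fun x => Nf f x ^ (a - a'))
      ((hNc.rpow_const fun x => Or.inr (by linarith)).continuousOn)
    have h3 : IntegrableOn (fun x => Nf f x ^ (a - a') * (W x ^ (2 * p) * Nf f x ^ (-a) * χ x)) K := by
      refine Integrable.bdd_mul (c := m) h2
        (hNc.measurable.pow_const _).aestronglyMeasurable ?_
      filter_upwards [ae_restrict_mem measurableSet_closedBall] with x hx
      exact hm x hx
    refine h3.congr ?_
    filter_upwards [hpos] with x hx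
    have h4 : Nf f x ^ (-a') = Nf f x ^ (a - a') * Nf f x ^ (-a) := by
      rw [← Real.rpow_add hx]
      congr 1
      ring
    rw [h4]
    ring
  have hc1 : IntegrableOn (fun x => W x ^ (2 * p) * Nf f x ^ (-c) * χ x) K := by
    have h1 := hraise (2 * p) (by have := le_max_right k p₁; omega)
    have h2 : IntegrableOn (fun x => χ x * (W x ^ (2 * p) * Nf f x ^ (-c))) K := by
      refine Integrable.bdd_mul (c := 1) h1 χ.continuous.measurable.aestronglyMeasurable
        (Eventually.of_forall fun x => ?_)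
      rw [Real.norm_eq_abs, abs_of_nonneg χ.nonneg]
      exact χ.le_one
    refine h2.congr (Eventually.of_forall fun x => ?_)
    simp only
    ring
  refine ⟨2 * p, fun S hS hroot a ha0 haS => ?_⟩
  -- all exponents below `S`
  have hall : IntegrableOn (fun x => W x ^ (2 * p) * Nf f x ^ (-a) * χ x) K := by
    by_contra hcon
    set A : Set ℝ := {t | IntegrableOn (fun x => W x ^ (2 * p) * Nf f x ^ (-t) * χ x) K} with hA
    have hAne : A.Nonempty := ⟨c, hc1⟩
    have hAb : ∀ t ∈ A, t < a := by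
      intro t ht
      by_contra h
      push Not at h
      exact hcon (hmono t a h ht)
    have hAbdd : BddAbove A := ⟨a, fun t ht => (hAb t ht).le⟩
    set s : ℝ := sSup A with hs
    have hcs : c ≤ s := le_csSup hAbdd hc1
    have hsa : s ≤ a := csSup_le hAne fun t ht => (hAb t ht).le
    have hbelow : ∀ t : ℝ, t < s → t ∈ A := by
      intro t ht
      obtain ⟨u, hu1, hu2⟩ := exists_lt_of_lt_csSup hAne ht
      exact hmono u t hu2.le hu1
    obtain ⟨ε, hε, h5⟩ := ext_step hKc f b H M hH p (fun x => χ x) hχT (fun x => χ.nonneg) hpos c E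
      hE1 hE2 s (by linarith) (by linarith) (hroot s hcs (by linarith)) (fun t ht1 ht2 => hbelow t ht2)
    have h6 : s + ε ∈ A := h5
    have h7 := le_csSup hAbdd h6
    linarith
  have h1 : IntegrableOn (fun x => W x ^ (2 * p) * Nf f x ^ (-a) * χ x) (closedBall P (ρ / 2)) :=
    hall.mono_set (closedBall_subset_closedBall (by linarith))
  refine h1.congr_fun (fun x hx => ?_) measurableSet_closedBall
  change W x ^ (2 * p) * Nf f x ^ (-a) * χ x = W x ^ (2 * p) * Nf f x ^ (-a)
  rw [χ.one_of_mem_closedBall hx, mul_one]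

/-- **Relative log canonical thresholds are roots.** -/
theorem relLct_root (f : ι → MvPolynomial (Fin N) ℂ) (hf : ∃ j, f j ≠ 0) (b : Polynomial ℂ)
    (hb : IsFunctionalEq f b) (H : MvPolynomial ι ℂ) (M : ℕ) (hH : H.IsHomogeneous M)
    (P : Fin N → ℂ) (c₀ : ℝ) (hc₀ : 0 < c₀)
    (hfin : ∀ c : ℝ, 0 ≤ c → c < c₀ → ∃ (p : ℕ) (ρ : ℝ), 0 < ρ ∧
      IntegrableOn (fun x => Wt f H M x ^ p * Nf f x ^ (-c)) (closedBall P ρ))
    (hinf : ∀ c : ℝ, c₀ < c → ∀ (p : ℕ) (ρ : ℝ), 0 < ρ →
      ¬ IntegrableOn (fun x => Wt f H M x ^ p * Nf f x ^ (-c)) (closedBall P ρ)) :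
    b.eval (-(c₀ : ℂ)) = 0 ∧ ∀ k : ℕ,
      (∀ (p : ℕ) (ρ B : ℝ), 0 < ρ → ∃ᶠ c in 𝓝[<] c₀,
        B < (c₀ - c) ^ k * ∫ x in closedBall P ρ, Wt f H M x ^ p * Nf f x ^ (-c)) →
      (Polynomial.X + Polynomial.C (c₀ : ℂ)) ^ (k + 1) ∣ b := by
  classical
  by_cases hb0 : b = 0
  · subst hb0
    exact ⟨by simp, fun k _ => dvd_zero _⟩
  -- an interval without other roots
  obtain ⟨δ, hδ, hroots⟩ : ∃ δ : ℝ, 0 < δ ∧ ∀ a : ℝ, |a - c₀| < δ → a ≠ c₀ →
      b.eval (-(a : ℂ)) ≠ 0 := by
    have h1 : (b.roots.toFinset : Set ℂ).Finite := b.roots.toFinset.finite_toSet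
    have h2 : {a : ℝ | b.eval (-(a : ℂ)) = 0}.Finite := by
      refine Set.Finite.of_finite_image (f := fun a : ℝ => -(a : ℂ)) (h1.subset ?_) ?_
      · rintro _ ⟨a, ha, rfl⟩
        rw [Finset.mem_coe, Multiset.mem_toFinset, Polynomial.mem_roots hb0]
        exact ha
      · intro a _ a' _ h
        exact Complex.ofReal_injective (neg_injective h)
    have h3 : ({a : ℝ | b.eval (-(a : ℂ)) = 0} \ {c₀}).Finite := h2.subset Set.diff_subset
    have h4 : ({a : ℝ | b.eval (-(a : ℂ)) = 0} \ {c₀})ᶜ ∈ 𝓝 c₀ :=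
      h3.isClosed.isOpen_compl.mem_nhds (by simp)
    obtain ⟨δ, hδ, h5⟩ := Metric.mem_nhds_iff.1 h4
    refine ⟨δ, hδ, fun a ha hne h0 => ?_⟩
    exact h5 (show a ∈ ball c₀ δ by rw [mem_ball, Real.dist_eq]; exact ha) ⟨h0, hne⟩
  set c₁ : ℝ := max (c₀ / 2) (c₀ - min (δ / 2) (1 / 4)) with hc₁
  have hc₁0 : 0 < c₁ := lt_of_lt_of_le (by positivity) (le_max_left _ _)
  have hc₁c : c₁ < c₀ := by
    refine max_lt (by linarith) ?_
    have : 0 < min (δ / 2) (1 / 4) := lt_min (by positivity) (by norm_num)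
    linarith
  have hc₁δ : c₀ - c₁ ≤ δ / 2 := by
    have h1 := le_max_right (c₀ / 2) (c₀ - min (δ / 2) (1 / 4))
    have h2 := min_le_left (δ / 2) (1 / 4 : ℝ)
    rw [← hc₁] at h1
    linarith
  have hc₁4 : c₀ - c₁ ≤ 1 / 4 := by
    have h1 := le_max_right (c₀ / 2) (c₀ - min (δ / 2) (1 / 4))
    have h2 := min_le_right (δ / 2) (1 / 4 : ℝ)
    rw [← hc₁] at h1
    linarith
  obtain ⟨p₁, ρ, hρ, hI⟩ := hfin c₁ hc₁0.le hc₁c
  obtain ⟨p, hp⟩ := reach f hf b hb H M hH P c₁ hc₁0 p₁ ρ hρ hI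
  constructor
  · by_contra hne
    set e : ℝ := min (δ / 2) (1 / 8) with he
    have he0 : 0 < e := lt_min (by positivity) (by norm_num)
    have he1 : e ≤ δ / 2 := min_le_left _ _
    have he2 : e ≤ 1 / 8 := min_le_right _ _
    refine hinf (c₀ + e / 2) (by linarith) p (ρ / 2) (by positivity) ?_
    refine hp (c₀ + e) (by linarith) (fun a ha1 ha2 => ?_) _ (by linarith) (by linarith)
    by_cases h : a = c₀
    · rw [h]
      exact hne
    · refine hroots a ?_ h
      rw [abs_lt]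
      constructor <;> linarith
  · intro k hdiv
    refine rel_order f hf b hb H M hH P c₀ hc₀ k ⟨p, ρ / 2, by positivity, fun c hc0 hc => ?_⟩ hdiv
    refine hp c₀ (by linarith) (fun a ha1 ha2 => ?_) c hc0 hc
    refine hroots a ?_ ha2.ne
    rw [abs_lt]
    constructor <;> linarith

end

end Pool.Agent.H74T
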