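import Pool.Agent.H74T.Ext
import Pool.Agent.H74T.MelG
import Pool.Agent.H74T.Sup

set_option autoImplicit false
set_option linter.unusedSectionVars false
set_option linter.unusedVariables false

/-! # Analytic continuation, with an antiholomorphic factor -/

namespace Pool.Agent.H74T

open MvPolynomial MeasureTheory Filter Topology Metric
open Pool.Agent.Y230.AR (Test Nf Nf_nonneg continuous_Nf)
open Pool.Agent.W574.SM (IsFunctionalEq)
open Pool.Agent.H74D (Nf_ae)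

section

variable {σ ι : Type} [Fintype σ] [DecidableEq σ] [Fintype ι] [DecidableEq ι]

/-- **The Mellin transform is analytic in a larger strip.** -/
theorem mellin_diffG {K : Set (σ → ℂ)} (hK : IsCompact K) (f : ι → MvPolynomial σ ℂ)
    (H₁ : MvPolynomial ι ℂ) (M₁ : ℕ) (hH : H₁.IsHomogeneous M₁) (p : ℕ)
    (g₀ : MvPolynomial σ ℂ)
    (hpos : ∀ᵐ x ∂(volume.restrict K), 0 < Nf f x) (Φ : ℝ → ℂ) (G : ℝ) (hG0 : 0 ≤ G)
    (hc : ContinuousOn Φ (Set.Ioi 0))
    (hb : ∀ u : ℝ, 0 ≤ u → ‖Φ u‖ ≤ G * ∫ x in K, Wt f H₁ M₁ x ^ p *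
        Real.sqrt (Nf f x) ^ (2 * (M₁ * p) + 1) * Real.exp (-(u * Nf f x) / 2) * ‖eval x g₀‖) (c : ℝ)
    (hc0 : 0 ≤ c)
    (hI : IntegrableOn (fun x => Wt f H₁ M₁ x ^ p * Nf f x ^ (-c) * ‖eval x g₀‖) K) (s : ℂ)
    (hs : 0 < s.re) (hs' : s.re < c + 1 / 2 + (M₁ * p : ℕ)) : DifferentiableAt ℂ (mellin Φ) s := by
  set M : ℕ := M₁ * p with hM
  set W : (σ → ℂ) → ℝ := Wt f H₁ M₁ with hW
  have hWm : Measurable W := Wt_meas f H₁ M₁
  have hW0 : ∀ x, 0 ≤ W x := Wt_nonneg f H₁ M₁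
  obtain ⟨CW, hCW0, hCW⟩ := Wt_bound f H₁ M₁ hH
  have hNc := continuous_Nf f
  set m : ℝ := c + 1 / 2 + (M : ℝ) with hm
  have hm0 : 0 ≤ m := by positivity
  obtain ⟨C, hC0, hC⟩ := rpow_exp_bound m hm0
  refine mellin_differentiableAt_of_isBigO_rpow (a := m) (b := 0)
    (hc.locallyIntegrableOn measurableSet_Ioi) ?_ hs' ?_ hs
  · -- at infinity
    set J : ℝ := ∫ x in K, W x ^ p * Nf f x ^ (-c) * ‖eval x g₀‖ with hJ
    have hJ0 : 0 ≤ J := integral_nonneg fun x =>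
      mul_nonneg (mul_nonneg (pow_nonneg (hW0 x) _) (Real.rpow_nonneg (Nf_nonneg f x) _))
        (norm_nonneg _)
    refine Asymptotics.IsBigO.of_bound (G * (C * J)) ?_
    filter_upwards [eventually_gt_atTop 0] with u hu
    rw [Real.norm_eq_abs, abs_of_nonneg (Real.rpow_nonneg hu.le _)]
    refine (hb u hu.le).trans ?_
    rw [mul_assoc]
    refine mul_le_mul_of_nonneg_left ?_ hG0
    have h1 : ∫ x in K, W x ^ p * Real.sqrt (Nf f x) ^ (2 * M + 1) *
        Real.exp (-(u * Nf f x) / 2) * ‖eval x g₀‖ ≤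
        ∫ x in K, C * u ^ (-m) * (W x ^ p * Nf f x ^ (-c) * ‖eval x g₀‖) := by
      refine integral_mono_of_nonneg ?_ (hI.const_mul _) ?_
      · exact Eventually.of_forall fun x => mul_nonneg (mul_nonneg (mul_nonneg
          (pow_nonneg (hW0 x) _) (pow_nonneg (Real.sqrt_nonneg _) _)) (Real.exp_pos _).le)
          (norm_nonneg _)
      · filter_upwards [hpos] with x hx
        have h2 : Real.sqrt (Nf f x) ^ (2 * M + 1) = Nf f x ^ ((M : ℝ) + 1 / 2) := by
          rw [pow_succ, pow_mul, Real.sq_sqrt hx.le, Real.rpow_add hx, Real.rpow_natCast,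
            ← Real.sqrt_eq_rpow]
        have h3 : Nf f x ^ ((M : ℝ) + 1 / 2) = Nf f x ^ (-c) * (u ^ (-m) * (u * Nf f x) ^ m) := by
          rw [Real.mul_rpow hu.le hx.le, ← mul_assoc (u ^ (-m)), ← Real.rpow_add hu, neg_add_cancel,
            Real.rpow_zero, one_mul, ← Real.rpow_add hx, hm]
          congr 1
          ring
        have h4 := hC (u * Nf f x) (by positivity)
        have h5 : 0 ≤ W x ^ p := pow_nonneg (hW0 x) _
        have h6 : 0 ≤ Nf f x ^ (-c) := Real.rpow_nonneg hx.le _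
        have h7 : 0 ≤ u ^ (-m) := Real.rpow_nonneg hu.le _
        have h8 : 0 ≤ ‖eval x g₀‖ := norm_nonneg _
        change W x ^ p * Real.sqrt (Nf f x) ^ (2 * M + 1) * Real.exp (-(u * Nf f x) / 2) *
          ‖eval x g₀‖ ≤ C * u ^ (-m) * (W x ^ p * Nf f x ^ (-c) * ‖eval x g₀‖)
        rw [h2, h3]
        calc W x ^ p * (Nf f x ^ (-c) * (u ^ (-m) * (u * Nf f x) ^ m)) *
              Real.exp (-(u * Nf f x) / 2) * ‖eval x g₀‖ =
              (W x ^ p * Nf f x ^ (-c) * u ^ (-m) * ‖eval x g₀‖) * ((u * Nf f x) ^ m *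
                Real.exp (-(u * Nf f x) / 2)) := by ring
          _ ≤ (W x ^ p * Nf f x ^ (-c) * u ^ (-m) * ‖eval x g₀‖) * C :=
              mul_le_mul_of_nonneg_left h4 (by positivity)
          _ = _ := by ring
    rw [integral_const_mul] at h1
    calc _ ≤ _ := h1
      _ = C * J * u ^ (-m) := by ring
  · -- at zero
    set J : ℝ := ∫ x in K, W x ^ p * Real.sqrt (Nf f x) ^ (2 * M + 1) * ‖eval x g₀‖ with hJ
    refine Asymptotics.IsBigO.of_bound (G * J) ?_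
    filter_upwards [self_mem_nhdsWithin] with u hu
    have hu0 : (0 : ℝ) < u := hu
    rw [neg_zero, Real.rpow_zero, norm_one, mul_one]
    refine (hb u hu0.le).trans (mul_le_mul_of_nonneg_left ?_ hG0)
    have h1 : Integrable (fun x => W x ^ p * Real.sqrt (Nf f x) ^ (2 * M + 1) * ‖eval x g₀‖)
        (volume.restrict K) := by
      have h2 : Integrable (fun x => Real.sqrt (Nf f x) ^ (2 * M + 1) * ‖eval x g₀‖)
          (volume.restrict K) :=
        ((hNc.sqrt.pow _).mul (Pool.Agent.Y230.AR.continuous_ev g₀).norm).continuousOn.integrableOn_compact hK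
      refine (Integrable.bdd_mul (c := CW ^ p) h2 (hWm.pow_const p).aestronglyMeasurable
        (Eventually.of_forall fun x => by
          rw [Real.norm_eq_abs, abs_of_nonneg (pow_nonneg (hW0 x) p)]
          exact pow_le_pow_left₀ (hW0 x) (hCW x) p)).congr (Eventually.of_forall fun x => ?_)
      simp only
      ring
    refine integral_mono_of_nonneg ?_ h1 ?_
    · exact Eventually.of_forall fun x => mul_nonneg (mul_nonneg (mul_nonneg
        (pow_nonneg (hW0 x) _) (pow_nonneg (Real.sqrt_nonneg _) _)) (Real.exp_pos _).le)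
        (norm_nonneg _)
    · refine Eventually.of_forall fun x => ?_
      have h3 : 0 ≤ W x ^ p * Real.sqrt (Nf f x) ^ (2 * M + 1) :=
        mul_nonneg (pow_nonneg (hW0 x) _) (pow_nonneg (Real.sqrt_nonneg _) _)
      refine mul_le_mul_of_nonneg_right ?_ (norm_nonneg _)
      refine mul_le_of_le_one_right h3 (Real.exp_le_one_iff.2 ?_)
      have := mul_nonneg hu0.le (Nf_nonneg f x)
      linarith

/-- **Extension of the relative zeta functions.** -/
theorem rel_contG {K : Set (σ → ℂ)} (hK : IsCompact K) (f : ι → MvPolynomial σ ℂ)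
    (b : Polynomial ℂ) (h₀ : MvPolynomial σ ℂ) (hb : Pool.Agent.W574.LM.IsLocEq h₀ f b)
    (H₁ : MvPolynomial ι ℂ) (M₁ : ℕ) (hH : H₁.IsHomogeneous M₁) : ∃ k : ℕ, ∀ p, k ≤ p → ∀ (g₀ : MvPolynomial σ ℂ)
    (φ₁ : (σ → ℂ) → ℂ) (_ : Test K φ₁) (φ : (σ → ℂ) → ℂ)
    (_ : φ = fun x => (starRingEnd ℂ) (eval x g₀) * (eval x h₀ * φ₁ x))
    (_ : ∀ᵐ x ∂(volume.restrict K), 0 < Nf f x) (c : ℝ) (_ : 0 ≤ c)
    (_ : IntegrableOn (fun x => Wt f H₁ M₁ x ^ p * Nf f x ^ (-c) * ‖eval x g₀‖) K),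
    ∃ E : ℂ → ℂ, (∀ z : ℂ, 0 < z.re → z.re < c + 1 / 2 → DifferentiableAt ℂ E z) ∧
      ∀ a : ℝ, 0 < a → IntegrableOn (fun x => Wt f H₁ M₁ x ^ (2 * p) * Nf f x ^ (-a) * ‖φ x‖) K →
        E (a : ℂ) = b.eval (-(a : ℂ)) *
            ∫ x in K, ((Wt f H₁ M₁ x ^ (2 * p) * Nf f x ^ (-a) : ℝ) : ℂ) * φ x := by
  obtain ⟨k, hk⟩ := key_mellinG hK f b h₀ hb H₁ M₁ hH
  refine ⟨k, fun p hp g₀ φ₁ hφ φ hφe hpos c hc0 hI => ?_⟩
  obtain ⟨Φ, G, hG0, hΦc, hΦb, hid⟩ := hk p hp g₀ φ₁ hφ φ hφe hpos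
  set M : ℕ := M₁ * p with hM
  refine ⟨fun z => mellin Φ (z + (M : ℂ)) / Complex.Gamma (z + (M : ℂ)), fun z hz1 hz2 => ?_,
    fun a ha hIa => ?_⟩
  · have hre : (z + (M : ℂ)).re = z.re + M := by simp
    have hre0 : 0 < (z + (M : ℂ)).re := by
      rw [hre]
      positivity
    have h1 : DifferentiableAt ℂ (mellin Φ) (z + (M : ℂ)) :=
      mellin_diffG hK f H₁ M₁ hH p g₀ hpos Φ G hG0 hΦc hΦb c hc0 hI _ hre0 (by rw [hre]; linarith)
    have h2 : DifferentiableAt ℂ Complex.Gamma (z + (M : ℂ)) := by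
      refine Complex.differentiableAt_Gamma _ fun n hn => ?_
      have := congrArg Complex.re hn
      rw [Complex.neg_re, Complex.natCast_re] at this
      rw [this] at hre0
      have hn0 : (0 : ℝ) ≤ n := Nat.cast_nonneg n
      linarith
    have hadd : DifferentiableAt ℂ (fun z : ℂ => z + (M : ℂ)) z := by fun_prop
    have h3 : DifferentiableAt ℂ ((mellin Φ) ∘ fun z : ℂ => z + (M : ℂ)) z :=
      DifferentiableAt.comp z h1 hadd
    have h4 : DifferentiableAt ℂ (Complex.Gamma ∘ fun z : ℂ => z + (M : ℂ)) z :=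
      DifferentiableAt.comp z h2 hadd
    exact DifferentiableAt.div h3 h4 (Complex.Gamma_ne_zero_of_re_pos hre0)
  · have h1 := hid a ha hIa
    have e1 : ((a + (M : ℕ) : ℝ) : ℂ) = (a : ℂ) + (M : ℂ) := by push_cast; rfl
    rw [e1] at h1
    have hΓ : ((Real.Gamma (a + (M : ℕ)) : ℝ) : ℂ) = Complex.Gamma ((a : ℂ) + (M : ℂ)) := by
      rw [← Complex.Gamma_ofReal, e1]
    rw [hΓ] at h1
    have hne : Complex.Gamma ((a : ℂ) + (M : ℂ)) ≠ 0 := by
      refine Complex.Gamma_ne_zero_of_re_pos ?_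
      simp only [Complex.add_re, Complex.ofReal_re, Complex.natCast_re]
      positivity
    change mellin Φ ((a : ℂ) + (M : ℂ)) / Complex.Gamma ((a : ℂ) + (M : ℂ)) = _
    rw [h1]
    field_simp

end

end Pool.Agent.H74T
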