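import Pool.Agent.N127.TW.Cone

set_option autoImplicit false

/-! # Thresholds of an ideal on open subsets of its blow-up, and germs of ideals: definitions -/

namespace Pool.Agent.H74T

open MvPolynomial MeasureTheory Pool.Agent.N103.V
open scoped Topology
open Pool.Agent.W574.SM (fac LocalZeta)
open Pool.Agent.Y229.RE (trans)

/-! ## Thresholds -/

/-- The function `w ^ p |f| ^ (-2 c) |g| ^ 2` of `x`, where `w = |H(f)| / |f| ^ M` and
`|f| ^ 2 = ∑_j |f_j(x)| ^ 2`, for polynomials `f = (f_1, ..., f_r)` and `g` in `N` variables and a form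
`H` of degree `M` in `r` variables. -/
noncomputable def relFun {N r : ℕ} (f : Fin r → MvPolynomial (Fin N) ℂ) (H : MvPolynomial (Fin r) ℂ)
    (M p : ℕ) (g : MvPolynomial (Fin N) ℂ) (c : ℝ) (x : Fin N → ℂ) : ℝ :=
  (‖eval x (aeval f H)‖ / √(∑ j, ‖eval x (f j)‖ ^ 2) ^ M) ^ p *
    (∑ j, ‖eval x (f j)‖ ^ 2) ^ (-c) * ‖eval x g‖ ^ 2

/-- The number `c₀` is the *threshold* of `H` and `g` at the point `P`, that is, the supremum of the
numbers `c` such that `w ^ p |f| ^ (-2 c) |g| ^ 2` is integrable near `P` for some `p` (see `relFun`).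

The meaning: let `Y → ℂ ^ N` be a log resolution of the product of the ideals `I = (f_j)`, `(g)` and
`(H(f))`, with the divisors `E_i`, and let `a_i = ord I`, `ν_i = 1 + ord K` along `E_i`. The function `w`
is bounded, and it vanishes on those divisors `E_i` whose image in the blow-up of `I`, a subvariety of
`ℂ ^ N × ℙ ^ (r - 1)`, is contained in the hypersurface `H = 0`. So `c₀` is the minimum of the numbers
`(ν_i + ord g) / a_i` over the divisors `E_i` with `a_i > 0` which meet the fibre of `P` and whose image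
in the blow-up of `I` meets the open set `H ≠ 0`. For `H = 1` these are all the divisors over `P`, and
`c₀` is a jumping number of `I` (the log canonical threshold if `g = 1`). -/
def IsThreshold {N r : ℕ} (f : Fin r → MvPolynomial (Fin N) ℂ) (H : MvPolynomial (Fin r) ℂ)
    (M : ℕ) (g : MvPolynomial (Fin N) ℂ) (P : Fin N → ℂ) (c₀ : ℝ) : Prop :=
  (∀ c : ℝ, 0 ≤ c → c < c₀ → ∃ (p : ℕ) (ρ : ℝ), 0 < ρ ∧
    IntegrableOn (relFun f H M p g c) (Metric.closedBall P ρ)) ∧
  ∀ c : ℝ, c₀ < c → ∀ (p : ℕ) (ρ : ℝ), 0 < ρ →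
    ¬ IntegrableOn (relFun f H M p g c) (Metric.closedBall P ρ)

/-- For all `p` and all balls with the centre `P`, the numbers `(c₀ - c) ^ k ∫ w ^ p |f| ^ (-2 c) |g| ^ 2`
(see `relFun`) are not bounded as `c` tends to `c₀` from below.

The meaning: if `c₀` is the threshold of `H` and `g` at `P`, then (for large `p`) the integral has a pole at
`c = c₀` of the order `o`, where `o` is the largest number of divisors `E_i` with `(ν_i + ord g) / a_i = c₀`
such that a component of their intersection meets the fibre of `P` and is not mapped into `H = 0`; and the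
condition says that `o > k`. -/
def Diverges {N r : ℕ} (f : Fin r → MvPolynomial (Fin N) ℂ) (H : MvPolynomial (Fin r) ℂ)
    (M : ℕ) (g : MvPolynomial (Fin N) ℂ) (P : Fin N → ℂ) (c₀ : ℝ) (k : ℕ) : Prop :=
  ∀ (p : ℕ) (ρ B : ℝ), 0 < ρ → ∃ᶠ c in 𝓝[<] c₀, ENNReal.ofReal B < ENNReal.ofReal ((c₀ - c) ^ k) *
    ∫⁻ x in Metric.closedBall P ρ, ENNReal.ofReal (relFun f H M p g c x)

/-- `c₀` is a *relative jumping number* of `(f_j)` at `P` of order at least `o`: the number `c₀ > 0` is the
threshold of some form `H` and some polynomial `g` at `P`, and it is smaller than `c₁ + 1`, where `c₁ > 0`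
is the threshold of `H` and of the polynomial `1` at `P`; moreover, if `o ≥ 2`, then the numbers
`(c₀ - c) ^ (o - 1) ∫ w ^ p |f| ^ (-2 c) |g| ^ 2` are unbounded near `c₀` (see `Diverges`). -/
def IsRelJump {N r : ℕ} (f : Fin r → MvPolynomial (Fin N) ℂ) (P : Fin N → ℂ) (c₀ : ℝ) (o : ℕ) :
    Prop :=
  ∃ (H : MvPolynomial (Fin r) ℂ) (M : ℕ) (g : MvPolynomial (Fin N) ℂ) (c₁ : ℝ),
    H.IsHomogeneous M ∧ 0 < c₁ ∧ 0 < c₀ ∧ IsThreshold f H M 1 P c₁ ∧ IsThreshold f H M g P c₀ ∧
      c₀ < c₁ + 1 ∧ (2 ≤ o → Diverges f H M g P c₀ (o - 1))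

/-! ## Germs of ideals

A germ of an ideal `I = (f_1, ..., f_r)` is encoded by the germ of `∑_j y_j f_j`, where the `y_j` are new
variables, at the point `y = 0`. The choice of the generators does not matter up to coordinate
changes which are linear in `y`, if we also allow generators `f_j = 0`. The local topological zeta
function of the ideal is `s + 1` times that of the hypersurface `∑_j y_j f_j = 0` at `y = 0`, so it
depends only on the germ of `∑_j y_j f_j`, up to coordinate changes and units. -/

/-- the polynomial `∑_j y_j f_j(x)` in the variables `y_j` and `x` -/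
noncomputable def linForm {σ ι : Type} [Fintype ι] (f : ι → MvPolynomial σ ℂ) :
    MvPolynomial (ι ⊕ σ) ℂ :=
  ∑ j, X (Sum.inl j) * rename Sum.inr (f j)

/-- Germs `g` of the form `∑_j y_j f_j`, together with the local topological zeta functions `z` of the
ideal `(f_1, ..., f_r)`, for a complex number `s₀` and a natural number `m`. (`BecomesAt g F`: `g` becomes
`F` in suitable formal coordinates and up to a unit.) The root of `b_I` is proved with the multiplicity
`m`, or with the order of the pole `s₀` of `z` if this is smaller; so `m = 1` means that `s₀` is a root, and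
for large `m` this is the stronger form, on the polynomial `b_I Z_I`. We write `ord z` for the order of
the pole `s₀` of `z`, that is the multiplicity of the root `s₀` of the denominator.

* `plane`: `g` becomes `∑_j y_j f_j` for polynomials `f_j` in two variables (and in as many `y_j` as there
  are other variables, but some of the `f_j` may be zero), and `z` is computed by blowing up points
  (`LocalZeta`);
* `prin`: `g` becomes `y F`, where `F` is of the class `𝓢` (`SusZeta`), with the zeta function `Z 1`, and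
  `z = Z 1`; moreover `m ≤ 1` or `ord z ≤ 1`;
* `sus`: `g` becomes a polynomial `F` of the class `𝓢`, with the zeta function `Z 1`, `z = (s + 1) Z 1`,
  and `s₀ ≠ -1` (for instance, an ideal in two of the variables plus the ideal of some of the other
  variables); moreover `m ≤ 1` or `ord z ≤ 1`;
* `cone`: `g` becomes `∑_j y_j f_j`, where the `f_j` are forms of degree `d` in `x_0, ..., x_n`, not all
  zero; then `z = (χ_0 + ∑_i χ_i z_i) / (d s + n + 1)`, where the `z_i` are zeta functions of the germs of
  `∑_j y_j f_j` at points `p_i`, which are again of the kinds described here, and the `χ`s are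
  integers. Here we ask that `s₀ ≠ -(n + 1) / d`, or that some Jacobian determinant of `n + 1` of the
  `f_j` is not zero and that `m ≤ 1` or `s₀` is not a pole of any `z_i`;
* `jump`: `g` becomes `∑_j y_j f_j`, where the `f_j` are arbitrary polynomials in any number of variables,
  not all zero, `-s₀` is a relative jumping number of `(f_j)` at the origin of order at least `o`
  (`IsRelJump`), and `m ≤ o` or `ord z ≤ o`. In this case `z` is arbitrary.

For `cone`, blow up the space `x = 0`. The exceptional divisor is the product of `ℙ^n` and an affine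
space, with `N = d` and `ν = n + 1`; near a point `(Q, c)` the ideal becomes `t ^ d (f_1(q), ..., f_r(q))`,
where `t = 0` is the equation of the exceptional divisor and `q ≠ 0` is a point of the line `Q`. The
`p_i` are points `(0, q_i)`, and the `χ_i` are the Euler characteristics of the sets of points `Q` of
`ℙ^n` where the zeta function of the germ of the ideal is `z_i` (`χ_0`: where the ideal is trivial). -/
inductive IGerm {M : ℕ} (s₀ : ℂ) (m : ℕ) : MvPowerSeries (Fin M) ℂ → RatFunc ℂ → Prop
  /-- ideals in two variables -/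
  | plane (g : MvPowerSeries (Fin M) ℂ) (r : ℕ) (f : Fin r → MvPolynomial (Fin 2) ℂ)
      (hf : ∃ j, f j ≠ 0) (z : RatFunc ℂ) (hg : BecomesAt g (linForm f))
      (hz : LocalZeta f 0 1 0 1 z) : IGerm s₀ m g z
  /-- principal ideals -/
  | prin (g : MvPowerSeries (Fin M) ℂ) (σ : Type) (F : MvPolynomial σ ℂ) (Z : ℕ → RatFunc ℂ)
      (hg : BecomesAt g (linForm fun _ : Fin 1 => F)) (hZ : SusZeta σ F 0 Z)
      (hm : m ≤ 1 ∨ (Z 1).denom.rootMultiplicity s₀ ≤ 1) : IGerm s₀ m g (Z 1)
  /-- germs of the class `𝓢` -/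
  | sus (g : MvPowerSeries (Fin M) ℂ) (σ : Type) (F : MvPolynomial σ ℂ) (Z : ℕ → RatFunc ℂ)
      (hg : BecomesAt g F) (hZ : SusZeta σ F 0 Z) (hs : s₀ ≠ -1)
      (hm : m ≤ 1 ∨ ((RatFunc.X + 1) * Z 1).denom.rootMultiplicity s₀ ≤ 1) :
      IGerm s₀ m g ((RatFunc.X + 1) * Z 1)
  /-- ideals generated by forms of the same degree -/
  | cone (g : MvPowerSeries (Fin M) ℂ) (n r d : ℕ) (hd : 0 < d)
      (f : Fin r → MvPolynomial (Fin (n + 1)) ℂ) (hf : ∀ j, (f j).IsHomogeneous d)
      (hf0 : ∃ j, f j ≠ 0) (hg : BecomesAt g (linForm f))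
      (ε : Fin r ⊕ Fin (n + 1) ≃ Fin M) (l : ℕ)
      (p : Fin l → Fin M → ℂ) (z : Fin l → RatFunc ℂ) (χ₀ : ℤ) (χ : Fin l → ℤ)
      (hc : s₀ ≠ -((n : ℂ) + 1) / d ∨
        (∃ e : Fin (n + 1) → Fin r, (Matrix.of fun s t => pderiv s (f (e t))).det ≠ 0) ∧
          (m ≤ 1 ∨ ∀ i, (z i).denom.eval s₀ ≠ 0))
      (hz : ∀ i, IGerm s₀ m (trans (p i) (rename ε (linForm f)) : MvPowerSeries (Fin M) ℂ) (z i)) :
      IGerm s₀ m g (fac d (n + 1) * ((χ₀ : RatFunc ℂ) + ∑ i, (χ i : RatFunc ℂ) * z i))
  /-- minus a relative jumping number -/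
  | jump (g : MvPowerSeries (Fin M) ℂ) (N r : ℕ) (f : Fin r → MvPolynomial (Fin N) ℂ)
      (hf : ∃ j, f j ≠ 0) (hg : BecomesAt g (linForm f)) (c₀ : ℝ) (o : ℕ)
      (hc₀ : IsRelJump f 0 c₀ o) (hs : s₀ = -(c₀ : ℂ)) (z : RatFunc ℂ)
      (hm : m ≤ o ∨ z.denom.rootMultiplicity s₀ ≤ o) : IGerm s₀ m g z

end Pool.Agent.H74T
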