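import Pool.Agent.H74T.Jump
import Pool.Agent.Y230.PL.Zeta
import Pool.Agent.W574.LM.Node

set_option autoImplicit false
set_option linter.unusedSectionVars false
set_option linter.unusedVariables false

/-! # Plane ideals with local functional equations: multiplicities -/

namespace Pool.Agent.H74T

open MeasureTheory Filter Topology Metric Pool.Agent.Y230.PL Pool.Agent.W574.SM
open Pool.Agent.Y230.AR (Nf Nf_nonneg continuous_Nf)

theorem tr0 (p : MvPolynomial (Fin 2) ℂ) : translate 0 p = p := by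
  have h6 : (translate 0 : MvPolynomial (Fin 2) ℂ →ₐ[ℂ] MvPolynomial (Fin 2) ℂ)
      = AlgHom.id ℂ _ := by
    ext1 i
    change MvPolynomial.aeval (fun i => MvPolynomial.X i + MvPolynomial.C ((0 : Fin 2 → ℂ) i))
      (MvPolynomial.X i : MvPolynomial (Fin 2) ℂ) = _
    rw [MvPolynomial.aeval_X]
    simp
  rw [h6]
  rfl

variable {ι : Type} [Fintype ι] [DecidableEq ι]

/-- **Double roots from integrals, local functional equations.** -/
theorem mult_twoL (f : ι → MvPolynomial (Fin 2) ℂ) (hf : ∃ j, f j ≠ 0) (b : Polynomial ℂ)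
    (h₀ : MvPolynomial (Fin 2) ℂ) (hb : Pool.Agent.W574.LM.IsLocEq h₀ f b)
    (hP : MvPolynomial.eval 0 h₀ ≠ 0)
    (s0 : ℝ) (hs0 : s0 < 0) (hUp : Up s0 f 0 1 0 1)
    (hLo : Lo s0 f 0 1 0 1) :
    (Polynomial.X - Polynomial.C (s0 : ℂ)) ^ 2 ∣ b := by
  have htr : (fun j => translate 0 (f j)) = f := funext fun j => tr0 (f j)
  obtain ⟨ε, hε, hfin⟩ := hUp
  have hNm : Measurable (Nf f) := (continuous_Nf f).measurable
  have hbox : ∀ s : ℝ, ∀ r > 0, ∫⁻ p in ball (0 : Fin 2 → ℂ) r, ENNReal.ofReal (Nf f p) ^ s =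
      ∫⁻ x in ball (0 : ℂ) r, ∫⁻ y in ball (0 : ℂ) r, W f 0 1 0 1 s x y := by
    intro s r hr
    rw [box_int (fun p => ENNReal.ofReal (Nf f p) ^ s) (by fun_prop) 0 r hr]
    refine lintegral_congr fun x => lintegral_congr fun y => ?_
    rw [← W_translate f 0 s x y, htr]
  have hae : ∀ᵐ p : Fin 2 → ℂ, 0 < Nf f p := Pool.Agent.H74D.Nf_ae f hf
  have hconv : ∀ s : ℝ, ∀ᵐ p : Fin 2 → ℂ,
      ENNReal.ofReal (Nf f p ^ s) = ENNReal.ofReal (Nf f p) ^ s := by
    intro s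
    filter_upwards [hae] with p hp
    rw [ENNReal.ofReal_rpow_of_pos hp]
  set K : Set (Fin 2 → ℂ) := closedBall 0 (ε / 2) with hK
  have hKb : K ⊆ ball 0 ε := closedBall_subset_ball (by linarith)
  have hI : ∀ s : ℝ, s0 < s → s < 0 → IntegrableOn (fun x => Nf f x ^ s) K := by
    intro s hs hs'
    refine ⟨(hNm.pow_const s).aestronglyMeasurable, ?_⟩
    rw [hasFiniteIntegral_iff_ofReal (Filter.Eventually.of_forall fun p =>
      Real.rpow_nonneg (Nf_nonneg f p) s)]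
    rw [lintegral_congr_ae (ae_restrict_of_ae (hconv s))]
    refine lt_of_le_of_lt (lintegral_mono_set hKb) ?_
    rw [hbox s ε hε]
    exact hfin s hs hs'
  have hc₀ : 0 < -s0 := by linarith
  have hfin1 : ∀ c : ℝ, 0 ≤ c → c < -s0 → ∃ (p : ℕ) (ρ : ℝ), 0 < ρ ∧
      IntegrableOn (fun x => Wt f 1 0 x ^ p * Nf f x ^ (-c)) (closedBall 0 ρ) := by
    intro c hc0 hc
    refine ⟨0, ε / 2, by positivity, ?_⟩
    simp only [pow_zero, one_mul]
    rcases hc0.eq_or_lt with h | h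
    · rw [← h]
      simp only [neg_zero, Real.rpow_zero]
      exact continuous_const.continuousOn.integrableOn_compact (isCompact_closedBall _ _)
    · exact hI (-c) (by linarith) (by linarith)
  have hW : ∀ x, Wt f 1 0 x = 1 := by
    intro x
    simp [Wt]
  obtain ⟨-, h2⟩ := jump_main f hf b h₀ hb 1 0 (MvPolynomial.isHomogeneous_one _ _) 0 hP 1 (-s0)
    (-s0) hc₀ hc₀ (by linarith) hfin1 (fun c hc0 hc => by
      obtain ⟨p, ρ, hρ, h⟩ := hfin1 c hc0 hc
      refine ⟨p, ρ, hρ, ?_⟩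
      simpa using h)
  have h3 := h2 1 ?_
  · have e1 : (Polynomial.X + Polynomial.C (((-s0 : ℝ)) : ℂ)) =
        Polynomial.X - Polynomial.C (s0 : ℂ) := by
      push_cast
      rw [Polynomial.C_neg, ← sub_eq_add_neg]
    rw [e1] at h3
    exact h3
  intro p ρ B hρ
  obtain ⟨Cst, hCst, hlow⟩ := hLo ρ hρ
  refine Eventually.frequently ?_
  have hB : 0 < |B| + 1 := by positivity
  set δ : ℝ := Cst / (|B| + 1) with hδ
  have hδ0 : 0 < δ := by positivity
  have hev : ∀ᶠ c in 𝓝[<] (-s0), max 0 (-s0 - δ) < c ∧ c < -s0 :=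
    Ioo_mem_nhdsLT (max_lt hc₀ (by linarith))
  filter_upwards [hev] with c hc
  obtain ⟨hc1, hc2⟩ := hc
  have hc3 : 0 < c := lt_of_le_of_lt (le_max_left _ _) hc1
  have hc4 : -s0 - δ < c := lt_of_le_of_lt (le_max_right _ _) hc1
  have h4 := hlow (-c) (by linarith) (by linarith)
  rw [← hbox (-c) ρ hρ] at h4
  have h5 : ∫⁻ p in ball (0 : Fin 2 → ℂ) ρ, ENNReal.ofReal (Nf f p) ^ (-c) ≤
      ∫⁻ x in closedBall (0 : Fin 2 → ℂ) ρ, ENNReal.ofReal (Wt f 1 0 x ^ p * Nf f x ^ (-c) *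
            ‖MvPolynomial.eval x (1 : MvPolynomial (Fin 2) ℂ)‖ ^ 2) := by
    have h6 : ∫⁻ x in closedBall (0 : Fin 2 → ℂ) ρ, ENNReal.ofReal (Wt f 1 0 x ^ p *
        Nf f x ^ (-c) * ‖MvPolynomial.eval x (1 : MvPolynomial (Fin 2) ℂ)‖ ^ 2) =
        ∫⁻ x in closedBall (0 : Fin 2 → ℂ) ρ, ENNReal.ofReal (Nf f x) ^ (-c) := by
      refine lintegral_congr_ae ?_
      filter_upwards [ae_restrict_of_ae (hconv (-c))] with x hx
      rw [hW, one_pow, one_mul, map_one, norm_one, one_pow, mul_one, hx]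
    rw [h6]
    exact lintegral_mono_set ball_subset_closedBall
  have h6 := h4.trans h5
  have hpc : 0 < -s0 - c := by linarith
  rw [pow_one]
  refine lt_of_lt_of_le ?_ (mul_le_mul_right h6 _)
  rw [← ENNReal.ofReal_mul hpc.le]
  refine (ENNReal.ofReal_lt_ofReal_iff ?_).2 ?_
  · have e2 : -c - s0 = -s0 - c := by ring
    rw [e2]
    positivity
  · have e2 : -c - s0 = -s0 - c := by ring
    rw [e2]
    have h7 : (-s0 - c) * (Cst / (-s0 - c) ^ 2) = Cst / (-s0 - c) := by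
      field_simp
    rw [h7, lt_div_iff₀ hpc]
    have h8 : -s0 - c < δ := by linarith
    have h9 : B ≤ |B| := le_abs_self B
    calc B * (-s0 - c) ≤ |B| * (-s0 - c) := mul_le_mul_of_nonneg_right h9 hpc.le
      _ < (|B| + 1) * δ := by nlinarith
      _ = Cst := by rw [hδ]; field_simp

/-- at a pair of divisors with a double zero there is a double root -/
theorem zc_rootL (f : ι → MvPolynomial (Fin 2) ℂ) (hf : ∃ j, f j ≠ 0) (b : Polynomial ℂ)
    (h₀ : MvPolynomial (Fin 2) ℂ) (hb : Pool.Agent.W574.LM.IsLocEq h₀ f b)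
    (hP : MvPolynomial.eval 0 h₀ ≠ 0) (s0 : ℂ)
    {Λ : Set Pr} (hT : LT f 0 1 0 1 Λ)
    (hz : ∃ q ∈ Λ, ZC s0 q) : (Polynomial.X - Polynomial.C s0) ^ 2 ∣ b := by
  obtain ⟨q, hq, hz0, hz1⟩ := hz
  obtain ⟨hn0, hn1⟩ := leaf_pos hT le_rfl le_rfl q hq
  have ha : q.1.1 ≠ 0 := by
    intro h
    rw [h, Nat.cast_zero, zero_mul, add_zero] at hz0
    exact Nat.cast_ne_zero.2 (by omega) hz0
  have hac : (q.1.1 : ℂ) ≠ 0 := Nat.cast_ne_zero.2 ha
  set σ : ℝ := -(q.1.2 : ℝ) / q.1.1 with hσ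
  have hs : s0 = (σ : ℂ) := by
    rw [hσ]
    push_cast
    rw [eq_div_iff hac]
    linear_combination hz0
  have hσ0 : σ < 0 := by
    rw [hσ]
    have h1 : (0 : ℝ) < q.1.2 := by exact_mod_cast hn0
    have h2 : (0 : ℝ) < q.1.1 := by exact_mod_cast Nat.pos_of_ne_zero ha
    exact div_neg_of_neg_of_pos (by linarith) h2
  have hre : ∀ a n : ℕ, (n : ℂ) + a * s0 = 0 → al (-σ) (a, n) = 0 := by
    intro a n h
    rw [hs] at h
    have h1 : ((n : ℝ) + a * σ) = 0 := by exact_mod_cast h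
    simp only [al]
    linarith
  rw [hs]
  have hz' : ∃ q ∈ Λ, ZZ (-σ) q := ⟨q, hq, hre _ _ hz0, hre _ _ hz1⟩
  have hnn := all_nonneg hT (-σ) (by linarith) (by simp) (by simp) hz'
  exact mult_twoL f hf b h₀ hb hP σ hσ0 (up_tree σ hT le_rfl le_rfl hnn)
    (lo_tree σ hT le_rfl le_rfl hz')

/-- **The stronger form for germs of ideals in two variables.** -/
theorem plane_mult (f : ι → MvPolynomial (Fin 2) ℂ) (hf : ∃ j, f j ≠ 0) (b : Polynomial ℂ)
    (h₀ : MvPolynomial (Fin 2) ℂ) (hb : Pool.Agent.W574.LM.IsLocEq h₀ f b)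
    (hP : MvPolynomial.eval 0 h₀ ≠ 0) (z : RatFunc ℂ) (hz : LocalZeta f 0 1 0 1 z) (s0 : ℂ) :
    (Polynomial.X - Polynomial.C s0) ^ (z.denom.rootMultiplicity s0) ∣ b := by
  obtain ⟨Λ, hT, h2, h1⟩ := exists_tree s0 hz
  by_cases hno : ∃ q ∈ Λ, ZC s0 q
  · exact (pow_dvd_pow _ (rm_le s0 2 z h2)).trans (zc_rootL f hf b h₀ hb hP s0 hT hno)
  · push Not at hno
    have h3 : z.denom.rootMultiplicity s0 ≤ 1 := by
      apply rm_le
      rw [pow_one]
      exact h1 hno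
    by_cases h0 : z.denom.eval s0 = 0
    · refine (pow_dvd_pow _ h3).trans ?_
      rw [pow_one, Polynomial.dvd_iff_isRoot]
      refine Pool.Agent.W574.LM.point_main f b h₀ hb 0 hP z ?_ s0 h0
      have htr : (fun j => translate 0 (f j)) = f := funext fun j => tr0 (f j)
      rw [htr]
      exact hz
    · rw [Polynomial.rootMultiplicity_eq_zero (show ¬ Polynomial.IsRoot z.denom s0 from h0),
        pow_zero]
      exact one_dvd _

end Pool.Agent.H74T
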