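import Pool.Agent.Y230.HS.Strong
import Pool.Agent.W574.HS.LocalForm
import Pool.Agent.Y229.LP2

set_option autoImplicit false
set_option linter.unusedSectionVars false
set_option linter.unusedVariables false

/-! # The local functional equation of `∑ y_j f_j`: the factor `s + 1` -/

namespace Pool.Agent.H74T

open MvPolynomial Pool.Agent.W574.SM Pool.Agent.W574.LM Pool.Agent.W574.HS
open Pool.Agent.H628R4.TP (IsLocalBFunction weylS)

section

variable {σ ι : Type} [Fintype ι] [DecidableEq ι]

/-- **The local functional equation of `∑ y_j f_j` with `(s + 1) b'(s)` gives a local functional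
equation of the ideal `(f_j)` with `b'`.** -/
theorem locEq_strong [DecidableEq σ] (f : ι → MvPolynomial σ ℂ) (b' : Polynomial ℂ)
    (H : MvPolynomial (ι ⊕ σ) ℂ) (P : ℕ →₀ weylS (ι ⊕ σ))
    (hP : ∀ s : ℕ, H * (C (((Polynomial.X + 1) * b').eval (s : ℂ)) * univ f ^ s) =
      P.sum fun m Q =>
      ((s : ℂ) ^ m) • (Q : Module.End ℂ (MvPolynomial (ι ⊕ σ) ℂ)) (univ f ^ (s + 1))) :
    IsLocEq (hat H 0) f b' := by
  classical
  set b : Polynomial ℂ := (Polynomial.X + 1) * b' with hb'
  choose E hE1 hE2 using fun m : ℕ => rep_weylS (σ := σ) (ι := ι) (P m).1 (P m).2 _ rep_id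
  have hrep : Rep (fun (H : (ι →₀ ℕ) → MvPolynomial σ ℂ) α =>
      ∑ m ∈ P.support, evN α ((∑ j, X j) ^ m) • E m H α) :=
    rep_sum P.support _ fun m _ => rep_poly (hE1 m) _
  obtain ⟨κ, hκ, c, p, R, hR⟩ := hrep
  -- the key identity
  have key : ∀ s : ι →₀ ℕ, (b.eval ((∑ j, s j : ℕ) : ℂ) * ((∑ j, s j).factorial : ℂ)) •
      (hat H 0 * ∏ j, f j ^ s j) = ∑ k, (evN s (p k) * (fall (c k) s : ℂ)) •
        (R k : Module.End ℂ (MvPolynomial σ ℂ)) (hat (univ f ^ (∑ j, s j + 1)) (sh s (c k))) := by
    intro s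
    have h1 := congrArg (fun G => hat G s) (hP (∑ j, s j))
    rw [hat_mul_top H (C (b.eval ((∑ j, s j : ℕ) : ℂ)) * univ f ^ (∑ j, s j)) s (by
        intro γ hγ hne
        rw [hat_C_mul, hat_univ_pow, if_neg, smul_zero]
        intro h
        exact hne (eq_of_le_of_sum_eq hγ h)), hat_C_mul, hat_univ_pow, if_pos rfl, smul_smul,
      mul_smul_comm, Finsupp.sum, hat_sum] at h1
    rw [h1, ← hR]
    refine Finset.sum_congr rfl fun m _ => ?_
    rw [hat_smul, hE2 m (univ f ^ (∑ j, s j + 1)) (hat (univ f ^ (∑ j, s j + 1))) rfl]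
    congr 1
    simp [evN]
  set cf : κ → ℂ := fun k => ∏ j, (((-c k j).toNat.factorial : ℕ) : ℂ) with hcf
  refine ⟨(Finset.univ.image c).filter fun d => ∑ j, d j = 1, fun d =>
    ∑ k ∈ Finset.univ.filter fun k => c k = d,
      tens (C (cf k) * p k) (R k), fun d hd => (Finset.mem_filter.1 hd).2,
      fun s => ?_⟩
  -- pass to a multi-index
  set s' : ι →₀ ℕ := Finsupp.equivFunOnFinite.symm s with hs'
  have hs's : ∀ j, s' j = s j := fun j => rfl
  have hk := key s'
  simp only [hs's] at hk
  have hfact : ((∑ j, s j + 1).factorial : ℂ) ≠ 0 := by exact_mod_cast Nat.factorial_ne_zero _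
  -- the terms of the key identity
  have hterm : ∀ k, (evN s' (p k) * (fall (c k) s' : ℂ)) •
      (R k : Module.End ℂ (MvPolynomial σ ℂ)) (hat (univ f ^ (∑ j, s j + 1)) (sh s' (c k))) =
      if ∑ j, c k j = 1 then ((∑ j, s j + 1).factorial : ℂ) •
        applyAt (tens (C (cf k) * p k) (R k)) s
          (C ((∏ j, (if c k j < 0 then (s j).choose (-c k j).toNat else 1) : ℕ) : ℂ) *
            ∏ j, f j ^ ((s j : ℤ) + c k j).toNat) else 0 := by
    intro k
    by_cases hpos : ∀ j, 0 ≤ (s j : ℤ) + c k j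
    · have hsum : ((∑ j, sh s' (c k) j : ℕ) : ℤ) = ∑ j, s j + ∑ j, c k j := by
        push_cast
        rw [← Finset.sum_add_distrib]
        refine Finset.sum_congr rfl fun j _ => ?_
        rw [sh_apply, hs's, Int.toNat_of_nonneg (hpos j)]
      rw [hat_univ_pow]
      have hiff : (∑ j, sh s' (c k) j = ∑ j, s j + 1) ↔ ∑ j, c k j = 1 := by
        constructor
        · intro h
          have : ((∑ j, sh s' (c k) j : ℕ) : ℤ) = ((∑ j, s j + 1 : ℕ) : ℤ) := by rw [h]
          rw [hsum] at this
          push_cast at this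
          linarith
        · intro h
          rw [h] at hsum
          have : ((∑ j, sh s' (c k) j : ℕ) : ℤ) = ((∑ j, s j + 1 : ℕ) : ℤ) := by
            rw [hsum]; push_cast; ring
          exact_mod_cast this
      by_cases h1 : ∑ j, c k j = 1
      · rw [if_pos (hiff.2 h1), if_pos h1, applyAt_tens, map_smul, smul_smul, smul_smul,
          ← C_mul', ← C_mul']
        have h2 : (fall (c k) s' : ℂ) = cf k *
            ((∏ j, (if c k j < 0 then (s j).choose (-c k j).toNat else 1) : ℕ) : ℂ) := by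
          have : fall (c k) s' = (∏ j, (-c k j).toNat.factorial) *
              ∏ j, (if c k j < 0 then (s j).choose (-c k j).toNat else 1) := by
            rw [fall, ← Finset.prod_mul_distrib]
            refine Finset.prod_congr rfl fun j _ => ?_
            split_ifs with h
            · rw [hs's, Nat.descFactorial_eq_factorial_mul_choose]
            · have h0 : (-c k j).toNat = 0 := by omega
              rw [h0]; simp
          rw [this, hcf]
          push_cast
          rfl
        have h3 : ∀ (a : ℂ) (g : MvPolynomial σ ℂ), (R k : Module.End ℂ (MvPolynomial σ ℂ))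
            (C a * g) = C a * (R k : Module.End ℂ (MvPolynomial σ ℂ)) g := by
          intro a g; rw [C_mul', map_smul, C_mul']
        rw [h3, ← mul_assoc, ← C_mul]
        congr 2
        rw [h2, evN, map_mul, eval_C]
        have h4 : eval (fun j => (s' j : ℂ)) (p k) = eval (fun j => (s j : ℂ)) (p k) := rfl
        rw [h4]
        ring
      · rw [if_neg (fun h => h1 (hiff.1 h)), if_neg h1, map_zero, smul_zero]
    · push Not at hpos
      obtain ⟨j, hj⟩ := hpos
      have h1 : fall (c k) s' = 0 := by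
        refine Finset.prod_eq_zero (Finset.mem_univ j) ?_
        rw [hs's, Nat.descFactorial_eq_zero_iff_lt]
        omega
      have h2 : (∏ j, (if c k j < 0 then (s j).choose (-c k j).toNat else 1)) = 0 := by
        refine Finset.prod_eq_zero (Finset.mem_univ j) ?_
        rw [if_pos (by omega), Nat.choose_eq_zero_iff]
        omega
      rw [h1, h2, applyAt_tens]
      simp
  have hbe : b.eval ((∑ j, s j : ℕ) : ℂ) * ((∑ j, s j).factorial : ℂ) =
      ((∑ j, s j + 1).factorial : ℂ) * b'.eval ((∑ j, s j : ℕ) : ℂ) := by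
    rw [hb', Polynomial.eval_mul, Polynomial.eval_add, Polynomial.eval_X, Polynomial.eval_one,
      Nat.factorial_succ]
    push_cast
    ring
  rw [Finset.sum_congr rfl fun k _ => hterm k, ← Finset.sum_filter, ← Finset.smul_sum,
    hbe, mul_smul] at hk
  have hk2 := smul_right_injective (MvPolynomial σ ℂ) hfact hk
  rw [C_mul', mul_smul_comm, hk2]
  simp only [applyAt_sum]
  rw [← Finset.sum_fiberwise_of_maps_to (s := Finset.univ.filter fun k => ∑ j, c k j = 1)
    (t := (Finset.univ.image c).filter fun d => ∑ j, d j = 1) (g := c)]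
  · refine Finset.sum_congr rfl fun d hd => ?_
    have h5 : ∀ k ∈ Finset.univ.filter (fun k => c k = d), ∑ j, c k j = 1 := by
      intro k hk
      rw [(Finset.mem_filter.1 hk).2]
      exact (Finset.mem_filter.1 hd).2
    have h6 : (Finset.univ.filter fun k => ∑ j, c k j = 1).filter (fun k => c k = d) =
        Finset.univ.filter (fun k => c k = d) := by
      ext k
      simp only [Finset.mem_filter, Finset.mem_univ, true_and]
      exact ⟨fun h => h.2, fun h => ⟨h5 k (by simpa using h), h⟩⟩
    rw [h6]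
    refine Finset.sum_congr rfl fun k hk => ?_
    have h7 : c k = d := (Finset.mem_filter.1 hk).2
    rw [h7]
  · intro k hk
    rw [Finset.mem_filter] at hk ⊢
    exact ⟨Finset.mem_image_of_mem _ (Finset.mem_univ k), hk.2⟩

end

/-- conjugation of an operator with a renaming -/
theorem weylS_conj {σ σ' : Type} (ε : σ ≃ σ') (Q : Module.End ℂ (MvPolynomial σ' ℂ))
    (hQ : Q ∈ weylS σ') : ∃ Q' ∈ weylS σ, ∀ p : MvPolynomial σ ℂ,
      Q' p = rename ε.symm (Q (rename ε p)) := by
  classical
  unfold weylS at hQ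
  induction hQ using Algebra.adjoin_induction with
  | mem P hP =>
    rcases hP with ⟨i, rfl⟩ | ⟨i, rfl⟩
    · refine ⟨LinearMap.mulLeft ℂ (X (ε.symm i)), Algebra.subset_adjoin (Or.inl ⟨_, rfl⟩),
        fun p => ?_⟩
      rw [LinearMap.mulLeft_apply, LinearMap.mulLeft_apply, map_mul, rename_X, rename_rename]
      simp
    · refine ⟨(pderiv (ε.symm i)).toLinearMap, Algebra.subset_adjoin (Or.inr ⟨_, rfl⟩),
        fun p => ?_⟩
      have h1 : pderiv i (rename ε p) = rename ε (pderiv (ε.symm i) p) := by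
        have := pderiv_rename ε.injective (ε.symm i) p
        rwa [Equiv.apply_symm_apply] at this
      change pderiv (ε.symm i) p = rename ε.symm (pderiv i (rename ε p))
      rw [h1, rename_rename]
      simp
  | algebraMap c =>
    refine ⟨algebraMap ℂ _ c, Subalgebra.algebraMap_mem _ _, fun p => ?_⟩
    rw [Module.algebraMap_end_apply, Module.algebraMap_end_apply, map_smul, rename_rename]
    simp
  | add P Q _ _ hP hQ =>
    obtain ⟨P', hP1, hP2⟩ := hP
    obtain ⟨Q', hQ1, hQ2⟩ := hQ
    exact ⟨P' + Q', Subalgebra.add_mem _ hP1 hQ1, fun p => by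
      rw [LinearMap.add_apply, LinearMap.add_apply, map_add, hP2, hQ2]⟩
  | mul P Q _ _ hP hQ =>
    obtain ⟨P', hP1, hP2⟩ := hP
    obtain ⟨Q', hQ1, hQ2⟩ := hQ
    refine ⟨P' * Q', Subalgebra.mul_mem _ hP1 hQ1, fun p => ?_⟩
    rw [Module.End.mul_apply, Module.End.mul_apply, hP2, hQ2, rename_rename]
    simp

/-- a functional equation with a factor and renaming -/
theorem heq_rename {σ σ' : Type} (ε : σ ≃ σ') {H : MvPolynomial σ' ℂ} {F : MvPolynomial σ ℂ}
    {b : Polynomial ℂ} (P : ℕ →₀ weylS σ')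
    (hP : ∀ s : ℕ, H * (C (b.eval (s : ℂ)) * rename ε F ^ s) = P.sum fun m Q =>
      ((s : ℂ) ^ m) • (Q : Module.End ℂ (MvPolynomial σ' ℂ)) (rename ε F ^ (s + 1))) :
    ∃ P' : ℕ →₀ weylS σ, ∀ s : ℕ, rename ε.symm H * (C (b.eval (s : ℂ)) * F ^ s) =
      P'.sum fun m Q => ((s : ℂ) ^ m) • (Q : Module.End ℂ (MvPolynomial σ ℂ)) (F ^ (s + 1)) := by
  classical
  choose Q hQ hQ2 using fun m : ℕ => weylS_conj ε (P m).1 (P m).2
  refine ⟨∑ m ∈ P.support, Finsupp.single m ⟨Q m, hQ m⟩, fun s => ?_⟩
  have h1 := congrArg (rename ε.symm) (hP s)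
  rw [map_mul, map_mul, rename_C, map_pow, rename_rename, Finsupp.sum, map_sum] at h1
  have h2 : (rename (ε.symm ∘ ε)) F = F := by simp
  rw [h2] at h1
  rw [h1, ← Finsupp.sum_finset_sum_index]
  · refine Finset.sum_congr rfl fun m _ => ?_
    rw [Finsupp.sum_single_index]
    · rw [map_smul]
      congr 1
      have h3 := hQ2 m (F ^ (s + 1))
      have h4 : (rename ε) (F ^ (s + 1)) = (rename ε F) ^ (s + 1) := map_pow _ _ _
      rw [h4] at h3
      exact h3.symm
    · exact smul_zero _
  · intro a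
    exact smul_zero _
  · intro a A B
    rw [← smul_add]
    rfl

/-- the local functional equation of the ideal -/
theorem ideal_of_local {σ ι σ' : Type} [Fintype ι] [DecidableEq ι] [Finite σ'] [DecidableEq σ]
    (f : ι → MvPolynomial σ ℂ)
    (hf : ∃ j, f j ≠ 0) (ε : ι ⊕ σ ≃ σ') (b' : Polynomial ℂ)
    (hb : IsLocalBFunction (rename ε (univ f)) ((Polynomial.X + 1) * b')) :
    ∃ h : MvPolynomial σ ℂ, constantCoeff h ≠ 0 ∧ IsLocEq h f b' := by
  classical
  have hne : rename ε (univ f) ≠ 0 := fun h0 =>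
    univ_ne_zero f hf (rename_injective ε ε.injective (by rw [h0, map_zero]))
  obtain ⟨H, P, hH, hP⟩ := algebraic_of_local _ hne _ hb
  obtain ⟨P', hP'⟩ := heq_rename ε P hP
  refine ⟨hat (rename ε.symm H) 0, ?_, locEq_strong f b' _ P' hP'⟩
  rw [cc_hat, constantCoeff_rename]
  exact hH

end Pool.Agent.H74T
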