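import Pool.Agent.H74T.ExtG

set_option autoImplicit false
set_option linter.unusedSectionVars false
set_option linter.unusedVariables false

/-! # Relative jumping numbers are roots -/

namespace Pool.Agent.H74T

open MvPolynomial MeasureTheory Filter Topology Metric
open Pool.Agent.Y230.AR (Test Nf Nf_nonneg continuous_Nf continuous_ev)
open Pool.Agent.W574.SM (IsFunctionalEq)
open Pool.Agent.H74D (Nf_ae)

variable {N : ℕ} {ι : Type} [Fintype ι] [DecidableEq ι]

theorem isolated_roots (b : Polynomial ℂ) (hb0 : b ≠ 0) (c₀ : ℝ) :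
    ∃ δ : ℝ, 0 < δ ∧ ∀ a : ℝ, |a - c₀| < δ → a ≠ c₀ → b.eval (-(a : ℂ)) ≠ 0 := by
  have h1 : (b.roots.toFinset : Set ℂ).Finite := b.roots.toFinset.finite_toSet
  have h2 : {a : ℝ | b.eval (-(a : ℂ)) = 0}.Finite := by
    refine Set.Finite.of_finite_image (f := fun a : ℝ => -(a : ℂ)) (h1.subset ?_) ?_
    · rintro _ ⟨a, ha, rfl⟩
      rw [Finset.mem_coe, Multiset.mem_toFinset, Polynomial.mem_roots hb0]
      exact ha
    · intro a _ a' _ h
      exact Complex.ofReal_injective (neg_injective h)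
  have h3 : ({a : ℝ | b.eval (-(a : ℂ)) = 0} \ {c₀}).Finite := h2.subset Set.sdiff_subset
  have h4 : ({a : ℝ | b.eval (-(a : ℂ)) = 0} \ {c₀})ᶜ ∈ 𝓝 c₀ :=
    h3.isClosed.isOpen_compl.mem_nhds (by simp)
  obtain ⟨δ, hδ, h5⟩ := Metric.mem_nhds_iff.1 h4
  refine ⟨δ, hδ, fun a ha hne h0 => ?_⟩
  exact h5 (show a ∈ ball c₀ δ by rw [mem_ball, Real.dist_eq]; exact ha) ⟨h0, hne⟩

/-- **Relative jumping numbers are roots.** -/
theorem jump_main (f : ι → MvPolynomial (Fin N) ℂ) (hf : ∃ j, f j ≠ 0) (b : Polynomial ℂ)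
    (h₀ : MvPolynomial (Fin N) ℂ) (hb : Pool.Agent.W574.LM.IsLocEq h₀ f b)
    (H : MvPolynomial ι ℂ) (M : ℕ) (hH : H.IsHomogeneous M)
    (P : Fin N → ℂ) (hP : eval P h₀ ≠ 0) (g : MvPolynomial (Fin N) ℂ) (c₁ c₀ : ℝ) (hc₁ : 0 < c₁) (hc₀ : 0 < c₀)
    (hlt : c₀ < c₁ + 1)
    (hfin1 : ∀ c : ℝ, 0 ≤ c → c < c₁ → ∃ (p : ℕ) (ρ : ℝ), 0 < ρ ∧
      IntegrableOn (fun x => Wt f H M x ^ p * Nf f x ^ (-c)) (closedBall P ρ))
    (hfin : ∀ c : ℝ, 0 ≤ c → c < c₀ → ∃ (p : ℕ) (ρ : ℝ), 0 < ρ ∧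
      IntegrableOn (fun x => Wt f H M x ^ p * Nf f x ^ (-c) * ‖eval x g‖ ^ 2) (closedBall P ρ)) :
    ((∀ c : ℝ, c₀ < c → ∀ (p : ℕ) (ρ : ℝ), 0 < ρ →
      ¬ IntegrableOn (fun x => Wt f H M x ^ p * Nf f x ^ (-c) * ‖eval x g‖ ^ 2)
        (closedBall P ρ)) → b.eval (-(c₀ : ℂ)) = 0) ∧
    ∀ k : ℕ, (∀ (p : ℕ) (ρ B : ℝ), 0 < ρ → ∃ᶠ c in 𝓝[<] c₀,
        ENNReal.ofReal B < ENNReal.ofReal ((c₀ - c) ^ k) *
          ∫⁻ x in closedBall P ρ, ENNReal.ofReal (Wt f H M x ^ p * Nf f x ^ (-c) *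
            ‖eval x g‖ ^ 2)) →
      (Polynomial.X + Polynomial.C (c₀ : ℂ)) ^ (k + 1) ∣ b := by
  classical
  by_cases hb0 : b = 0
  · subst hb0
    exact ⟨fun _ => by simp, fun k _ => dvd_zero _⟩
  obtain ⟨δ, hδ, hroots⟩ := isolated_roots b hb0 c₀
  -- the exponents
  set c'' : ℝ := max 0 ((c₀ - 1 + c₁) / 2) with hc''
  have hc''0 : 0 ≤ c'' := le_max_left _ _
  have hc''1 : c'' < c₁ := max_lt hc₁ (by linarith)
  have hc''2 : (c₀ - 1 + c₁) / 2 ≤ c'' := le_max_right _ _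
  set η : ℝ := c'' - (c₀ - 1) with hη
  have hη0 : 0 < η := by rw [hη]; linarith
  set m₀ : ℝ := min (δ / 2) (η / 4) with hm₀
  have hm₀0 : 0 < m₀ := lt_min (by positivity) (by positivity)
  have hm₀δ : m₀ ≤ δ / 2 := min_le_left _ _
  have hm₀η : m₀ ≤ η / 4 := min_le_right _ _
  set c' : ℝ := max (c₀ / 2) (c₀ - m₀) with hc'
  have hc'0 : 0 < c' := lt_of_lt_of_le (by positivity) (le_max_left _ _)
  have hc'1 : c' < c₀ := max_lt (by linarith) (by linarith)
  have hc'2 : c₀ - m₀ ≤ c' := le_max_right _ _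
  set c : ℝ := (c' + c'') / 2 with hc
  have hc0 : 0 ≤ c := by rw [hc]; linarith
  have hcη : c₀ + η / 4 < c + 1 / 2 := by rw [hc]; linarith
  obtain ⟨p₁, ρ₁, hρ₁, hI₁⟩ := hfin1 c'' hc''0 hc''1
  obtain ⟨p₂, ρ₂, hρ₂, hI₂⟩ := hfin c' hc'0.le hc'1
  obtain ⟨ρ₃, hρ₃, hB₃⟩ := Metric.nhds_basis_closedBall.mem_iff.1
    ((isOpen_ne.preimage (continuous_ev h₀)).mem_nhds (show P ∈ _ from hP))
  set ρ : ℝ := min ρ₃ (min ρ₁ ρ₂) with hρd
  have hρ : 0 < ρ := lt_min hρ₃ (lt_min hρ₁ hρ₂)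
  set K : Set (Fin N → ℂ) := closedBall P ρ with hK
  have hKc : IsCompact K := isCompact_closedBall _ _
  have hh₀ : ∀ x ∈ K, eval x h₀ ≠ 0 := fun x hx =>
    hB₃ (closedBall_subset_closedBall (min_le_left _ _) hx)
  obtain ⟨k₀, hk₀⟩ := rel_contG hKc f b h₀ hb H M hH
  set p : ℕ := max k₀ (max p₁ p₂) with hp
  have hp0 : k₀ ≤ p := le_max_left _ _
  have hp1 : p₁ ≤ p := (le_max_left _ _).trans (le_max_right _ _)
  have hp2 : p₂ ≤ p := (le_max_right _ _).trans (le_max_right _ _)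
  obtain ⟨CW, hCW0, hCW⟩ := Wt_bound f H M hH
  set W : (Fin N → ℂ) → ℝ := Wt f H M with hW
  have hWm : Measurable W := Wt_meas f H M
  have hW0 : ∀ x, 0 ≤ W x := Wt_nonneg f H M
  have hNc := continuous_Nf f
  have hgc : Continuous fun x : Fin N → ℂ => eval x g := continuous_ev g
  have hpos : ∀ᵐ x ∂(volume.restrict K), 0 < Nf f x := ae_restrict_of_ae (Nf_ae f hf)
  have hraise : ∀ (q q' : ℕ) (F : (Fin N → ℂ) → ℝ), q' ≤ q →
      IntegrableOn (fun x => W x ^ q' * F x) K → IntegrableOn (fun x => W x ^ q * F x) K := by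
    intro q q' F hq h0
    have h4 : IntegrableOn (fun x => W x ^ (q - q') * (W x ^ q' * F x)) K := by
      refine Integrable.bdd_mul (c := CW ^ (q - q')) h0
        (hWm.pow_const _).aestronglyMeasurable (Eventually.of_forall fun x => ?_)
      rw [Real.norm_eq_abs, abs_of_nonneg (pow_nonneg (hW0 x) _)]
      exact pow_le_pow_left₀ (hW0 x) (hCW x) _
    refine h4.congr_fun (fun x _ => ?_) measurableSet_closedBall
    simp only
    rw [← mul_assoc, ← pow_add, Nat.sub_add_cancel hq]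
  have hJ1 : IntegrableOn (fun x => W x ^ p * Nf f x ^ (-c'')) K :=
    hraise p p₁ _ hp1 (hI₁.mono_set (closedBall_subset_closedBall
      ((min_le_right _ _).trans (min_le_left _ _))))
  have hJ2' : ∀ q, p₂ ≤ q → IntegrableOn (fun x => W x ^ q * (Nf f x ^ (-c') * ‖eval x g‖ ^ 2)) K := by
    intro q hq
    refine hraise q p₂ _ hq ?_
    refine (hI₂.mono_set (closedBall_subset_closedBall
      ((min_le_right _ _).trans (min_le_right _ _)))).congr_fun
      (fun x _ => ?_) measurableSet_closedBall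
    simp only
    ring
  -- the inequality of the arithmetic and the geometric mean
  have hI : IntegrableOn (fun x => W x ^ p * Nf f x ^ (-c) * ‖eval x g‖) K := by
    refine Integrable.mono' (hJ1.add (hJ2' p hp2)) ?_ ?_
    · exact (((hWm.pow_const _).mul (hNc.measurable.pow_const _)).mul
        hgc.norm.measurable).aestronglyMeasurable
    · filter_upwards [hpos] with x hx
      have h1 : 0 ≤ W x ^ p := pow_nonneg (hW0 x) _
      have h2 : 0 ≤ Nf f x ^ (-c) := Real.rpow_nonneg hx.le _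
      rw [Real.norm_eq_abs, abs_of_nonneg (mul_nonneg (mul_nonneg h1 h2) (norm_nonneg _))]
      change W x ^ p * Nf f x ^ (-c) * ‖eval x g‖ ≤
        W x ^ p * Nf f x ^ (-c'') + W x ^ p * (Nf f x ^ (-c') * ‖eval x g‖ ^ 2)
      set A := Nf f x ^ (-c'' / 2) with hA
      set B := Nf f x ^ (-c' / 2) with hB
      have hA0 : 0 ≤ A := Real.rpow_nonneg hx.le _
      have hB0 : 0 ≤ B := Real.rpow_nonneg hx.le _
      have e1 : Nf f x ^ (-c) = A * B := by
        rw [hA, hB, ← Real.rpow_add hx]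
        congr 1
        rw [hc]
        ring
      have e2 : Nf f x ^ (-c'') = A ^ 2 := by
        rw [hA, ← Real.rpow_natCast, ← Real.rpow_mul hx.le]
        congr 1
        push_cast
        ring
      have e3 : Nf f x ^ (-c') = B ^ 2 := by
        rw [hB, ← Real.rpow_natCast, ← Real.rpow_mul hx.le]
        congr 1
        push_cast
        ring
      rw [e1, e2, e3]
      have h3 := two_mul_le_add_sq A (B * ‖eval x g‖)
      have h4 : 0 ≤ A * (B * ‖eval x g‖) := mul_nonneg hA0 (mul_nonneg hB0 (norm_nonneg _))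
      have h5 : A * (B * ‖eval x g‖) ≤ A ^ 2 + (B * ‖eval x g‖) ^ 2 := by linarith
      have h6 := mul_le_mul_of_nonneg_left h5 h1
      calc W x ^ p * (A * B) * ‖eval x g‖ = W x ^ p * (A * (B * ‖eval x g‖)) := by ring
        _ ≤ _ := h6
        _ = _ := by ring
  -- the test function
  set χ : ContDiffBump P := ⟨ρ / 2, ρ, by positivity, by linarith⟩ with hχ
  have hχT : Test K (fun x => ((χ x : ℝ) : ℂ)) := by
    constructor
    · exact Complex.ofRealCLM.contDiff.comp χ.contDiff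
    · refine closure_minimal ?_ isClosed_closedBall
      intro v hv
      rw [Function.mem_support] at hv
      rw [mem_closedBall]
      by_contra hcon2
      push Not at hcon2
      refine hv ?_
      rw [χ.zero_of_le_dist hcon2.le]
      simp
  have hχ1 : Test K (fun x => ((χ x : ℝ) : ℂ) * (eval x h₀)⁻¹) := by
    constructor
    · rw [contDiff_iff_contDiffAt]
      intro x
      by_cases hx : eval x h₀ = 0
      · have h1 : x ∉ tsupport (fun x => ((χ x : ℝ) : ℂ)) := fun h => hh₀ x (hχT.2 h) hx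
        have h2 : (fun x => ((χ x : ℝ) : ℂ) * (eval x h₀)⁻¹) =ᶠ[𝓝 x] fun _ => (0 : ℂ) := by
          filter_upwards [notMem_tsupport_iff_eventuallyEq.1 h1] with y hy
          have h3 : ((χ y : ℝ) : ℂ) = 0 := hy
          rw [h3, zero_mul]
        exact contDiffAt_const.congr_of_eventuallyEq h2
      · exact (hχT.1.contDiffAt).mul ((contDiff_ev h₀).contDiffAt.inv hx)
    · refine (closure_mono ?_).trans hχT.2
      intro x hx hx'
      refine hx ?_
      simp only at hx' ⊢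
      rw [hx', zero_mul]
  have hφ₁ : Test K (fun x => eval x g * (((χ x : ℝ) : ℂ) * (eval x h₀)⁻¹)) :=
    hχ1.mul (contDiff_ev g)
  set φ : (Fin N → ℂ) → ℝ := fun x => ‖eval x g‖ ^ 2 * χ x with hφ
  have hφe : (fun x => ((φ x : ℝ) : ℂ)) =
      fun x => (starRingEnd ℂ) (eval x g) * (eval x h₀ *
        (eval x g * (((χ x : ℝ) : ℂ) * (eval x h₀)⁻¹))) := by
    funext x
    have h4 : eval x h₀ * (((χ x : ℝ) : ℂ) * (eval x h₀)⁻¹) = ((χ x : ℝ) : ℂ) := by
      by_cases hx : x ∈ K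
      · have := hh₀ x hx
        field_simp
      · have h5 : ((χ x : ℝ) : ℂ) = 0 := by
          by_contra h
          exact hx (hχT.2 (subset_tsupport _ h))
        rw [h5]
        ring
    have h6 : (starRingEnd ℂ) (eval x g) * (eval x h₀ *
        (eval x g * (((χ x : ℝ) : ℂ) * (eval x h₀)⁻¹))) =
        (eval x g * (starRingEnd ℂ) (eval x g)) *
          (eval x h₀ * (((χ x : ℝ) : ℂ) * (eval x h₀)⁻¹)) := by ring
    rw [h6, h4, Complex.mul_conj', hφ]
    push_cast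
    ring
  have hφT : Test K (fun x => ((φ x : ℝ) : ℂ)) := by
    rw [hφe]
    exact (hφ₁.mul (contDiff_ev h₀)).mul (contDiff_conj_ev g)
  have hφ0 : ∀ x, 0 ≤ φ x := fun x => mul_nonneg (by positivity) χ.nonneg
  obtain ⟨E, hE1, hE2⟩ := hk₀ p hp0 g _ hφ₁ _ hφe hpos c hc0 hI
  -- the set of the exponents
  have hmono : ∀ a a' : ℝ, a' ≤ a → IntegrableOn (fun x => W x ^ (2 * p) * Nf f x ^ (-a) * φ x) K →
      IntegrableOn (fun x => W x ^ (2 * p) * Nf f x ^ (-a') * φ x) K := by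
    intro a a' h1 h2
    obtain ⟨m, hm⟩ := hKc.exists_bound_of_continuousOn (f := fun x => Nf f x ^ (a - a'))
      ((hNc.rpow_const fun x => Or.inr (by linarith)).continuousOn)
    have h3 : IntegrableOn (fun x => Nf f x ^ (a - a') * (W x ^ (2 * p) * Nf f x ^ (-a) * φ x)) K := by
      refine Integrable.bdd_mul (c := m) h2
        (hNc.measurable.pow_const _).aestronglyMeasurable ?_
      filter_upwards [ae_restrict_mem measurableSet_closedBall] with x hx
      exact hm x hx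
    refine h3.congr ?_
    filter_upwards [hpos] with x hx
    have h4 : Nf f x ^ (-a') = Nf f x ^ (a - a') * Nf f x ^ (-a) := by
      rw [← Real.rpow_add hx]
      congr 1
      ring
    rw [h4]
    ring
  have hstart : IntegrableOn (fun x => W x ^ (2 * p) * Nf f x ^ (-c') * φ x) K := by
    have h1 := hJ2' (2 * p) (by omega)
    have h2 : IntegrableOn (fun x => χ x * (W x ^ (2 * p) * (Nf f x ^ (-c') * ‖eval x g‖ ^ 2))) K := by
      refine Integrable.bdd_mul (c := 1) h1 χ.continuous.measurable.aestronglyMeasurable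
        (Eventually.of_forall fun x => ?_)
      rw [Real.norm_eq_abs, abs_of_nonneg χ.nonneg]
      exact χ.le_one
    refine h2.congr (Eventually.of_forall fun x => ?_)
    simp only [hφ]
    ring
  have hreach : ∀ S : ℝ, S ≤ c₀ + η / 4 →
      (∀ a : ℝ, c' ≤ a → a < S → b.eval (-(a : ℂ)) ≠ 0) → ∀ a : ℝ, a < S →
      IntegrableOn (fun x => W x ^ (2 * p) * Nf f x ^ (-a) * φ x) K := by
    intro S hS hroot a haS
    by_contra hcon
    set A : Set ℝ := {t | IntegrableOn (fun x => W x ^ (2 * p) * Nf f x ^ (-t) * φ x) K} with hA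
    have hAne : A.Nonempty := ⟨c', hstart⟩
    have hAb : ∀ t ∈ A, t < a := by
      intro t ht
      by_contra h
      push Not at h
      exact hcon (hmono t a h ht)
    have hAbdd : BddAbove A := ⟨a, fun t ht => (hAb t ht).le⟩
    set s : ℝ := sSup A with hs
    have hcs : c' ≤ s := le_csSup hAbdd hstart
    have hsa : s ≤ a := csSup_le hAne fun t ht => (hAb t ht).le
    have hbelow : ∀ t : ℝ, t < s → t ∈ A := by
      intro t ht
      obtain ⟨u, hu1, hu2⟩ := exists_lt_of_lt_csSup hAne ht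
      exact hmono u t hu2.le hu1
    obtain ⟨ε, hε, h5⟩ := ext_step hKc f b H M hH p φ hφT hφ0 hpos c E hE1 hE2 s (by linarith)
      (by linarith) (hroot s hcs (by linarith)) (fun t ht1 ht2 => hbelow t ht2)
    have h6 : s + ε ∈ A := h5
    have h7 := le_csSup hAbdd h6
    linarith
  have hhalf : ∀ a : ℝ, IntegrableOn (fun x => W x ^ (2 * p) * Nf f x ^ (-a) * φ x) K →
      IntegrableOn (fun x => W x ^ (2 * p) * Nf f x ^ (-a) * ‖eval x g‖ ^ 2)
        (closedBall P (ρ / 2)) := by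
    intro a ha
    refine (ha.mono_set (closedBall_subset_closedBall (by linarith))).congr_fun (fun x hx => ?_)
      measurableSet_closedBall
    change W x ^ (2 * p) * Nf f x ^ (-a) * (‖eval x g‖ ^ 2 * χ x) =
      W x ^ (2 * p) * Nf f x ^ (-a) * ‖eval x g‖ ^ 2
    rw [χ.one_of_mem_closedBall hx, mul_one]
  constructor
  · intro hinf
    by_contra hne
    refine hinf (c₀ + m₀ / 2) (by linarith) (2 * p) (ρ / 2) (by positivity) (hhalf _ ?_)
    refine hreach (c₀ + m₀) (by linarith) (fun a ha1 ha2 => ?_) _ (by linarith)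
    by_cases h : a = c₀
    · rw [h]
      exact hne
    · refine hroots a ?_ h
      rw [abs_lt]
      constructor <;> linarith
  · intro k hdiv
    have hrw : (Polynomial.X + Polynomial.C (c₀ : ℂ)) =
        Polynomial.X - Polynomial.C (((-c₀ : ℝ)) : ℂ) := by
      push_cast
      rw [Polynomial.C_neg, sub_neg_eq_add]
    rw [hrw]
    by_contra hcon
    obtain ⟨ε, hε, δ', hδ', hlow⟩ := low_of_not_dvd b (-c₀) k hcon
    have hall : ∀ a : ℝ, a < c₀ → IntegrableOn (fun x => W x ^ (2 * p) * Nf f x ^ (-a) * φ x) K := by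
      refine hreach c₀ (by linarith) (fun a ha1 ha2 => ?_)
      refine hroots a ?_ ha2.ne
      rw [abs_lt]
      constructor <;> linarith
    -- `E` is bounded near `c₀`
    have hEc : ContinuousAt E (c₀ : ℂ) :=
      (hE1 (c₀ : ℂ) (by rw [Complex.ofReal_re]; exact hc₀)
        (by rw [Complex.ofReal_re]; linarith)).continuousAt
    have hEb : ∀ᶠ z in 𝓝 (c₀ : ℂ), ‖E z‖ < ‖E (c₀ : ℂ)‖ + 1 :=
      hEc.norm.eventually (gt_mem_nhds (by linarith))
    have hEb' : ∀ᶠ a : ℝ in 𝓝 c₀, ‖E (a : ℂ)‖ < ‖E (c₀ : ℂ)‖ + 1 :=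
      (Complex.continuous_ofReal.tendsto c₀).eventually hEb
    set D : ℝ := ‖E (c₀ : ℂ)‖ + 1 with hD
    have hf1 := hdiv (2 * p) (ρ / 2) (D / ε) (by positivity)
    have hev : ∀ᶠ c in 𝓝[<] c₀, max 0 (c₀ - δ') < c ∧ c < c₀ :=
      Ioo_mem_nhdsLT (max_lt hc₀ (by linarith))
    obtain ⟨a, h1, ⟨h2, h3⟩, h4⟩ :=
      ((hf1.and_eventually (hev.and (hEb'.filter_mono nhdsWithin_le_nhds)))).exists
    have ha1 : 0 < a := lt_of_le_of_lt (le_max_left _ _) h2
    have ha2 : c₀ - δ' < a := lt_of_le_of_lt (le_max_right _ _) h2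
    have h5 := hlow (-a) (by linarith) (by linarith)
    have e1 : b.eval (((-a : ℝ)) : ℂ) = b.eval (-(a : ℂ)) := by
      congr 1
      push_cast
      ring
    rw [e1] at h5
    have e2 : -a - -c₀ = c₀ - a := by ring
    rw [e2] at h5
    have h6 := hE2 a ha1 (by
      refine (hall a h3).congr (Eventually.of_forall fun x => ?_)
      simp only
      rw [Complex.norm_real, Real.norm_eq_abs, abs_of_nonneg (hφ0 x)])
    set J : ℝ := ∫ x in K, W x ^ (2 * p) * Nf f x ^ (-a) * φ x with hJ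
    have hnn : ∀ x, 0 ≤ W x ^ (2 * p) * Nf f x ^ (-a) * φ x := fun x =>
      mul_nonneg (mul_nonneg (pow_nonneg (hW0 x) _) (Real.rpow_nonneg (Nf_nonneg f x) _)) (hφ0 x)
    have hJ0 : 0 ≤ J := integral_nonneg hnn
    have h7 : ∫ x in K, ((W x ^ (2 * p) * Nf f x ^ (-a) : ℝ) : ℂ) * ((φ x : ℝ) : ℂ) =
        ((J : ℝ) : ℂ) := by
      rw [hJ, ← integral_complex_ofReal]
      refine integral_congr_ae (Eventually.of_forall fun x => ?_)
      push_cast
      rfl
    rw [h7] at h6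
    have h8 : ‖b.eval (-(a : ℂ))‖ * J < D := by
      have h9 : ‖E (a : ℂ)‖ = ‖b.eval (-(a : ℂ))‖ * J := by
        rw [h6, norm_mul, Complex.norm_real, Real.norm_eq_abs, abs_of_nonneg hJ0]
      rw [← h9]
      exact h4
    have h10 : ∫ x in closedBall P (ρ / 2), W x ^ (2 * p) * Nf f x ^ (-a) * ‖eval x g‖ ^ 2 ≤ J := by
      have h11 : ∫ x in closedBall P (ρ / 2), W x ^ (2 * p) * Nf f x ^ (-a) * ‖eval x g‖ ^ 2 =
          ∫ x in closedBall P (ρ / 2), W x ^ (2 * p) * Nf f x ^ (-a) * φ x := by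
        refine setIntegral_congr_fun measurableSet_closedBall fun x hx => ?_
        change W x ^ (2 * p) * Nf f x ^ (-a) * ‖eval x g‖ ^ 2 =
          W x ^ (2 * p) * Nf f x ^ (-a) * (‖eval x g‖ ^ 2 * χ x)
        rw [χ.one_of_mem_closedBall hx, mul_one]
      rw [h11]
      exact setIntegral_mono_set (hall a h3) (Eventually.of_forall hnn)
        (Eventually.of_forall (closedBall_subset_closedBall (by linarith)))
    have hpc : 0 < c₀ - a := by linarith
    have h12 : ε * (c₀ - a) ^ k *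
        ∫ x in closedBall P (ρ / 2), W x ^ (2 * p) * Nf f x ^ (-a) * ‖eval x g‖ ^ 2 ≤ D := by
      calc _ ≤ ε * (c₀ - a) ^ k * J := mul_le_mul_of_nonneg_left h10 (by positivity)
        _ ≤ ‖b.eval (-(a : ℂ))‖ * J := mul_le_mul_of_nonneg_right h5 hJ0
        _ ≤ D := h8.le
    have h13 : (c₀ - a) ^ k *
        ∫ x in closedBall P (ρ / 2), W x ^ (2 * p) * Nf f x ^ (-a) * ‖eval x g‖ ^ 2 ≤ D / ε := by
      rw [le_div_iff₀ hε]
      linarith
    have h14 : ∫⁻ x in closedBall P (ρ / 2), ENNReal.ofReal (W x ^ (2 * p) * Nf f x ^ (-a) *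
        ‖eval x g‖ ^ 2) = ENNReal.ofReal
          (∫ x in closedBall P (ρ / 2), W x ^ (2 * p) * Nf f x ^ (-a) * ‖eval x g‖ ^ 2) :=
      (ofReal_integral_eq_lintegral_ofReal (hhalf _ (hall a h3)) (Eventually.of_forall fun x =>
        mul_nonneg (mul_nonneg (pow_nonneg (hW0 x) _) (Real.rpow_nonneg (Nf_nonneg f x) _))
          (by positivity))).symm
    rw [h14, ← ENNReal.ofReal_mul (by positivity)] at h1
    exact absurd h1 (not_lt.2 (ENNReal.ofReal_le_ofReal h13))

end Pool.Agent.H74T
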