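import Pool.Agent.H74T.GDefs
import Pool.Agent.H74T.Jump
import Pool.Agent.H74T.Cone

set_option autoImplicit false
set_option linter.unusedSectionVars false
set_option linter.unusedVariables false

/-! # Thresholds: the theorem, and the thresholds of forms -/

namespace Pool.Agent.H74T

open MvPolynomial MeasureTheory Filter Topology Metric
open scoped Pointwise
open Pool.Agent.Y230.AR (Nf Nf_nonneg continuous_Nf continuous_ev)
open Pool.Agent.W574.SM (IsFunctionalEq)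
open Pool.Agent.H74D (Nf_ae Nf_smul)
open Pool.Agent.H74C

variable {N r : ℕ}

theorem relFun_eq (f : Fin r → MvPolynomial (Fin N) ℂ) (H : MvPolynomial (Fin r) ℂ) (M p : ℕ)
    (g : MvPolynomial (Fin N) ℂ) (c : ℝ) : relFun f H M p g c =
      fun x => Wt f H M x ^ p * Nf f x ^ (-c) * ‖eval x g‖ ^ 2 := rfl

theorem relFun_one (f : Fin r → MvPolynomial (Fin N) ℂ) (H : MvPolynomial (Fin r) ℂ) (M p : ℕ)
    (c : ℝ) : relFun f H M p 1 c = fun x => Wt f H M x ^ p * Nf f x ^ (-c) := by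
  rw [relFun_eq]
  funext x
  rw [map_one, norm_one, one_pow, mul_one]

/-- **Relative jumping numbers are roots.** -/
theorem relJump_root (f : Fin r → MvPolynomial (Fin N) ℂ) (hf : ∃ j, f j ≠ 0) (b : Polynomial ℂ)
    (h₀ : MvPolynomial (Fin N) ℂ) (hb : Pool.Agent.W574.LM.IsLocEq h₀ f b) (P : Fin N → ℂ)
    (hP : eval P h₀ ≠ 0) (c₀ : ℝ) (o : ℕ) (h : IsRelJump f P c₀ o) :
    (Polynomial.X - Polynomial.C (-(c₀ : ℂ))) ^ o ∣ b := by
  classical
  obtain ⟨H, M, g, c₁, hH, hc₁, hc₀, h1, h0, hlt, ho⟩ := h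
  obtain ⟨h2, h3⟩ := jump_main f hf b h₀ hb H M hH P hP g c₁ c₀ hc₁ hc₀ hlt
    (fun c hc0 hc => by
      obtain ⟨p, ρ, hρ, h⟩ := h1.1 c hc0 hc
      rw [relFun_one] at h
      exact ⟨p, ρ, hρ, h⟩)
    (fun c hc0 hc => h0.1 c hc0 hc)
  rw [Polynomial.C_neg, sub_neg_eq_add]
  rcases Nat.lt_or_ge o 2 with h4 | h4
  · have h5 : o = 0 ∨ o = 1 := by omega
    rcases h5 with rfl | rfl
    · rw [pow_zero]
      exact one_dvd _
    · have h6 := Polynomial.dvd_iff_isRoot.2 (show Polynomial.IsRoot b (-(c₀ : ℂ)) from h2 h0.2)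
      rw [Polynomial.C_neg, sub_neg_eq_add] at h6
      rw [pow_one]
      exact h6
  · have h5 := h3 (o - 1) (fun p ρ B hρ => ho h4 p ρ B hρ)
    have h6 : o - 1 + 1 = o := by omega
    rw [h6] at h5
    exact h5

/-- **The threshold of forms at the origin.** -/
theorem thr_of_light {n : ℕ} (d : ℕ) (hd : 0 < d) (f : Fin r → MvPolynomial (Fin (n + 1)) ℂ)
    (hf : ∀ j, (f j).IsHomogeneous d) (hf0 : ∃ j, f j ≠ 0) (H : MvPolynomial (Fin r) ℂ) (M p₀ : ℕ)
    (hH : H.IsHomogeneous M) (hne : aeval f H ≠ 0)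
    (hl : ∀ c : ℝ, 0 ≤ c → c < ((n : ℝ) + 1) / d →
      IntegrableOn (relFun f H M p₀ 1 c) {x | 1 / 2 ≤ ‖x‖ ∧ ‖x‖ ≤ 1}) :
    IsThreshold f H M 1 0 (((n : ℝ) + 1) / d) := by
  classical
  have hdR : (0 : ℝ) < d := by exact_mod_cast hd
  constructor
  · intro c hc0 hc
    refine ⟨p₀, 1, one_pos, ?_⟩
    rw [relFun_one]
    have h1 := hl c hc0 hc
    rw [relFun_one] at h1
    refine WNf_int (Nat.succ_pos n) f d hf H M hH p₀ h1 ?_
    rw [lt_div_iff₀ hdR] at hc
    push_cast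
    linarith
  · intro c hc p ρ hρ hI
    rw [relFun_one] at hI
    set F : (Fin (n + 1) → ℂ) → ℝ := fun x => Wt f H M x ^ p * Nf f x ^ (-c) with hF
    have hF0 : ∀ x, 0 ≤ F x := fun x =>
      mul_nonneg (pow_nonneg (Wt_nonneg _ _ _ _) _) (Real.rpow_nonneg (Nf_nonneg f x) _)
    have hpos : 0 < ∫ x in closedBall (0 : Fin (n + 1) → ℂ) ρ, F x := by
      rw [setIntegral_pos_iff_support_of_nonneg_ae (Eventually.of_forall hF0) hI]
      have h1 : volume (Function.support F ∩ closedBall (0 : Fin (n + 1) → ℂ) ρ) =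
          volume (closedBall (0 : Fin (n + 1) → ℂ) ρ) := by
        refine measure_congr ?_
        filter_upwards [Wt_ae f H M hne hf0, Nf_ae f hf0] with x hx hx2
        refine propext ⟨fun h => h.2, fun h => ⟨?_, h⟩⟩
        exact (mul_pos (pow_pos hx p) (Real.rpow_pos_of_pos hx2 _)).ne'
      rw [h1]
      exact measure_closedBall_pos _ _ hρ
    have h4 := Measure.setIntegral_comp_smul_of_pos (volume : Measure (Fin (n + 1) → ℂ)) F
      (closedBall (0 : Fin (n + 1) → ℂ) ρ) (by norm_num : (0 : ℝ) < 1 / 2)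
    have h5 : (1 / 2 : ℝ) • closedBall (0 : Fin (n + 1) → ℂ) ρ = closedBall 0 (ρ / 2) := by
      rw [_root_.smul_closedBall _ _ hρ.le, smul_zero, Real.norm_eq_abs,
        abs_of_pos (by norm_num : (0 : ℝ) < 1 / 2)]
      congr 1
      ring
    rw [h5, finrank_pi_complex, smul_eq_mul] at h4
    have h6 : ∀ x : Fin (n + 1) → ℂ, F ((1 / 2 : ℝ) • x) = (1 / 2 : ℝ) ^ (-(2 * d * c)) * F x := by
      intro x
      rw [hF]
      simp only
      rw [Wt_smul f d hf H M hH _ (by norm_num), Nf_smul f d hf,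
        abs_of_pos (by norm_num : (0 : ℝ) < 1 / 2),
        Real.mul_rpow (by positivity) (Nf_nonneg f x), ← Real.rpow_natCast (1 / 2 : ℝ) (2 * d),
        ← Real.rpow_mul (by norm_num)]
      push_cast
      ring_nf
    simp only [h6] at h4
    rw [integral_const_mul] at h4
    have h7 : ∫ x in closedBall (0 : Fin (n + 1) → ℂ) (ρ / 2), F x ≤
        ∫ x in closedBall (0 : Fin (n + 1) → ℂ) ρ, F x :=
      setIntegral_mono_set hI (Eventually.of_forall hF0)
        (Eventually.of_forall (closedBall_subset_closedBall (by linarith)))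
    set A := ∫ x in closedBall (0 : Fin (n + 1) → ℂ) ρ, F x with hA
    set B := ∫ x in closedBall (0 : Fin (n + 1) → ℂ) (ρ / 2), F x with hB
    have h8 : ((1 / 2 : ℝ) ^ (2 * (n + 1))) * ((1 / 2 : ℝ) ^ (-(2 * d * c)) * A) = B := by
      rw [h4]
      have : (1 / 2 : ℝ) ^ (2 * (n + 1)) ≠ 0 := by positivity
      rw [← mul_assoc, mul_inv_cancel₀ this, one_mul]
    have h9 : (1 : ℝ) < (1 / 2 : ℝ) ^ (2 * (n + 1)) * (1 / 2 : ℝ) ^ (-(2 * d * c)) := by
      rw [← Real.rpow_natCast (1 / 2 : ℝ), ← Real.rpow_add (by norm_num)]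
      refine Real.one_lt_rpow_of_pos_of_lt_one_of_neg (by norm_num) (by norm_num) ?_
      rw [div_lt_iff₀ hdR] at hc
      push_cast
      nlinarith
    have h10 : A < B := by
      rw [← h8, ← mul_assoc]
      nlinarith
    linarith

/-- Forms `f_j` of degree `d` in `x_0, ..., x_n` such that `w ^ p |f| ^ (-2 c)` is locally integrable
outside of the origin for `c < (n + 1) / d`, for some form `H` with `H(f) ≠ 0` and some `p`, where
`w = |H(f)| / |f| ^ M`: then `(n + 1) / d` is a relative jumping number at the origin. -/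
theorem relJump_of_light {n : ℕ} (d : ℕ) (hd : 0 < d) (f : Fin r → MvPolynomial (Fin (n + 1)) ℂ)
    (hf : ∀ j, (f j).IsHomogeneous d) (hf0 : ∃ j, f j ≠ 0) (H : MvPolynomial (Fin r) ℂ) (M p₀ : ℕ)
    (hH : H.IsHomogeneous M) (hne : aeval f H ≠ 0)
    (hl : ∀ c : ℝ, 0 ≤ c → c < ((n : ℝ) + 1) / d →
      IntegrableOn (relFun f H M p₀ 1 c) {x | 1 / 2 ≤ ‖x‖ ∧ ‖x‖ ≤ 1}) :
    IsRelJump f 0 (((n : ℝ) + 1) / d) 1 := by
  have h := thr_of_light d hd f hf hf0 H M p₀ hH hne hl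
  have hdR : (0 : ℝ) < d := by exact_mod_cast hd
  have hp : 0 < ((n : ℝ) + 1) / d := by positivity
  exact ⟨H, M, 1, _, hH, hp, hp, h, h, by linarith, fun h2 => absurd h2 (by norm_num)⟩

end Pool.Agent.H74T
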