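import Pool.Agent.H74T.GDefs
import Pool.Agent.H74T.StrongLoc
import Pool.Agent.H74T.Thr
import Pool.Agent.H74T.PlaneL
import Pool.Agent.H74A.VG
import Pool.Agent.W366.SI.I1
import Pool.Agent.Y230.TH.Mlt

set_option autoImplicit false
set_option linter.unusedSectionVars false
set_option linter.unusedVariables false

/-! # Germs of ideals which become cones: the theorem -/

namespace Pool.Agent.H74T

open MvPolynomial Pool.Agent.W574.SM Pool.Agent.N103.V Pool.Agent.N127.TW
open Pool.Agent.W574.HS (univ univ_ne_zero)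
open Pool.Agent.H628R4.TP (IsBFunction IsLocalBFunction)
open Pool.Agent.Y229.RE (trans trans_local)
open Pool.Agent.Y229.PS (formal_of_local IsFormalBFunction local_of_formal formal_of_unit coordB)
open Pool.Agent.W574.RO (functionalEq_equiv)
open Pool.Agent.Y230.PL (tt tt_mem tt_fac rm_le)

theorem linForm_eq {σ ι : Type} [Fintype ι] [DecidableEq ι] (f : ι → MvPolynomial σ ℂ) :
    linForm f = univ f := rfl

/-- the root of the ideals of forms -/
theorem ideal_root {n r : ℕ} (d : ℕ) (hd : 0 < d) (f : Fin r → MvPolynomial (Fin (n + 1)) ℂ)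
    (hf : ∀ j, (f j).IsHomogeneous d) (hf0 : ∃ j, f j ≠ 0)
    (hv : ∃ e : Fin (n + 1) → Fin r, (Matrix.of fun s t => pderiv s (f (e t))).det ≠ 0)
    (b : Polynomial ℂ) (hb : IsFunctionalEq f b) : b.eval (-((n : ℂ) + 1) / (d : ℂ)) = 0 := by
  classical
  obtain ⟨e, he⟩ := hv
  exact Pool.Agent.W574.CN.generic_root f d hd hf b hb e he

theorem univ_hom {σ ι : Type} [Fintype ι] [DecidableEq ι] (f : ι → MvPolynomial σ ℂ) (d : ℕ)
    (hf : ∀ j, (f j).IsHomogeneous d) : (univ f).IsHomogeneous (1 + d) := by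
  unfold Pool.Agent.W574.HS.univ
  refine IsHomogeneous.sum _ _ _ fun j _ => ?_
  exact (isHomogeneous_X ℂ _).mul ((hf j).rename_isHomogeneous)

/-- from germs to local functional equations -/
theorem local_of_germ {M : ℕ} {g : MvPowerSeries (Fin M) ℂ} {σ : Type} {F : MvPolynomial σ ℂ}
    (hg : BecomesAt g F) {b : Polynomial ℂ} (hb : IsFormalBFunction g b) :
    ∃ ε : σ ≃ Fin M, IsLocalBFunction (rename ε F) b := by
  obtain ⟨ε', φ, u, hφ, hφ0, hu, h3⟩ := hg
  obtain ⟨u, rfl⟩ := hu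
  refine ⟨ε', local_of_formal (formal_of_unit (Units.inv_mul u) ?_)⟩
  rw [← h3]
  exact coordB hφ hφ0 hb

theorem isB_of_equiv {σ σ' : Type} (ε : σ ≃ σ') (F : MvPolynomial σ ℂ) (b : Polynomial ℂ)
    (hb : IsBFunction F b) : IsBFunction (rename ε F) b := by
  classical
  refine Pool.Agent.Y229.isB_of_single _ b ?_
  refine functionalEq_equiv ε.symm (Equiv.refl (Fin 1)) (fun _ : Fin 1 => rename ε F)
    (fun _ : Fin 1 => F) (fun j => ?_) b (Pool.Agent.Y230.PS.single_of_isB _ b hb)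
  change F = rename ε.symm (rename ε F)
  rw [rename_rename]
  simp

/-- cancellation of the factor `s + 1` -/
theorem cancel_X1 {b' b'' : Polynomial ℂ}
    (h : (Polynomial.X + 1) * b' = (Polynomial.X + 1) * b'') : b' = b'' := by
  refine mul_left_cancel₀ ?_ h
  have h1 : (Polynomial.X + 1 : Polynomial ℂ) = Polynomial.X + Polynomial.C 1 := by
    rw [Polynomial.C_1]
  rw [h1]
  exact Polynomial.X_add_C_ne_zero 1

theorem reg_of_denom {s₀ : ℂ} {z : RatFunc ℂ} (h : z.denom.eval s₀ ≠ 0) : z ∈ Reg s₀ := by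
  exact ⟨z.num, z.denom, h, (RatFunc.num_div_denom z).symm⟩

theorem X1_reg (s₀ : ℂ) : (RatFunc.X + 1 : RatFunc ℂ) ∈ Reg s₀ := by
  refine Subring.add_mem _ ?_ (Subring.one_mem _)
  refine ⟨Polynomial.X, 1, by simp, ?_⟩
  rw [map_one, div_one, RatFunc.algebraMap_X]

/-- the rational functions with a pole of bounded order -/
theorem reg_of_le {s₀ : ℂ} {z : RatFunc ℂ} {k : ℕ} (h : z.denom.rootMultiplicity s₀ ≤ k) :
    tt s₀ ^ k * z ∈ Reg s₀ := by
  obtain ⟨q, hq, hnd⟩ := Polynomial.exists_eq_pow_rootMultiplicity_mul_and_not_dvd z.denom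
    z.denom_ne_zero s₀
  set e := z.denom.rootMultiplicity s₀ with he
  rw [Polynomial.dvd_iff_isRoot, Polynomial.IsRoot.def] at hnd
  refine ⟨(Polynomial.X - Polynomial.C s₀) ^ (k - e) * z.num, q, hnd, ?_⟩
  have hX : tt s₀ ≠ 0 := RatFunc.algebraMap_ne_zero (Polynomial.X_sub_C_ne_zero s₀)
  have hq0 : q ≠ 0 := by
    rintro rfl
    simp at hnd
  have hqa : algebraMap (Polynomial ℂ) (RatFunc ℂ) q ≠ 0 := RatFunc.algebraMap_ne_zero hq0
  have h1 : z = algebraMap (Polynomial ℂ) (RatFunc ℂ) z.num /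
      (tt s₀ ^ e * algebraMap (Polynomial ℂ) (RatFunc ℂ) q) := by
    conv_lhs => rw [← z.num_div_denom]
    rw [hq, map_mul, map_pow]
    rfl
  have h2 : tt s₀ ^ k = tt s₀ ^ (k - e) * tt s₀ ^ e := by
    rw [← pow_add, Nat.sub_add_cancel h]
  rw [map_mul, map_pow]
  change tt s₀ ^ k * z = tt s₀ ^ (k - e) * _ / _
  conv_lhs => rw [h1]
  rw [h2]
  field_simp

/-- The zeta functions of these germs have a pole of order at most the multiplicity of the root,
if the latter is smaller than `m`. -/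
theorem IGerm.reg {M : ℕ} {s₀ : ℂ} {m : ℕ} {g : MvPowerSeries (Fin M) ℂ} {z : RatFunc ℂ}
    (h : IGerm s₀ m g z) {b : Polynomial ℂ} (hb0 : b ≠ 0) (hμ : b.rootMultiplicity s₀ < m) :
    IsFormalBFunction g ((Polynomial.X + 1) * b) →
      tt s₀ ^ (b.rootMultiplicity s₀) * z ∈ Reg s₀ := by
  classical
  set μ := b.rootMultiplicity s₀ with hμd
  have hroot : b.eval s₀ = 0 ↔ μ ≠ 0 := by
    rw [← Nat.pos_iff_ne_zero, hμd, Polynomial.rootMultiplicity_pos hb0]
    rfl
  have hdvd : ∀ k : ℕ, (Polynomial.X - Polynomial.C s₀) ^ k ∣ b → k ≤ μ := fun k hk =>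
    (Polynomial.le_rootMultiplicity_iff hb0).2 hk
  have hsimple : ∀ w : RatFunc ℂ, (m ≤ 1 ∨ w.denom.rootMultiplicity s₀ ≤ 1) →
      (b.eval s₀ ≠ 0 → w ∈ Reg s₀) → tt s₀ ^ μ * w ∈ Reg s₀ := by
    intro w hm hw
    by_cases h0 : μ = 0
    · rw [h0, pow_zero, one_mul]
      exact hw fun h1 => (hroot.1 h1) h0
    · refine reg_of_le ?_
      rcases hm with hm | hm
      · omega
      · omega
  induction h with
  | plane g r f hf z hg hz =>
    intro hb
    obtain ⟨ε, h4⟩ := local_of_germ hg hb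
    obtain ⟨h, hh, hL⟩ := ideal_of_local f hf ε b h4
    refine reg_of_le (hdvd _ ?_)
    refine plane_mult f hf b h hL ?_ z hz s₀
    rw [eval_zero]
    exact hh
  | prin g σ F Z hg hZ hm =>
    intro hb
    refine hsimple _ hm fun hne => ?_
    have hG := sus_good hZ
    obtain ⟨ε, h4⟩ := local_of_germ hg hb
    have : Finite σ := Finite.of_injective (fun i => ε (Sum.inr i))
      (ε.injective.comp Sum.inr_injective)
    obtain ⟨h, hh, hL⟩ := ideal_of_local (fun _ : Fin 1 => F) ⟨0, hG.ne⟩ ε b h4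
    obtain ⟨L, m', Q, hQ⟩ := Pool.Agent.Y229.single_eq F h b hL
    have hHeq : Pool.Agent.N103.HEq h F b := by
      refine ⟨∑ i, Finsupp.single (m' i) ⟨(Q i).1, (Q i).2⟩, fun s => ?_⟩
      rw [hQ s, ← Finsupp.sum_finsetSum_index]
      · refine Finset.sum_congr rfl fun i _ => ?_
        rw [Finsupp.sum_single_index]
        exact smul_zero _
      · intro a
        exact smul_zero _
      · intro a A B
        rw [← smul_add]
        rfl
    have hh2 : MvPolynomial.eval (0 : σ → ℂ) h ≠ 0 := by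
      rw [eval_zero]
      exact hh
    refine hG.all le_rfl hh2 (Ev_of_heq hG.ne hHeq hne) ?_
    rintro rfl
    refine hne (root_minus_one (p := 0) hG.ne ?_ ?_ hHeq)
    · exact hG.zero
    · exact hh2
  | sus g σ F Z hg hZ hs hm =>
    intro hb
    refine hsimple _ hm fun hne => ?_
    refine Subring.mul_mem _ (X1_reg s₀) (germ_reg hZ hg hb le_rfl ?_)
    rw [Polynomial.eval_mul, Polynomial.eval_add, Polynomial.eval_X, Polynomial.eval_one]
    exact mul_ne_zero (fun h0 => hs (by linear_combination h0)) hne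
  | cone g n r d hd f hf hf0 hg ε l p z χ₀ χ hc hz ih =>
    intro hb
    obtain ⟨ε', h4⟩ := local_of_germ hg hb
    rw [linForm_eq] at h4
    have hne0 : rename ε' (univ f) ≠ 0 := fun h0 =>
      univ_ne_zero f hf0 (rename_injective ε' ε'.injective (by rw [h0, map_zero]))
    have hG : IsBFunction (univ f) ((Polynomial.X + 1) * b) :=
      isB_of_rename ε' _ _ (Pool.Agent.W574.MO.global_of_local _ hne0 (1 + d)
        ((univ_hom f d hf).rename_isHomogeneous) _ h4)
    have hG2 : IsBFunction (rename ε (univ f)) ((Polynomial.X + 1) * b) :=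
      isB_of_equiv ε _ _ hG
    have ihr : ∀ i, tt s₀ ^ μ * z i ∈ Reg s₀ := fun i =>
      ih i (formal_of_local (trans_local (p i) hG2))
    by_cases h1 : s₀ = -((n : ℂ) + 1) / d
    · rcases hc with hc | ⟨hc, hm⟩
      · exact absurd h1 hc
      have hbs : b.eval s₀ = 0 := by
        rw [h1]
        obtain ⟨b'', e, hfe⟩ := Pool.Agent.Y230.HS.functionalEq_of_univ_strong f _ hf0 hG
        rw [cancel_X1 e]
        exact ideal_root d hd f hf hf0 hc b'' hfe
      have hμ0 : μ ≠ 0 := hroot.1 hbs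
      have hreg : ∀ i, z i ∈ Reg s₀ := by
        rcases hm with hm | hm
        · omega
        · exact fun i => reg_of_denom (hm i)
      have e1 : tt s₀ ^ μ * (fac d (n + 1) * ((χ₀ : RatFunc ℂ) + ∑ i, (χ i : RatFunc ℂ) * z i)) =
          tt s₀ ^ (μ - 1) * (tt s₀ * fac d (n + 1)) *
            ((χ₀ : RatFunc ℂ) + ∑ i, (χ i : RatFunc ℂ) * z i) := by
        have e2 : tt s₀ ^ μ = tt s₀ ^ (μ - 1) * tt s₀ := by
          rw [← pow_succ]
          congr 1
          omega
        rw [e2]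
        ring
      rw [e1]
      exact Subring.mul_mem _ (Subring.mul_mem _ (Subring.pow_mem _ (tt_mem s₀) _)
        (tt_fac s₀ d (n + 1))) (sum_reg z hreg χ₀ χ)
    · have hfac : fac d (n + 1) ∈ Reg s₀ := by
        refine fac_mem d (n + 1) s₀ fun h0 => h1 ?_
        have hdc : (d : ℂ) ≠ 0 := Nat.cast_ne_zero.2 hd.ne'
        rw [eq_div_iff hdc]
        push_cast at h0
        linear_combination h0
      have e1 : tt s₀ ^ μ * (fac d (n + 1) * ((χ₀ : RatFunc ℂ) + ∑ i, (χ i : RatFunc ℂ) * z i)) =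
          fac d (n + 1) * (tt s₀ ^ μ * (χ₀ : RatFunc ℂ) +
            ∑ i, (χ i : RatFunc ℂ) * (tt s₀ ^ μ * z i)) := by
        rw [mul_left_comm, mul_add, Finset.mul_sum]
        congr 2
        refine Finset.sum_congr rfl fun i _ => ?_
        ring
      rw [e1]
      refine Subring.mul_mem _ hfac (Subring.add_mem _ (Subring.mul_mem _
        (Subring.pow_mem _ (tt_mem s₀) _) (intCast_mem _ _)) (Subring.sum_mem _ fun i _ =>
          Subring.mul_mem _ (intCast_mem _ _) (ihr i)))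
  | jump g N r f hf hg c₀ o hc₀ hs z hm =>
    intro hb
    obtain ⟨ε, h4⟩ := local_of_germ hg hb
    obtain ⟨h, hh, hL⟩ := ideal_of_local f hf ε b h4
    have h5 := relJump_root f hf b h hL 0 (by rw [eval_zero]; exact hh) c₀ o hc₀
    rw [← hs] at h5
    have h6 := hdvd o h5
    refine reg_of_le ?_
    rcases hm with hm | hm
    · omega
    · omega

/-- **The global theorem.** -/
theorem igerm_global {N r M : ℕ} (F : Fin r → MvPolynomial (Fin N) ℂ) (b : Polynomial ℂ)
    (hb : IsFunctionalEq F b) (ε : Fin r ⊕ Fin N ≃ Fin M) (s₀ : ℂ) (m l : ℕ)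
    (p : Fin l → Fin M → ℂ) (z : Fin l → RatFunc ℂ)
    (hz : ∀ i, IGerm s₀ m (trans (p i) (rename ε (linForm F)) : MvPowerSeries (Fin M) ℂ) (z i))
    (χ₀ : ℤ) (χ : Fin l → ℤ) :
    (Polynomial.X - Polynomial.C s₀) ^
      (min m (((χ₀ : RatFunc ℂ) + ∑ i, (χ i : RatFunc ℂ) * z i).denom.rootMultiplicity s₀)) ∣ b := by
  classical
  by_cases hb0 : b = 0
  · rw [hb0]
    exact dvd_zero _
  rcases le_or_gt m (b.rootMultiplicity s₀) with hm | hm
  · exact (pow_dvd_pow _ ((min_le_left _ _).trans hm)).trans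
      (Polynomial.pow_rootMultiplicity_dvd b s₀)
  have hG : IsBFunction (rename ε (univ F)) ((Polynomial.X + 1) * b) :=
    isB_of_equiv ε _ _ (Pool.Agent.W366.SI.taskI1 F b hb)
  have h1 : tt s₀ ^ (b.rootMultiplicity s₀) *
      ((χ₀ : RatFunc ℂ) + ∑ i, (χ i : RatFunc ℂ) * z i) ∈ Reg s₀ := by
    have e1 : tt s₀ ^ (b.rootMultiplicity s₀) *
        ((χ₀ : RatFunc ℂ) + ∑ i, (χ i : RatFunc ℂ) * z i) =
        tt s₀ ^ (b.rootMultiplicity s₀) * (χ₀ : RatFunc ℂ) +
          ∑ i, (χ i : RatFunc ℂ) * (tt s₀ ^ (b.rootMultiplicity s₀) * z i) := by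
      rw [mul_add, Finset.mul_sum]
      congr 1
      refine Finset.sum_congr rfl fun i _ => ?_
      ring
    rw [e1]
    exact Subring.add_mem _ (Subring.mul_mem _
        (Subring.pow_mem _ (tt_mem s₀) _) (intCast_mem _ _)) (Subring.sum_mem _ fun i _ =>
          Subring.mul_mem _ (intCast_mem _ _) ((hz i).reg hb0 hm
            (formal_of_local (trans_local (p i) hG))))
  exact (pow_dvd_pow _ ((min_le_right _ _).trans (rm_le s₀ _ _ h1))).trans
    (Polynomial.pow_rootMultiplicity_dvd b s₀)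

end Pool.Agent.H74T
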