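import Pool.Agent.H74T.Opr

set_option autoImplicit false
set_option linter.unusedSectionVars false
set_option linter.unusedVariables false

/-! # The functional equation with a numerator, integrated against exponentials -/

namespace Pool.Agent.H74T

open MvPolynomial MeasureTheory Pool.Agent.W574.SM Pool.Agent.Y230.AR Complex

/-- one-variable sums -/
theorem hasSum_desc (k : ℕ) (u f : ℂ) :
    HasSum (fun n : ℕ => u ^ n / (n.factorial : ℂ) * ((n.descFactorial k : ℕ) : ℂ) * f ^ (n - k))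
      (u ^ k * exp (u * f)) := by
  have h0 : ∑ i ∈ Finset.range k, u ^ i / (i.factorial : ℂ) * ((i.descFactorial k : ℕ) : ℂ) *
      f ^ (i - k) = 0 := by
    refine Finset.sum_eq_zero fun i hi => ?_
    rw [Nat.descFactorial_eq_zero_iff_lt.2 (Finset.mem_range.1 hi)]
    simp
  rw [← hasSum_nat_add_iff' k, h0, sub_zero]
  refine ((hasSum_exp' (u * f)).mul_left (u ^ k)).congr_fun fun n => ?_
  have h3 : n + k - k = n := by omega
  have h4 : ((n + k).factorial : ℂ) = (n.factorial : ℂ) * ((n + k).descFactorial k : ℂ) := by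
    have := Nat.factorial_mul_descFactorial (Nat.le_add_left k n)
    rw [h3] at this
    exact_mod_cast this.symm
  have h5 : (n.factorial : ℂ) ≠ 0 := Nat.cast_ne_zero.2 (Nat.factorial_ne_zero n)
  have h6 : ((n + k).descFactorial k : ℂ) ≠ 0 := by
    rw [Nat.cast_ne_zero]
    intro h
    rw [Nat.descFactorial_eq_zero_iff_lt] at h
    omega
  rw [h3, h4]
  field_simp
  ring

variable {σ ι : Type} [Fintype σ] [DecidableEq σ] [Fintype ι] [DecidableEq ι]

theorem contDiff_ev (g : MvPolynomial σ ℂ) :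
    ContDiff ℝ ((⊤ : ℕ∞) : WithTop ℕ∞) fun x : σ → ℂ => eval x g := by
  induction g using MvPolynomial.induction_on with
  | C a => simpa using contDiff_const
  | add p q hp hq =>
    simp only [map_add]
    exact hp.add hq
  | mul_X p i hp =>
    simp only [map_mul, eval_X]
    exact hp.mul (ContinuousLinearMap.proj (R := ℝ) (φ := fun _ : σ => ℂ) i).contDiff

theorem contDiff_conj_ev (g : MvPolynomial σ ℂ) :
    ContDiff ℝ ((⊤ : ℕ∞) : WithTop ℕ∞) fun x : σ → ℂ => (starRingEnd ℂ) (eval x g) :=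
  (conjCLE : ℂ →L[ℝ] ℂ).contDiff.comp (contDiff_ev g)

theorem eval_aeval (f : ι → MvPolynomial σ ℂ) (A : MvPolynomial ι ℂ) (x : σ → ℂ) :
    eval x (aeval f A) = eval (fun j => eval x (f j)) A := by
  induction A using MvPolynomial.induction_on with
  | C a => simp
  | add p q hp hq => simp only [map_add, hp, hq]
  | mul_X p i hp => simp only [map_mul, hp, aeval_X, eval_X]

theorem aeval_mon (f : ι → MvPolynomial σ ℂ) (n : ι → ℕ) : aeval f (mon n) = ∏ j, f j ^ n j := by
  unfold mon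
  rw [map_prod]
  exact Finset.prod_congr rfl fun j _ => by rw [map_pow, aeval_X]

/-- The terms of the right hand side. -/
theorem sum_term {K : Set (σ → ℂ)} (hK : IsCompact K) (f : ι → MvPolynomial σ ℂ)
    (γ : ι → ℕ) (A : MvPolynomial ι ℂ) (G : MvPolynomial σ ℂ) (τ : ℝ) {φ : (σ → ℂ) → ℂ}
    (hφ : Test K φ) :
    HasSum (fun n : ι → ℕ => (∏ j, (-(τ : ℂ)) ^ n j / ((n j).factorial : ℂ)) *
      ∫ x, gh (aeval f (Dm γ n * A)) ((∏ j, f j ^ n j) * G) x * φ x)
      (∫ x, (∏ j, ((-(τ : ℂ) * (starRingEnd ℂ) (eval x (f j))) ^ γ j *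
        exp (-(τ : ℂ) * (starRingEnd ℂ) (eval x (f j)) * eval x (f j)))) *
          (eval x (aeval f A) * (starRingEnd ℂ) (eval x G) * φ x)) := by
  obtain ⟨M, hM, hfM⟩ := exists_bd hK f
  set g : (ι → ℕ) → (σ → ℂ) → ℂ := fun n x => ∏ j,
    ((-(τ : ℂ) * (starRingEnd ℂ) (eval x (f j))) ^ n j / ((n j).factorial : ℂ) *
      (((n j).descFactorial (γ j) : ℕ) : ℂ) * (eval x (f j)) ^ (n j - γ j)) with hg
  have hgc : ∀ n, Continuous (g n) := by
    intro n
    refine continuous_finsetProd _ fun j _ => ?_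
    have h1 := continuous_ev (f j)
    have h2 := Complex.continuous_conj.comp (continuous_ev (f j))
    exact ((((continuous_const.mul h2).pow _).div_const _).mul continuous_const).mul (h1.pow _)
  set a : ι → ℕ → ℂ := fun j n => (((|τ| * M : ℝ) : ℂ)) ^ n / (n.factorial : ℂ) *
      (((n).descFactorial (γ j) : ℕ) : ℂ) * ((M : ℂ)) ^ (n - γ j) with ha
  have hs := (hasSum_pi a _ (fun j => hasSum_desc (γ j) ((|τ| * M : ℝ) : ℂ) (M : ℂ))).summable.norm
  have hφ' : Test K (fun x => eval x (aeval f A) * (starRingEnd ℂ) (eval x G) * φ x) := by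
    have := hφ.mul ((contDiff_ev (aeval f A)).mul (contDiff_conj_ev G))
    exact this
  have h1 := hasSum_int hK g hgc _ hs (by
    intro n x hx
    rw [hg, ha]
    simp only
    rw [norm_prod, norm_prod]
    refine Finset.prod_le_prod (fun j _ => norm_nonneg _) fun j _ => ?_
    simp only [norm_mul, norm_div, norm_pow, norm_neg, Complex.norm_real, RCLike.norm_conj,
      Real.norm_eq_abs, abs_mul, abs_abs, abs_of_nonneg hM]
    have h3 := hfM x hx j
    gcongr)
    (fun x => ∏ j, ((-(τ : ℂ) * (starRingEnd ℂ) (eval x (f j))) ^ γ j *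
        exp (-(τ : ℂ) * (starRingEnd ℂ) (eval x (f j)) * eval x (f j)))) (by
    intro x
    exact hasSum_pi (fun j n => (-(τ : ℂ) * (starRingEnd ℂ) (eval x (f j))) ^ n /
      (n.factorial : ℂ) * ((n.descFactorial (γ j) : ℕ) : ℂ) * (eval x (f j)) ^ (n - γ j)) _
      (fun j => hasSum_desc (γ j) _ _)) hφ'
  refine h1.congr_fun fun n => ?_
  rw [← integral_const_mul]
  refine integral_congr_ae (Filter.Eventually.of_forall fun x => ?_)
  simp only [gh, hg]
  rw [map_mul (aeval f), map_mul (eval x), Dm, map_mul (aeval f), map_mul (eval x), aeval_mon]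
  simp only [map_mul, map_prod, map_pow, Pi.sub_apply]
  rw [show (aeval f) (C ((∏ j, (n j).descFactorial (γ j) : ℕ) : ℂ)) =
    (C ((∏ j, (n j).descFactorial (γ j) : ℕ) : ℂ) : MvPolynomial σ ℂ) from by
      rw [aeval_C]; rfl, eval_C]
  push_cast
  have e1 : ∏ j, ((-(τ : ℂ) * (starRingEnd ℂ) (eval x (f j))) ^ n j / ((n j).factorial : ℂ) *
      ((n j).descFactorial (γ j) : ℂ) * eval x (f j) ^ (n j - γ j)) =
      (∏ j, (-(τ : ℂ)) ^ n j / ((n j).factorial : ℂ)) * (∏ j, ((n j).descFactorial (γ j) : ℂ)) *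
      (∏ j, eval x (f j) ^ (n j - γ j)) * ∏ j, (starRingEnd ℂ) (eval x (f j)) ^ n j := by
    rw [← Finset.prod_mul_distrib, ← Finset.prod_mul_distrib, ← Finset.prod_mul_distrib]
    refine Finset.prod_congr rfl fun j _ => ?_
    rw [mul_pow]
    ring
  rw [e1]
  ring

/-- the constant shifted polynomial -/
noncomputable def shiftB (b : Polynomial ℂ) (M : ℕ) : Polynomial ℂ :=
  b.comp (Polynomial.X + Polynomial.C (M : ℂ))

theorem shiftB_eval (b : Polynomial ℂ) (M : ℕ) (z : ℂ) :
    (shiftB b M).eval z = b.eval (z + M) := by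
  rw [shiftB, Polynomial.eval_comp]
  simp

/-- The functional equation applied to a polynomial in the generators, homogeneous of degree `M` -/
theorem fe_num (f : ι → MvPolynomial σ ℂ) (b : Polynomial ℂ) (S0 : Finset (ι → ℤ))
    (P : (ι → ℤ) → ((ι →₀ ℕ) →₀ weyl σ))
    (hfe : ∀ s : ι → ℕ, C (b.eval ((∑ j, s j : ℕ) : ℂ)) * ∏ j, f j ^ s j =
        ∑ c ∈ S0, applyAt (P c) s
          (C ((∏ j, (if c j < 0 then (s j).choose (-c j).toNat else 1) : ℕ) : ℂ) *
            ∏ j, f j ^ ((s j : ℤ) + c j).toNat))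
    (L : (ι → ℤ) → (ι →₀ ℕ) → MvPolynomial ι ℂ →ₗ[ℂ] MvPolynomial ι ℂ)
    (hL : ∀ c β s, L c β (mon s) = C (∏ j, ((s j : ℂ) ^ β j *
      ((if c j < 0 then (s j).choose (-c j).toNat else 1 : ℕ) : ℂ))) *
        mon (fun j => ((s j : ℤ) + c j).toNat))
    (H : MvPolynomial ι ℂ) (M : ℕ) (hH : H.IsHomogeneous M) (n : ι → ℕ) :
    C ((shiftB b M).eval ((∑ j, n j : ℕ) : ℂ)) * ((∏ j, f j ^ n j) * aeval f H) =
      ∑ c ∈ S0, ∑ β ∈ (P c).support, ((P c β : weyl σ) : Module.End ℂ (MvPolynomial σ ℂ))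
        (aeval f (L c β (mon n * H))) := by
  classical
  have hmon : ∀ s : ι →₀ ℕ, (monomial s (1 : ℂ) : MvPolynomial ι ℂ) = mon s := by
    intro s
    rw [mon, monomial_eq, C_1, one_mul, Finsupp.prod_fintype _ _ fun i => pow_zero _]
  have hmm : ∀ m : ι → ℕ, mon n * mon m = mon (n + m) := by
    intro m
    unfold mon
    rw [← Finset.prod_mul_distrib]
    exact Finset.prod_congr rfl fun j _ => by rw [Pi.add_apply, pow_add]
  have hHs : H = ∑ m ∈ H.support, coeff m H • mon m := by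
    conv_lhs => rw [H.as_sum]
    refine Finset.sum_congr rfl fun m _ => ?_
    rw [← hmon, smul_monomial, smul_eq_mul, mul_one]
  have key : ∀ m ∈ H.support, C ((shiftB b M).eval ((∑ j, n j : ℕ) : ℂ)) *
      aeval f (mon n * mon (m : ι → ℕ)) = ∑ c ∈ S0, ∑ β ∈ (P c).support,
        ((P c β : weyl σ) : Module.End ℂ (MvPolynomial σ ℂ)) (aeval f (L c β (mon n * mon m))) := by
    intro m hm
    have hdeg : ∑ j, m j = M := by
      have h1 := hH (mem_support_iff.1 hm)
      rw [← h1, Finsupp.weight_apply, Finsupp.sum_fintype _ _ fun i => by simp]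
      simp
    rw [hmm, aeval_mon]
    have h2 := hfe (n + m)
    have h3 : ((∑ j, (n + m : ι → ℕ) j : ℕ) : ℂ) = ((∑ j, n j : ℕ) : ℂ) + M := by
      simp only [Pi.add_apply]
      rw [Finset.sum_add_distrib, hdeg]
      push_cast
      rfl
    rw [shiftB_eval, ← h3, h2]
    refine Finset.sum_congr rfl fun c _ => ?_
    rw [applyAt, Finsupp.sum]
    refine Finset.sum_congr rfl fun β _ => ?_
    rw [hL, map_mul (aeval f), aeval_mon, ← map_smul]
    congr 1
    rw [show (aeval f) (C (∏ j, (((n + m : ι → ℕ) j : ℂ) ^ β j * ((if c j < 0 then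
      ((n + m : ι → ℕ) j).choose (-c j).toNat else 1 : ℕ) : ℂ)))) =
      (C (∏ j, (((n + m : ι → ℕ) j : ℂ) ^ β j * ((if c j < 0 then
      ((n + m : ι → ℕ) j).choose (-c j).toNat else 1 : ℕ) : ℂ))) : MvPolynomial σ ℂ) from by
        rw [aeval_C]; rfl, Finset.prod_mul_distrib, C_mul, smul_eq_C_mul]
    push_cast
    ring
  have e1 : (∏ j, f j ^ n j) * aeval f H = ∑ m ∈ H.support, coeff m H • aeval f (mon n * mon m) := by
    conv_lhs => rw [hHs]
    rw [map_sum, Finset.mul_sum]
    refine Finset.sum_congr rfl fun m _ => ?_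
    rw [map_smul, map_mul, aeval_mon, aeval_mon, mul_smul_comm]
  have e2 : ∀ c β, aeval f (L c β (mon n * H)) =
      ∑ m ∈ H.support, coeff m H • aeval f (L c β (mon n * mon m)) := by
    intro c β
    conv_lhs => rw [hHs]
    rw [Finset.mul_sum, map_sum, map_sum]
    refine Finset.sum_congr rfl fun m _ => ?_
    rw [mul_smul_comm, map_smul, map_smul]
  rw [e1, Finset.mul_sum]
  have e3 : ∀ m ∈ H.support, C ((shiftB b M).eval ((∑ j, n j : ℕ) : ℂ)) *
      coeff m H • aeval f (mon n * mon m) = coeff m H • ∑ c ∈ S0, ∑ β ∈ (P c).support,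
        ((P c β : weyl σ) : Module.End ℂ (MvPolynomial σ ℂ)) (aeval f (L c β (mon n * mon m))) := by
    intro m hm
    rw [mul_smul_comm, key m hm]
  rw [Finset.sum_congr rfl e3]
  simp only [e2, map_sum, map_smul]
  rw [← Finset.sum_congr rfl fun c _ => Finset.sum_congr rfl fun β _ => rfl]
  simp only [Finset.smul_sum]
  rw [Finset.sum_comm]
  refine Finset.sum_congr rfl fun c _ => ?_
  rw [Finset.sum_comm]

end Pool.Agent.H74T
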