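import Pool.Agent.H74T.Id

set_option autoImplicit false
set_option linter.unusedSectionVars false
set_option linter.unusedVariables false

/-! # The integrated functional equation with a numerator -/

namespace Pool.Agent.H74T

open MvPolynomial MeasureTheory Pool.Agent.W574.SM Pool.Agent.Y230.AR Complex

variable {σ ι : Type} [Fintype σ] [DecidableEq σ] [Fintype ι] [DecidableEq ι]

/-- The terms of the right hand side of the integrated functional equation. -/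
noncomputable def Rg (f : ι → MvPolynomial σ ℂ) (γ : ι → ℕ) (A : MvPolynomial ι ℂ) (τ : ℝ)
    (x : σ → ℂ) : ℂ :=
  (∏ j, ((-(τ : ℂ) * (starRingEnd ℂ) (eval x (f j))) ^ γ j *
    exp (-(τ : ℂ) * (starRingEnd ℂ) (eval x (f j)) * eval x (f j)))) * eval x (aeval f A)

/-- **The integrated functional equation with a numerator.** -/
theorem key_ident' {K : Set (σ → ℂ)} (hK : IsCompact K) (f : ι → MvPolynomial σ ℂ)
    (b : Polynomial ℂ) (hb : IsFunctionalEq f b) (H₁ : MvPolynomial ι ℂ) (M₁ : ℕ)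
    (hH : H₁.IsHomogeneous M₁) :
    ∃ k : ℕ, ∀ (p : ℕ) (T : Polynomial ℂ), SerG (shiftB b (M₁ * p)) T →
      ∀ {φ : (σ → ℂ) → ℂ}, Test K φ →
    ∃ (I : Type) (_ : Fintype I) (γ : I → ι → ℕ) (A : I → MvPolynomial ι ℂ)
      (ψ : I → (σ → ℂ) → ℂ),
      (∀ i, A i ∈ TT H₁ M₁ p k (M₁ * p + (∑ j, γ i j : ℕ) + 1) ∧ Test K (ψ i)) ∧
      ∀ τ : ℝ, ∫ x, T.eval (-(τ * Nf f x : ℂ)) * exp (-(τ * Nf f x : ℂ)) *
          ((‖eval x (aeval f H₁)‖ ^ (2 * p) : ℝ) * φ x) =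
        ∑ i, ∫ x, Rg f (γ i) (A i) τ x * ((starRingEnd ℂ) (eval x (aeval f (H₁ ^ p))) * ψ i x) := by
  classical
  obtain ⟨S0, P, hS, hfe⟩ := hb
  have hop := fun (c : ι → ℤ) (β : ι →₀ ℕ) => exists_opr c β
  choose kk L hL1 hL2 using hop
  set S : Finset ((ι → ℤ) × (ι →₀ ℕ)) :=
    (S0.sigma fun c => (P c).support).image fun p => (p.1, p.2) with hSdef
  have hmem : ∀ p : (ι → ℤ) × (ι →₀ ℕ), p ∈ S ↔ p.1 ∈ S0 ∧ p.2 ∈ (P p.1).support := by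
    intro p
    rw [hSdef, Finset.mem_image]
    constructor
    · rintro ⟨q, hq, rfl⟩
      exact Finset.mem_sigma.1 hq
    · intro h
      exact ⟨⟨p.1, p.2⟩, Finset.mem_sigma.2 h, rfl⟩
  refine ⟨∑ q ∈ S, kk q.1 q.2, fun p T hT φ hφ => ?_⟩
  have hadj : ∀ (c : ι → ℤ) (β : ι →₀ ℕ), ∃ ψ : (σ → ℂ) → ℂ, Test K ψ ∧
      ∀ g h : MvPolynomial σ ℂ, ∫ x, gh (((P c β : weyl σ) : Module.End ℂ (MvPolynomial σ ℂ)) g) h x
        * φ x = ∫ x, gh g h x * ψ x := fun c β => adj hK _ (P c β).2 φ hφ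
  choose ψ hψ hψe using hadj
  have hst := fun (c : ι → ℤ) (β : ι →₀ ℕ) => (hL1 c β).struct H₁ M₁ p hH
  choose J hJ γ A hA1 hA2 using hst
  letI : ∀ q : S, Fintype (J q.1.1 q.1.2) := fun q => hJ q.1.1 q.1.2
  refine ⟨Σ q : S, J q.1.1 q.1.2, inferInstance,
    fun i => γ i.1.1.1 i.1.1.2 i.2,
    fun i => A i.1.1.1 i.1.1.2 i.2, fun i => ψ i.1.1.1 i.1.1.2, fun i => ⟨?_, hψ _ _⟩,
    fun τ => ?_⟩
  · have h1 := hA1 i.1.1.1 i.1.1.2 i.2
    have h2 := hS i.1.1.1 ((hmem i.1.1).1 i.1.2).1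
    rw [h2] at h1
    exact TT.mono (Finset.single_le_sum (f := fun q : (ι → ℤ) × (ι →₀ ℕ) => kk q.1 q.2)
      (fun _ _ => Nat.zero_le _) i.1.2) rfl h1
  -- the left hand side
  have hφ' : Test K (fun x => ((‖eval x (aeval f H₁)‖ ^ (2 * p) : ℝ) : ℂ) * φ x) := by
    have h1 : (fun x => ((‖eval x (aeval f H₁)‖ ^ (2 * p) : ℝ) : ℂ) * φ x) =
        fun x => (eval x (aeval f (H₁ ^ p)) * (starRingEnd ℂ) (eval x (aeval f (H₁ ^ p)))) * φ x := by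
      funext x
      congr 1
      rw [Complex.mul_conj', map_pow, map_pow, norm_pow]
      push_cast
      ring
    rw [h1]
    exact hφ.mul ((contDiff_ev _).mul (contDiff_conj_ev _))
  have h1 := sum_lhs hK f (shiftB b (M₁ * p)) T hT τ hφ'
  -- the right hand side
  have h2 : HasSum (fun n : ι → ℕ => ∑ i : (Σ q : S, J q.1.1 q.1.2),
      (∏ j, (-(τ : ℂ)) ^ n j / ((n j).factorial : ℂ)) *
      ∫ x, gh (aeval f (Dm (γ i.1.1.1 i.1.1.2 i.2) n * A i.1.1.1 i.1.1.2 i.2))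
        ((∏ j, f j ^ n j) * aeval f (H₁ ^ p)) x * ψ i.1.1.1 i.1.1.2 x)
      (∑ i : (Σ q : S, J q.1.1 q.1.2), ∫ x, Rg f (γ i.1.1.1 i.1.1.2 i.2)
        (A i.1.1.1 i.1.1.2 i.2) τ x * ((starRingEnd ℂ) (eval x (aeval f (H₁ ^ p))) *
          ψ i.1.1.1 i.1.1.2 x)) := by
    refine hasSum_sum fun i _ => ?_
    have h3 := sum_term hK f (γ i.1.1.1 i.1.1.2 i.2) (A i.1.1.1 i.1.1.2 i.2) (aeval f (H₁ ^ p)) τ
      (hψ i.1.1.1 i.1.1.2)
    have h4 : (∫ x, Rg f (γ i.1.1.1 i.1.1.2 i.2)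
        (A i.1.1.1 i.1.1.2 i.2) τ x * ((starRingEnd ℂ) (eval x (aeval f (H₁ ^ p))) *
          ψ i.1.1.1 i.1.1.2 x)) = ∫ x, (∏ j, ((-(τ : ℂ) * (starRingEnd ℂ) (eval x (f j))) ^
            γ i.1.1.1 i.1.1.2 i.2 j *
        exp (-(τ : ℂ) * (starRingEnd ℂ) (eval x (f j)) * eval x (f j)))) *
          (eval x (aeval f (A i.1.1.1 i.1.1.2 i.2)) * (starRingEnd ℂ)
            (eval x (aeval f (H₁ ^ p))) * ψ i.1.1.1 i.1.1.2 x) := by
      refine integral_congr_ae (Filter.Eventually.of_forall fun x => ?_)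
      simp only [Rg]
      ring
    rw [h4]
    exact h3
  have hint : ∀ (g h : MvPolynomial σ ℂ) {ψ' : (σ → ℂ) → ℂ}, Test K ψ' →
      Integrable (fun x => gh g h x * ψ' x) := fun g h ψ' hψ' =>
    integrable_mul hK (continuous_gh g h) hψ'.1.continuous hψ'.2
  have hsum : ∀ {κ : Type} (s : Finset κ) (G : κ → MvPolynomial σ ℂ) (h : MvPolynomial σ ℂ)
      {ψ' : (σ → ℂ) → ℂ}, Test K ψ' →
      ∫ x, gh (∑ k ∈ s, G k) h x * ψ' x = ∑ k ∈ s, ∫ x, gh (G k) h x * ψ' x := by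
    intro κ s G h ψ' hψ'
    rw [← integral_finset_sum _ fun k _ => hint (G k) h hψ']
    refine integral_congr_ae (Filter.Eventually.of_forall fun x => ?_)
    simp only [gh, map_sum, Finset.sum_mul]
  refine h1.unique ?_
  refine h2.congr_fun fun n => ?_
  rw [← Finset.mul_sum]
  congr 1
  have h5 : ∫ x, gh (C ((shiftB b (M₁ * p)).eval ((∑ j, n j : ℕ) : ℂ)) * ∏ j, f j ^ n j)
      (∏ j, f j ^ n j) x * (((‖eval x (aeval f H₁)‖ ^ (2 * p) : ℝ) : ℂ) * φ x) =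
      ∫ x, gh (C ((shiftB b (M₁ * p)).eval ((∑ j, n j : ℕ) : ℂ)) *
        ((∏ j, f j ^ n j) * aeval f (H₁ ^ p))) ((∏ j, f j ^ n j) * aeval f (H₁ ^ p)) x * φ x := by
    refine integral_congr_ae (Filter.Eventually.of_forall fun x => ?_)
    have h6 : ((‖eval x (aeval f H₁)‖ ^ (2 * p) : ℝ) : ℂ) =
        eval x (aeval f (H₁ ^ p)) * (starRingEnd ℂ) (eval x (aeval f (H₁ ^ p))) := by
      rw [Complex.mul_conj', map_pow, map_pow, norm_pow]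
      push_cast
      ring
    simp only [h6, gh, map_mul]
    ring
  have hHp : (H₁ ^ p).IsHomogeneous (M₁ * p) := hH.pow p
  rw [h5, fe_num f b S0 P hfe L hL2 (H₁ ^ p) (M₁ * p) hHp n, hsum _ _ _ hφ]
  have h7 : ∀ c ∈ S0, ∫ x, gh (∑ β ∈ (P c).support, ((P c β : weyl σ) :
      Module.End ℂ (MvPolynomial σ ℂ)) (aeval f (L c β (mon n * H₁ ^ p))))
        ((∏ j, f j ^ n j) * aeval f (H₁ ^ p)) x * φ x = ∑ β ∈ (P c).support,
        ∑ i, ∫ x, gh (aeval f (Dm (γ c β i) n * A c β i))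
          ((∏ j, f j ^ n j) * aeval f (H₁ ^ p)) x * ψ c β x := by
    intro c _
    rw [hsum _ _ _ hφ]
    refine Finset.sum_congr rfl fun β _ => ?_
    rw [hψe, hA2, map_sum, hsum _ _ _ (hψ c β)]
  rw [Finset.sum_congr rfl h7, ← Finset.univ_sigma_univ, Finset.sum_sigma]
  have h8 := Finset.sum_coe_sort S (fun q : (ι → ℤ) × (ι →₀ ℕ) => ∑ i : J q.1 q.2,
    ∫ x, gh (aeval f (Dm (γ q.1 q.2 i) n * A q.1 q.2 i))
          ((∏ j, f j ^ n j) * aeval f (H₁ ^ p)) x * ψ q.1 q.2 x)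
  refine Eq.trans ?_ h8.symm
  rw [hSdef, Finset.sum_image, Finset.sum_sigma]
  rintro ⟨a, b⟩ _ ⟨c, d⟩ _ h
  simp only [Prod.mk.injEq] at h
  obtain ⟨rfl, rfl⟩ := h
  rfl

end Pool.Agent.H74T
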