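import Pool.Agent.H74T.Bound
import Pool.Agent.Y230.AR.Mult

set_option autoImplicit false
set_option linter.unusedSectionVars false
set_option linter.unusedVariables false

/-! # The key estimate with a numerator -/

namespace Pool.Agent.H74T

open MvPolynomial MeasureTheory Pool.Agent.W574.SM Pool.Agent.Y230.AR Complex

variable {σ ι : Type} [Fintype σ] [DecidableEq σ] [Fintype ι] [DecidableEq ι]

theorem H_eq (f : ι → MvPolynomial σ ℂ) (H₁ : MvPolynomial ι ℂ) (M₁ p : ℕ) (x : σ → ℂ)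
    (hx : 0 < Nf f x) (a : ℝ) :
    ‖eval x (aeval f H₁)‖ ^ (2 * p) * Nf f x ^ (-(a + (M₁ * p : ℕ))) =
      Wt f H₁ M₁ x ^ (2 * p) * Nf f x ^ (-a) := by
  have h1 : ‖eval x (aeval f H₁)‖ = Wt f H₁ M₁ x * Real.sqrt (Nf f x) ^ M₁ := by
    rw [Wt, div_mul_cancel₀ _ (pow_pos (Real.sqrt_pos.2 hx) _).ne']
  rw [h1, mul_pow, ← pow_mul, show M₁ * (2 * p) = 2 * (M₁ * p) by ring, pow_mul (Real.sqrt _) 2,
    Real.sq_sqrt hx.le, neg_add, Real.rpow_add hx, Real.rpow_neg hx.le ((M₁ * p : ℕ) : ℝ),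
    Real.rpow_natCast]
  have h2 : Nf f x ^ (M₁ * p) ≠ 0 := (pow_pos hx _).ne'
  field_simp

/-- **The key estimate with a numerator.** -/
theorem key_bound' {K : Set (σ → ℂ)} (hK : IsCompact K) (f : ι → MvPolynomial σ ℂ)
    (b : Polynomial ℂ) (hb : IsFunctionalEq f b) (H₁ : MvPolynomial ι ℂ) (M₁ : ℕ)
    (hH : H₁.IsHomogeneous M₁) : ∃ k : ℕ, ∀ p, k ≤ p → ∀ (φ : (σ → ℂ) → ℝ)
    (_ : Test K (fun x => (φ x : ℂ))) (_ : ∀ x, 0 ≤ φ x),
    ∃ Cst : ℝ, 0 ≤ Cst ∧ ∀ a : ℝ, 0 < a → (∀ᵐ x ∂(volume.restrict K), 0 < Nf f x) →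
      IntegrableOn (fun x => Wt f H₁ M₁ x ^ p * Nf f x ^ (-a)) K →
      ‖b.eval (-(a : ℂ))‖ * ∫ x in K, Wt f H₁ M₁ x ^ (2 * p) * Nf f x ^ (-a) * φ x ≤
        Cst * 2 ^ a * ∫ x in K, Wt f H₁ M₁ x ^ p * Nf f x ^ (1 / 2 - a) := by
  classical
  obtain ⟨k, hk⟩ := key_ident' hK f b hb H₁ M₁ hH
  refine ⟨k, fun p hkp φ hφ hφ0 => ?_⟩
  set M : ℕ := M₁ * p with hM
  obtain ⟨T, hT⟩ := exists_serG (shiftB b M)
  obtain ⟨I, hIf, γ, A, ψ, hS, hident⟩ := hk p T hT hφ
  obtain ⟨CW, hCW0, hCW⟩ := Wt_bound f H₁ M₁ hH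
  have hRb : ∀ i : I, ∃ L : ℝ, 0 ≤ L ∧ ∀ τ : ℝ, 0 ≤ τ → ∀ x, 0 < Nf f x →
      ‖Rg f (γ i) (A i) τ x * (starRingEnd ℂ) (eval x (aeval f (H₁ ^ p)))‖ ≤
        L * (Wt f H₁ M₁ x ^ p * Real.sqrt (Nf f x) ^ (2 * M + 1) *
          Real.exp (-(τ * Nf f x) / 2)) :=
    fun i => Rg_bound f H₁ M₁ p k hH hkp (γ i) (A i) (hS i).1
  choose L hL0 hL using hRb
  have hψb : ∀ i : I, ∃ B : ℝ, 0 ≤ B ∧ ∀ x, ‖ψ i x‖ ≤ B := by
    intro i
    have h1 := (hS i).2
    have h2 : HasCompactSupport (ψ i) := hK.of_isClosed_subset (isClosed_tsupport _) h1.2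
    obtain ⟨B, hB⟩ := h2.exists_bound_of_continuous h1.1.continuous
    exact ⟨max B 0, le_max_right _ _, fun x => (hB x).trans (le_max_left _ _)⟩
  choose B hB0 hB using hψb
  set G : ℝ := ∑ i, L i * B i with hG
  have hG0 : 0 ≤ G := Finset.sum_nonneg fun i _ => mul_nonneg (hL0 i) (hB0 i)
  refine ⟨G * 2 ^ M, by positivity, fun a ha hpos hI => ?_⟩
  set a' : ℝ := a + M with ha'
  have ha'0 : 0 < a' := by positivity
  set μ := (volume : Measure (σ → ℂ)).restrict K with hμ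
  set ν := (volume : Measure ℝ).restrict (Set.Ioi 0) with hν
  have hNc := continuous_Nf f
  have hNm := hNc.measurable
  set W : (σ → ℂ) → ℝ := Wt f H₁ M₁ with hW
  have hWm : Measurable W := Wt_meas f H₁ M₁
  have hW0 : ∀ x, 0 ≤ W x := Wt_nonneg f H₁ M₁
  have hφc : Continuous φ := by
    have h0 : φ = fun x => ((φ x : ℂ)).re := by
      funext x
      rw [Complex.ofReal_re]
    rw [h0]
    exact Complex.continuous_re.comp hφ.1.continuous
  have hcs : HasCompactSupport (fun x => (φ x : ℂ)) :=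
    hK.of_isClosed_subset (isClosed_tsupport _) hφ.2
  obtain ⟨Bφ, hBφ⟩ := hcs.exists_bound_of_continuous hφ.1.continuous
  have hBφ' : ∀ x, φ x ≤ Bφ := fun x => by
    have := hBφ x
    rw [Complex.norm_real, Real.norm_eq_abs, abs_of_nonneg (hφ0 x)] at this
    exact this
  have hBφ0 : 0 ≤ Bφ := (hφ0 0).trans (hBφ' 0)
  set h : (σ → ℂ) → ℝ := fun x => ‖eval x (aeval f H₁)‖ ^ (2 * p) with hh
  have hhc : Continuous h := (continuous_ev (aeval f H₁)).norm.pow _
  have hh0 : ∀ x, 0 ≤ h x := fun x => by positivity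
  -- bounds
  obtain ⟨KT, hKT0, hKT⟩ := poly_le_exp' T (1 / 2) (by norm_num)
  have hTb : ∀ τ : ℝ, 0 ≤ τ → ∀ x, ‖T.eval (-(τ * Nf f x : ℂ)) * exp (-(τ * Nf f x : ℂ))‖ ≤
      KT * Real.exp (-(τ * Nf f x) / 2) := by
    intro τ hτ x
    have hN0 := Nf_nonneg f x
    have e1 : -(τ * Nf f x : ℂ) = ((-(τ * Nf f x) : ℝ) : ℂ) := by push_cast; rfl
    rw [norm_mul, e1, Complex.norm_exp, Complex.ofReal_re]
    refine (mul_le_mul_of_nonneg_right (hKT _) (Real.exp_pos _).le).trans ?_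
    rw [mul_assoc, ← Real.exp_add, Complex.norm_real, Real.norm_eq_abs, abs_neg,
      abs_of_nonneg (by positivity)]
    refine mul_le_mul_of_nonneg_left (Real.exp_le_exp.2 ?_) hKT0
    linarith
  -- the double integral
  set F : (σ → ℂ) × ℝ → ℂ := fun q => ((q.2 ^ (a' - 1) : ℝ) : ℂ) *
    (T.eval (-(q.2 * Nf f q.1 : ℂ)) * exp (-(q.2 * Nf f q.1 : ℂ)) *
      ((h q.1 : ℂ) * φ q.1)) with hF
  have hFm : Measurable F := by
    have h1 : Measurable fun q : (σ → ℂ) × ℝ => T.eval (-(q.2 * Nf f q.1 : ℂ)) := by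
      refine T.continuous.measurable.comp ?_
      fun_prop
    have h2 := hφc.measurable
    have h3 := hhc.measurable
    rw [hF]
    fun_prop
  have hIφ : Integrable (fun x => (KT * (h x * φ x)) * Nf f x ^ (-a')) μ := by
    have h1 : Integrable (fun x => (KT * W x ^ p * φ x) * (W x ^ p * Nf f x ^ (-a))) μ := by
      refine Integrable.bdd_mul (c := KT * CW ^ p * Bφ) hI
        ((measurable_const.mul (hWm.pow_const p)).mul hφc.measurable).aestronglyMeasurable ?_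
      refine Filter.Eventually.of_forall fun x => ?_
      have h5 := hW0 x
      have h6 := hφ0 x
      rw [norm_mul, norm_mul, Real.norm_eq_abs, Real.norm_eq_abs, Real.norm_eq_abs,
        abs_of_nonneg hKT0, abs_of_nonneg (pow_nonneg h5 p), abs_of_nonneg h6]
      have h7 : W x ≤ CW := hCW x
      have h8 := hBφ' x
      gcongr
    refine h1.congr ?_
    filter_upwards [hpos] with x hx
    have h2 := H_eq f H₁ M₁ p x hx a
    rw [← hM] at h2
    have h3 : h x * Nf f x ^ (-a') = W x ^ (2 * p) * Nf f x ^ (-a) := h2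
    calc (KT * W x ^ p * φ x) * (W x ^ p * Nf f x ^ (-a)) =
          KT * φ x * (W x ^ (2 * p) * Nf f x ^ (-a)) := by ring
      _ = KT * φ x * (h x * Nf f x ^ (-a')) := by rw [h3]
      _ = _ := by ring
  have hFi : Integrable F (μ.prod ν) := by
    refine (dom_int hK f a' ha'0 hpos (fun x => KT * (h x * φ x))
      (measurable_const.mul (hhc.measurable.mul hφc.measurable))
      (fun x => mul_nonneg hKT0 (mul_nonneg (hh0 x) (hφ0 x))) hIφ).mono' hFm.aestronglyMeasurable ?_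
    have h1 : ∀ᵐ q ∂(μ.prod ν), q.2 ∈ Set.Ioi (0 : ℝ) := by
      have h2 : μ.prod ν = (μ.prod volume).restrict (Set.univ ×ˢ Set.Ioi (0 : ℝ)) := by
        rw [hν, ← Measure.prod_restrict, Measure.restrict_univ]
      rw [h2]
      filter_upwards [ae_restrict_mem (MeasurableSet.univ.prod measurableSet_Ioi)] with q hq
      exact hq.2
    filter_upwards [h1] with q hq
    have hq0 : (0 : ℝ) < q.2 := hq
    rw [hF]
    simp only
    rw [norm_mul, norm_mul _ ((h q.1 : ℂ) * (φ q.1 : ℂ)), norm_mul (h q.1 : ℂ), Complex.norm_real,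
      Complex.norm_real, Complex.norm_real, Real.norm_eq_abs, Real.norm_eq_abs, Real.norm_eq_abs,
      abs_of_nonneg (Real.rpow_nonneg hq0.le _), abs_of_nonneg (hφ0 q.1),
      abs_of_nonneg (hh0 q.1)]
    calc _ ≤ q.2 ^ (a' - 1) * (KT * Real.exp (-(q.2 * Nf f q.1) / 2) * (h q.1 * φ q.1)) := by
          refine mul_le_mul_of_nonneg_left ?_ (Real.rpow_nonneg hq0.le _)
          exact mul_le_mul_of_nonneg_right (hTb q.2 hq0.le q.1) (mul_nonneg (hh0 _) (hφ0 _))
      _ = _ := by ring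
  -- evaluation of the double integral
  have hE1 : ∫ x, ∫ τ, F (x, τ) ∂ν ∂μ = b.eval (-(a : ℂ)) *
      ((Real.Gamma a' * ∫ x in K, W x ^ (2 * p) * Nf f x ^ (-a) * φ x : ℝ) : ℂ) := by
    have h1 : ∀ᵐ x ∂μ, ∫ τ, F (x, τ) ∂ν = ((Real.Gamma a' : ℝ) : ℂ) * b.eval (-(a : ℂ)) *
        ((W x ^ (2 * p) * Nf f x ^ (-a) * φ x : ℝ) : ℂ) := by
      filter_upwards [hpos] with x hx
      have h2 : ∀ τ, F (x, τ) = (((τ ^ (a' - 1) : ℝ) : ℂ) *
          (T.eval (-(τ * Nf f x : ℂ)) * exp (-(τ * Nf f x : ℂ)))) * ((h x : ℂ) * φ x) := by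
        intro τ
        rw [hF]
        simp only
        ring
      simp only [h2]
      have h3 : (shiftB b M).eval (-(a' : ℂ)) = b.eval (-(a : ℂ)) := by
        rw [shiftB_eval, ha']
        congr 1
        push_cast
        ring
      rw [integral_mul_const, hT.2 a' _ ha'0 hx, h3, one_div, Real.inv_rpow hx.le,
        ← Real.rpow_neg hx.le]
      have h4 := H_eq f H₁ M₁ p x hx a
      rw [← hM] at h4
      have h5 : h x * Nf f x ^ (-a') = W x ^ (2 * p) * Nf f x ^ (-a) := h4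
      rw [← h5]
      push_cast
      ring
    rw [integral_congr_ae h1, integral_const_mul, integral_complex_ofReal]
    push_cast
    ring
  have hE2 : ∫ x, ∫ τ, F (x, τ) ∂ν ∂μ = ∫ τ, ∫ x, F (x, τ) ∂μ ∂ν :=
    integral_integral_swap hFi
  -- the bound
  set w : (σ → ℂ) → ℝ := fun x => G * (W x ^ p * Real.sqrt (Nf f x) ^ (2 * M + 1)) with hw
  have hwm : Measurable w :=
    measurable_const.mul ((hWm.pow_const p).mul (hNc.sqrt.pow _).measurable)
  have hw0 : ∀ x, 0 ≤ w x := fun x =>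
    mul_nonneg hG0 (mul_nonneg (pow_nonneg (hW0 x) _) (pow_nonneg (Real.sqrt_nonneg _) _))
  have hKf : IsFiniteMeasure μ := ⟨by rw [hμ, Measure.restrict_apply_univ]; exact hK.measure_lt_top⟩
  have hwe : ∀ᵐ x ∂μ, w x * Nf f x ^ (-a') = G * (W x ^ p * Nf f x ^ (1 / 2 - a)) := by
    filter_upwards [hpos] with x hx
    rw [hw]
    simp only
    have h1 : Real.sqrt (Nf f x) ^ (2 * M + 1) = Nf f x ^ ((M : ℝ) + 1 / 2) := by
      rw [pow_succ, pow_mul, Real.sq_sqrt hx.le, Real.rpow_add hx, Real.rpow_natCast,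
        ← Real.sqrt_eq_rpow]
    rw [h1, mul_assoc, mul_assoc, ← Real.rpow_add hx, ha']
    congr 3
    ring
  have hIw : Integrable (fun x => w x * Nf f x ^ (-a')) μ := by
    obtain ⟨m, hm⟩ := hK.exists_bound_of_continuousOn (f := fun x => Real.sqrt (Nf f x))
      (hNc.sqrt.continuousOn)
    have h1 : Integrable (fun x => (G * Real.sqrt (Nf f x)) * (W x ^ p * Nf f x ^ (-a))) μ := by
      refine Integrable.bdd_mul (c := G * m) hI
        (measurable_const.mul hNc.sqrt.measurable).aestronglyMeasurable ?_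
      filter_upwards [ae_restrict_mem hK.measurableSet] with x hx
      rw [norm_mul, Real.norm_eq_abs, abs_of_nonneg hG0]
      exact mul_le_mul_of_nonneg_left (hm x hx) hG0
    refine h1.congr ?_
    filter_upwards [hwe, hpos] with x hx1 hx2
    rw [hx1, Real.sqrt_eq_rpow, sub_eq_add_neg, Real.rpow_add hx2]
    ring
  have hH' := dom_int hK f a' ha'0 hpos w hwm hw0 hIw
  have hE3 : ∫ τ, ∫ x, w x * (τ ^ (a' - 1) * Real.exp (-(τ * Nf f x) / 2)) ∂μ ∂ν =
      G * (2 ^ a' * Real.Gamma a') * ∫ x in K, W x ^ p * Nf f x ^ (1 / 2 - a) := by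
    rw [← integral_integral_swap hH']
    have h1 : ∀ᵐ x ∂μ, ∫ τ, w x * (τ ^ (a' - 1) * Real.exp (-(τ * Nf f x) / 2)) ∂ν =
        G * (2 ^ a' * Real.Gamma a') * (W x ^ p * Nf f x ^ (1 / 2 - a)) := by
      filter_upwards [hpos, hwe] with x hx hx2
      rw [integral_const_mul, (gamma_int a' _ ha'0 hx).2]
      calc _ = (2 ^ a' * Real.Gamma a') * (w x * Nf f x ^ (-a')) := by ring
        _ = _ := by rw [hx2]; ring
    rw [integral_congr_ae h1, integral_const_mul]
  have hE4 : ‖∫ τ, ∫ x, F (x, τ) ∂μ ∂ν‖ ≤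
      ∫ τ, ∫ x, w x * (τ ^ (a' - 1) * Real.exp (-(τ * Nf f x) / 2)) ∂μ ∂ν := by
    refine norm_integral_le_of_norm_le hH'.integral_prod_right ?_
    filter_upwards [ae_restrict_mem measurableSet_Ioi] with τ hτ
    have hτ0 : (0 : ℝ) < τ := hτ
    have hid := hident τ
    have hz : ∀ (g : (σ → ℂ) → ℂ) {θ : (σ → ℂ) → ℂ}, Test K θ →
        ∫ x, g x * θ x = ∫ x, g x * θ x ∂μ := by
      intro g θ hθ
      rw [hμ, setIntegral_eq_integral_of_forall_compl_eq_zero]
      intro x hx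
      have : θ x = 0 := by
        by_contra h
        exact hx (hθ.2 (subset_tsupport θ h))
      rw [this, mul_zero]
    have hl : ∫ x, F (x, τ) ∂μ = ((τ ^ (a' - 1) : ℝ) : ℂ) * ∫ x, T.eval (-(τ * Nf f x : ℂ)) *
        exp (-(τ * Nf f x : ℂ)) * ((‖eval x (aeval f H₁)‖ ^ (2 * p) : ℝ) * φ x) := by
      have h1 : (∫ x, T.eval (-(τ * Nf f x : ℂ)) *
        exp (-(τ * Nf f x : ℂ)) * ((‖eval x (aeval f H₁)‖ ^ (2 * p) : ℝ) * φ x)) =
          ∫ x, (T.eval (-(τ * Nf f x : ℂ)) * exp (-(τ * Nf f x : ℂ)) *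
            ((‖eval x (aeval f H₁)‖ ^ (2 * p) : ℝ) : ℂ)) * φ x :=
        integral_congr_ae (Filter.Eventually.of_forall fun x => by simp only; ring)
      rw [h1, hz _ hφ, ← integral_const_mul]
      refine integral_congr_ae (Filter.Eventually.of_forall fun x => ?_)
      simp only [hF, hh]
      ring
    have hr : ∀ i, ∫ x, Rg f (γ i) (A i) τ x *
        ((starRingEnd ℂ) (eval x (aeval f (H₁ ^ p))) * ψ i x) =
        ∫ x, (Rg f (γ i) (A i) τ x * (starRingEnd ℂ) (eval x (aeval f (H₁ ^ p)))) * ψ i x ∂μ := by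
      intro i
      rw [← hz _ (hS i).2]
      exact integral_congr_ae (Filter.Eventually.of_forall fun x => by simp only; ring)
    have hNi : Integrable (fun x => W x ^ p * Real.sqrt (Nf f x) ^ (2 * M + 1) *
        Real.exp (-(τ * Nf f x) / 2)) μ := by
      have hcont : Continuous fun x => Real.sqrt (Nf f x) ^ (2 * M + 1) *
          Real.exp (-(τ * Nf f x) / 2) := by
        fun_prop
      have h1 : Integrable (fun x => Real.sqrt (Nf f x) ^ (2 * M + 1) *
          Real.exp (-(τ * Nf f x) / 2)) μ := hcont.continuousOn.integrableOn_compact hK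
      have h2 := Integrable.bdd_mul (c := CW ^ p) h1 (hWm.pow_const p).aestronglyMeasurable
        (Filter.Eventually.of_forall fun x => by
          rw [Real.norm_eq_abs, abs_of_nonneg (pow_nonneg (hW0 x) p)]
          exact pow_le_pow_left₀ (hW0 x) (hCW x) p)
      refine h2.congr (Filter.Eventually.of_forall fun x => ?_)
      simp only
      ring
    rw [hl, hident τ, norm_mul, Complex.norm_real, Real.norm_eq_abs,
      abs_of_nonneg (Real.rpow_nonneg hτ0.le _)]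
    have h3 : ‖∑ i, ∫ x, Rg f (γ i) (A i) τ x *
        ((starRingEnd ℂ) (eval x (aeval f (H₁ ^ p))) * ψ i x)‖ ≤
        ∑ i, ∫ x, L i * B i * (W x ^ p * Real.sqrt (Nf f x) ^ (2 * M + 1) *
          Real.exp (-(τ * Nf f x) / 2)) ∂μ := by
      refine (norm_sum_le _ _).trans (Finset.sum_le_sum fun i hi => ?_)
      rw [hr i]
      refine norm_integral_le_of_norm_le (hNi.const_mul _) ?_
      filter_upwards [hpos] with x hx
      rw [norm_mul]
      calc _ ≤ (L i * (W x ^ p * Real.sqrt (Nf f x) ^ (2 * M + 1) *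
          Real.exp (-(τ * Nf f x) / 2))) * B i :=
            mul_le_mul (hL i τ hτ0.le x hx) (hB i x) (norm_nonneg _)
              (mul_nonneg (hL0 i) (mul_nonneg (mul_nonneg (pow_nonneg (hW0 x) _)
                (pow_nonneg (Real.sqrt_nonneg _) _)) (Real.exp_pos _).le))
        _ = _ := by ring
    refine (mul_le_mul_of_nonneg_left h3 (Real.rpow_nonneg hτ0.le _)).trans (le_of_eq ?_)
    simp only [integral_const_mul]
    rw [← Finset.sum_mul, ← hG]
    have h4 : ∀ x, w x * (τ ^ (a' - 1) * Real.exp (-(τ * Nf f x) / 2)) =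
        (τ ^ (a' - 1) * G) * (W x ^ p * Real.sqrt (Nf f x) ^ (2 * M + 1) *
          Real.exp (-(τ * Nf f x) / 2)) := by
      intro x
      rw [hw]
      simp only
      ring
    simp only [h4]
    rw [integral_const_mul]
    ring
  rw [← hE2, hE1, hE3, norm_mul, Complex.norm_real, Real.norm_eq_abs, abs_mul,
    abs_of_pos (Real.Gamma_pos_of_pos ha'0)] at hE4
  have hΓ := Real.Gamma_pos_of_pos ha'0
  set J1 := ∫ x in K, W x ^ (2 * p) * Nf f x ^ (-a) * φ x with hJ1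
  set J2 := ∫ x in K, W x ^ p * Nf f x ^ (1 / 2 - a) with hJ2
  have h5 : J1 ≤ |J1| := le_abs_self _
  have h7 : (2 : ℝ) ^ a' = 2 ^ M * 2 ^ a := by
    rw [ha', Real.rpow_add (by norm_num), Real.rpow_natCast]
    ring
  have h6 : Real.Gamma a' * (‖b.eval (-(a : ℂ))‖ * J1) ≤
      Real.Gamma a' * (G * 2 ^ M * 2 ^ a * J2) := by
    calc _ ≤ ‖b.eval (-(a : ℂ))‖ * (Real.Gamma a' * |J1|) := by
          calc _ = ‖b.eval (-(a : ℂ))‖ * (Real.Gamma a' * J1) := by ring
            _ ≤ _ := by gcongr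
      _ ≤ _ := hE4
      _ = _ := by rw [h7]; ring
  exact le_of_mul_le_mul_left h6 hΓ

end Pool.Agent.H74T
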