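import Pool.Agent.H74T.Mel

set_option autoImplicit false
set_option linter.unusedSectionVars false
set_option linter.unusedVariables false

/-! # The Mellin transform -/

namespace Pool.Agent.H74T

open MvPolynomial MeasureTheory Pool.Agent.W574.SM Pool.Agent.Y230.AR Complex

variable {σ ι : Type} [Fintype σ] [DecidableEq σ] [Fintype ι] [DecidableEq ι]

/-- **The key identity as a Mellin transform.** -/
theorem key_mellin {K : Set (σ → ℂ)} (hK : IsCompact K) (f : ι → MvPolynomial σ ℂ)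
    (b : Polynomial ℂ) (hb : IsFunctionalEq f b) (H₁ : MvPolynomial ι ℂ) (M₁ : ℕ)
    (hH : H₁.IsHomogeneous M₁) : ∃ k : ℕ, ∀ p, k ≤ p → ∀ (φ : (σ → ℂ) → ℂ)
    (_ : Test K φ) (_ : ∀ᵐ x ∂(volume.restrict K), 0 < Nf f x),
    ∃ (Φ : ℝ → ℂ) (G : ℝ), 0 ≤ G ∧ ContinuousOn Φ (Set.Ioi 0) ∧
      (∀ u : ℝ, 0 ≤ u → ‖Φ u‖ ≤ G * ∫ x in K, Wt f H₁ M₁ x ^ p *
        Real.sqrt (Nf f x) ^ (2 * (M₁ * p) + 1) * Real.exp (-(u * Nf f x) / 2)) ∧
      ∀ a : ℝ, 0 < a → IntegrableOn (fun x => Wt f H₁ M₁ x ^ (2 * p) * Nf f x ^ (-a) * ‖φ x‖) K →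
        mellin Φ ((a + (M₁ * p : ℕ) : ℝ) : ℂ) = b.eval (-(a : ℂ)) *
          ((Real.Gamma (a + (M₁ * p : ℕ)) : ℂ) *
            ∫ x in K, ((Wt f H₁ M₁ x ^ (2 * p) * Nf f x ^ (-a) : ℝ) : ℂ) * φ x) := by
  classical
  obtain ⟨k, hk⟩ := key_ident' hK f b hb H₁ M₁ hH
  refine ⟨k, fun p hkp φ hφ hpos => ?_⟩
  set M : ℕ := M₁ * p with hM
  obtain ⟨T, hT⟩ := exists_serG (shiftB b M)
  obtain ⟨I, hIf, γ, A, ψ, hS, hident⟩ := hk p T hT hφ
  obtain ⟨CW, hCW0, hCW⟩ := Wt_bound f H₁ M₁ hH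
  have hRb : ∀ i : I, ∃ L : ℝ, 0 ≤ L ∧ ∀ τ : ℝ, 0 ≤ τ → ∀ x, 0 < Nf f x →
      ‖Rg f (γ i) (A i) τ x * (starRingEnd ℂ) (eval x (aeval f (H₁ ^ p)))‖ ≤
        L * (Wt f H₁ M₁ x ^ p * Real.sqrt (Nf f x) ^ (2 * M + 1) *
          Real.exp (-(τ * Nf f x) / 2)) :=
    fun i => Rg_bound f H₁ M₁ p k hH hkp (γ i) (A i) (hS i).1
  choose L hL0 hL using hRb
  have hψb : ∀ i : I, ∃ B : ℝ, 0 ≤ B ∧ ∀ x, ‖ψ i x‖ ≤ B := by
    intro i
    have h1 := (hS i).2
    have h2 : HasCompactSupport (ψ i) := hK.of_isClosed_subset (isClosed_tsupport _) h1.2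
    obtain ⟨B, hB⟩ := h2.exists_bound_of_continuous h1.1.continuous
    exact ⟨max B 0, le_max_right _ _, fun x => (hB x).trans (le_max_left _ _)⟩
  choose B hB0 hB using hψb
  set G : ℝ := ∑ i, L i * B i with hG
  have hG0 : 0 ≤ G := Finset.sum_nonneg fun i _ => mul_nonneg (hL0 i) (hB0 i)
  set μ := (volume : Measure (σ → ℂ)).restrict K with hμ
  set ν := (volume : Measure ℝ).restrict (Set.Ioi 0) with hν
  have hKf : IsFiniteMeasure μ := ⟨by rw [hμ, Measure.restrict_apply_univ]; exact hK.measure_lt_top⟩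
  have hNc := continuous_Nf f
  have hNm := hNc.measurable
  set W : (σ → ℂ) → ℝ := Wt f H₁ M₁ with hW
  have hWm : Measurable W := Wt_meas f H₁ M₁
  have hW0 : ∀ x, 0 ≤ W x := Wt_nonneg f H₁ M₁
  have hφc : Continuous φ := hφ.1.continuous
  have hcs : HasCompactSupport φ := hK.of_isClosed_subset (isClosed_tsupport _) hφ.2
  set h : (σ → ℂ) → ℝ := fun x => ‖eval x (aeval f H₁)‖ ^ (2 * p) with hh
  have hhc : Continuous h := (continuous_ev (aeval f H₁)).norm.pow _
  have hh0 : ∀ x, 0 ≤ h x := fun x => by positivity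
  obtain ⟨KT, hKT0, hKT⟩ := poly_le_exp' T (1 / 2) (by norm_num)
  have hTb : ∀ τ : ℝ, 0 ≤ τ → ∀ x, ‖T.eval (-(τ * Nf f x : ℂ)) * exp (-(τ * Nf f x : ℂ))‖ ≤
      KT * Real.exp (-(τ * Nf f x) / 2) := by
    intro τ hτ x
    have hN0 := Nf_nonneg f x
    have e1 : -(τ * Nf f x : ℂ) = ((-(τ * Nf f x) : ℝ) : ℂ) := by push_cast; rfl
    rw [norm_mul, e1, Complex.norm_exp, Complex.ofReal_re]
    refine (mul_le_mul_of_nonneg_right (hKT _) (Real.exp_pos _).le).trans ?_
    rw [mul_assoc, ← Real.exp_add, Complex.norm_real, Real.norm_eq_abs, abs_neg,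
      abs_of_nonneg (by positivity)]
    refine mul_le_mul_of_nonneg_left (Real.exp_le_exp.2 ?_) hKT0
    linarith
  -- the function
  set Φ : ℝ → ℂ := fun u => ∫ x, T.eval (-(u * Nf f x : ℂ)) * exp (-(u * Nf f x : ℂ)) *
    ((h x : ℂ) * φ x) ∂μ with hΦ
  refine ⟨Φ, G, hG0, ?_, ?_, ?_⟩
  · -- continuity
    refine continuousOn_of_dominated (bound := fun x => KT * (h x * ‖φ x‖)) ?_ ?_ ?_ ?_
    · intro u hu
      have h1 : Continuous fun x : σ → ℂ => T.eval (-(u * Nf f x : ℂ)) *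
          exp (-(u * Nf f x : ℂ)) * ((h x : ℂ) * φ x) := by
        have h2 : Continuous fun x : σ → ℂ => T.eval (-(u * Nf f x : ℂ)) := by
          refine T.continuous.comp ?_
          fun_prop
        fun_prop
      exact h1.aestronglyMeasurable
    · intro u hu
      refine Filter.Eventually.of_forall fun x => ?_
      have hu0 : (0 : ℝ) < u := hu
      rw [norm_mul, norm_mul (h x : ℂ), Complex.norm_real, Real.norm_eq_abs,
        abs_of_nonneg (hh0 x)]
      refine mul_le_mul_of_nonneg_right ((hTb u hu0.le x).trans ?_)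
        (mul_nonneg (hh0 x) (norm_nonneg _))
      refine mul_le_of_le_one_right hKT0 (Real.exp_le_one_iff.2 ?_)
      have := mul_nonneg hu0.le (Nf_nonneg f x)
      linarith
    · have h1 : Continuous fun x : σ → ℂ => KT * (h x * ‖φ x‖) := by fun_prop
      exact h1.continuousOn.integrableOn_compact hK
    · refine Filter.Eventually.of_forall fun x => ?_
      have h2 : Continuous fun u : ℝ => T.eval (-(u * Nf f x : ℂ)) := by
        refine T.continuous.comp ?_
        fun_prop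
      have h1 : Continuous fun u : ℝ => T.eval (-(u * Nf f x : ℂ)) *
          exp (-(u * Nf f x : ℂ)) * ((h x : ℂ) * φ x) := by fun_prop
      exact h1.continuousOn
  · -- the bound
    intro u hu
    have hz : ∀ (g : (σ → ℂ) → ℂ) {θ : (σ → ℂ) → ℂ}, Test K θ →
        ∫ x, g x * θ x = ∫ x, g x * θ x ∂μ := by
      intro g θ hθ
      rw [hμ, setIntegral_eq_integral_of_forall_compl_eq_zero]
      intro x hx
      have : θ x = 0 := by
        by_contra h
        exact hx (hθ.2 (subset_tsupport θ h))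
      rw [this, mul_zero]
    have hl : Φ u = ∫ x, T.eval (-(u * Nf f x : ℂ)) *
        exp (-(u * Nf f x : ℂ)) * ((‖eval x (aeval f H₁)‖ ^ (2 * p) : ℝ) * φ x) := by
      have h1 : (∫ x, T.eval (-(u * Nf f x : ℂ)) *
        exp (-(u * Nf f x : ℂ)) * ((‖eval x (aeval f H₁)‖ ^ (2 * p) : ℝ) * φ x)) =
          ∫ x, (T.eval (-(u * Nf f x : ℂ)) * exp (-(u * Nf f x : ℂ)) *
            ((‖eval x (aeval f H₁)‖ ^ (2 * p) : ℝ) : ℂ)) * φ x :=
        integral_congr_ae (Filter.Eventually.of_forall fun x => by simp only; ring)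
      rw [h1, hz _ hφ, hΦ]
      refine integral_congr_ae (Filter.Eventually.of_forall fun x => ?_)
      simp only [hh]
      ring
    have hr : ∀ i, ∫ x, Rg f (γ i) (A i) u x *
        ((starRingEnd ℂ) (eval x (aeval f (H₁ ^ p))) * ψ i x) =
        ∫ x, (Rg f (γ i) (A i) u x * (starRingEnd ℂ) (eval x (aeval f (H₁ ^ p)))) * ψ i x ∂μ := by
      intro i
      rw [← hz _ (hS i).2]
      exact integral_congr_ae (Filter.Eventually.of_forall fun x => by simp only; ring)
    have hNi : Integrable (fun x => W x ^ p * Real.sqrt (Nf f x) ^ (2 * M + 1) *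
        Real.exp (-(u * Nf f x) / 2)) μ := by
      have hcont : Continuous fun x => Real.sqrt (Nf f x) ^ (2 * M + 1) *
          Real.exp (-(u * Nf f x) / 2) := by
        fun_prop
      have h1 : Integrable (fun x => Real.sqrt (Nf f x) ^ (2 * M + 1) *
          Real.exp (-(u * Nf f x) / 2)) μ := hcont.continuousOn.integrableOn_compact hK
      have h2 := Integrable.bdd_mul (c := CW ^ p) h1 (hWm.pow_const p).aestronglyMeasurable
        (Filter.Eventually.of_forall fun x => by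
          rw [Real.norm_eq_abs, abs_of_nonneg (pow_nonneg (hW0 x) p)]
          exact pow_le_pow_left₀ (hW0 x) (hCW x) p)
      refine h2.congr (Filter.Eventually.of_forall fun x => ?_)
      simp only
      ring
    rw [hl, hident u]
    have h3 : ‖∑ i, ∫ x, Rg f (γ i) (A i) u x *
        ((starRingEnd ℂ) (eval x (aeval f (H₁ ^ p))) * ψ i x)‖ ≤
        ∑ i, ∫ x, L i * B i * (W x ^ p * Real.sqrt (Nf f x) ^ (2 * M + 1) *
          Real.exp (-(u * Nf f x) / 2)) ∂μ := by
      refine (norm_sum_le _ _).trans (Finset.sum_le_sum fun i hi => ?_)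
      rw [hr i]
      refine norm_integral_le_of_norm_le (hNi.const_mul _) ?_
      filter_upwards [hpos] with x hx
      rw [norm_mul]
      calc _ ≤ (L i * (W x ^ p * Real.sqrt (Nf f x) ^ (2 * M + 1) *
          Real.exp (-(u * Nf f x) / 2))) * B i :=
            mul_le_mul (hL i u hu x hx) (hB i x) (norm_nonneg _)
              (mul_nonneg (hL0 i) (mul_nonneg (mul_nonneg (pow_nonneg (hW0 x) _)
                (pow_nonneg (Real.sqrt_nonneg _) _)) (Real.exp_pos _).le))
        _ = _ := by ring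
    refine h3.trans (le_of_eq ?_)
    simp only [integral_const_mul]
    rw [← Finset.sum_mul, ← hG]
  · -- the identity
    intro a ha hI
    set a' : ℝ := a + M with ha'
    have ha'0 : 0 < a' := by positivity
    set F : (σ → ℂ) × ℝ → ℂ := fun q => ((q.2 ^ (a' - 1) : ℝ) : ℂ) *
      (T.eval (-(q.2 * Nf f q.1 : ℂ)) * exp (-(q.2 * Nf f q.1 : ℂ)) *
        ((h q.1 : ℂ) * φ q.1)) with hF
    have hFm : Measurable F := by
      have h1 : Measurable fun q : (σ → ℂ) × ℝ => T.eval (-(q.2 * Nf f q.1 : ℂ)) := by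
        refine T.continuous.measurable.comp ?_
        fun_prop
      have h2 := hφc.measurable
      have h3 := hhc.measurable
      rw [hF]
      fun_prop
    have hIφ : Integrable (fun x => (KT * (h x * ‖φ x‖)) * Nf f x ^ (-a')) μ := by
      refine (hI.const_mul KT).congr ?_
      filter_upwards [hpos] with x hx
      have h2 := H_eq f H₁ M₁ p x hx a
      rw [← hM] at h2
      have h3 : h x * Nf f x ^ (-a') = W x ^ (2 * p) * Nf f x ^ (-a) := h2
      calc KT * (W x ^ (2 * p) * Nf f x ^ (-a) * ‖φ x‖) =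
            KT * ‖φ x‖ * (W x ^ (2 * p) * Nf f x ^ (-a)) := by ring
        _ = KT * ‖φ x‖ * (h x * Nf f x ^ (-a')) := by rw [h3]
        _ = _ := by ring
    have hFi : Integrable F (μ.prod ν) := by
      refine (dom_int hK f a' ha'0 hpos (fun x => KT * (h x * ‖φ x‖))
        (measurable_const.mul (hhc.measurable.mul hφc.norm.measurable))
        (fun x => mul_nonneg hKT0 (mul_nonneg (hh0 x) (norm_nonneg _))) hIφ).mono'
        hFm.aestronglyMeasurable ?_
      have h1 : ∀ᵐ q ∂(μ.prod ν), q.2 ∈ Set.Ioi (0 : ℝ) := by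
        have h2 : μ.prod ν = (μ.prod volume).restrict (Set.univ ×ˢ Set.Ioi (0 : ℝ)) := by
          rw [hν, ← Measure.prod_restrict, Measure.restrict_univ]
        rw [h2]
        filter_upwards [ae_restrict_mem (MeasurableSet.univ.prod measurableSet_Ioi)] with q hq
        exact hq.2
      filter_upwards [h1] with q hq
      have hq0 : (0 : ℝ) < q.2 := hq
      rw [hF]
      simp only
      rw [norm_mul, norm_mul _ ((h q.1 : ℂ) * (φ q.1 : ℂ)), norm_mul (h q.1 : ℂ),
        Complex.norm_real, Complex.norm_real, Real.norm_eq_abs, Real.norm_eq_abs,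
        abs_of_nonneg (Real.rpow_nonneg hq0.le _), abs_of_nonneg (hh0 q.1)]
      calc _ ≤ q.2 ^ (a' - 1) * (KT * Real.exp (-(q.2 * Nf f q.1) / 2) * (h q.1 * ‖φ q.1‖)) := by
            refine mul_le_mul_of_nonneg_left ?_ (Real.rpow_nonneg hq0.le _)
            exact mul_le_mul_of_nonneg_right (hTb q.2 hq0.le q.1)
              (mul_nonneg (hh0 _) (norm_nonneg _))
        _ = _ := by ring
    have hE1 : ∫ x, ∫ τ, F (x, τ) ∂ν ∂μ = b.eval (-(a : ℂ)) *
        ((Real.Gamma a' : ℂ) * ∫ x in K, ((W x ^ (2 * p) * Nf f x ^ (-a) : ℝ) : ℂ) * φ x) := by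
      have h1 : ∀ᵐ x ∂μ, ∫ τ, F (x, τ) ∂ν = (b.eval (-(a : ℂ)) * (Real.Gamma a' : ℂ)) *
          (((W x ^ (2 * p) * Nf f x ^ (-a) : ℝ) : ℂ) * φ x) := by
        filter_upwards [hpos] with x hx
        have h2 : ∀ τ, F (x, τ) = (((τ ^ (a' - 1) : ℝ) : ℂ) *
            (T.eval (-(τ * Nf f x : ℂ)) * exp (-(τ * Nf f x : ℂ)))) * ((h x : ℂ) * φ x) := by
          intro τ
          rw [hF]
          simp only
          ring
        simp only [h2]
        have h3 : (shiftB b M).eval (-(a' : ℂ)) = b.eval (-(a : ℂ)) := by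
          rw [shiftB_eval, ha']
          congr 1
          push_cast
          ring
        rw [integral_mul_const, hT.2 a' _ ha'0 hx, h3, one_div, Real.inv_rpow hx.le,
          ← Real.rpow_neg hx.le]
        have h4 := H_eq f H₁ M₁ p x hx a
        rw [← hM] at h4
        have h5 : h x * Nf f x ^ (-a') = W x ^ (2 * p) * Nf f x ^ (-a) := h4
        rw [← h5]
        push_cast
        ring
      rw [integral_congr_ae h1, integral_const_mul]
      ring
    have hE2 : ∫ x, ∫ τ, F (x, τ) ∂ν ∂μ = ∫ τ, ∫ x, F (x, τ) ∂μ ∂ν :=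
      integral_integral_swap hFi
    have hE3 : mellin Φ (a' : ℂ) = ∫ τ, ∫ x, F (x, τ) ∂μ ∂ν := by
      rw [mellin]
      refine setIntegral_congr_fun measurableSet_Ioi fun τ hτ => ?_
      have hτ0 : (0 : ℝ) < τ := hτ
      change (τ : ℂ) ^ ((a' : ℂ) - 1) • Φ τ = ∫ x, F (x, τ) ∂μ
      have h1 : (τ : ℂ) ^ ((a' : ℂ) - 1) = ((τ ^ (a' - 1) : ℝ) : ℂ) := by
        rw [Complex.ofReal_cpow hτ0.le]
        push_cast
        rfl
      rw [h1, smul_eq_mul, hΦ, ← integral_const_mul]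
    rw [hE3, ← hE2, hE1]

end Pool.Agent.H74T
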