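import Pool.Agent.Y230.AR.Bound

set_option autoImplicit false
set_option linter.unusedSectionVars false
set_option linter.unusedVariables false

/-! # Operators on polynomials in the generators -/

namespace Pool.Agent.H74T

open MvPolynomial

variable {ι : Type} [Fintype ι] [DecidableEq ι]

/-- `w ^ n` -/
noncomputable def mon (n : ι → ℕ) : MvPolynomial ι ℂ := ∏ j, X j ^ n j

theorem mon_split (j : ι) (n : ι → ℕ) :
    mon n = X j ^ n j * ∏ i ∈ Finset.univ.erase j, (X i : MvPolynomial ι ℂ) ^ n i :=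
  (Finset.mul_prod_erase Finset.univ (fun i => (X i : MvPolynomial ι ℂ) ^ n i)
    (Finset.mem_univ j)).symm

theorem X_mul_mon (j : ι) (n : ι → ℕ) : X j * mon n = mon (n + Pi.single j 1) := by
  rw [mon_split j n, mon_split j (n + Pi.single j 1), Pi.add_apply, Pi.single_eq_same, pow_succ']
  have h1 : ∏ i ∈ Finset.univ.erase j, (X i : MvPolynomial ι ℂ) ^ (n + Pi.single j 1 : ι → ℕ) i =
      ∏ i ∈ Finset.univ.erase j, (X i : MvPolynomial ι ℂ) ^ n i := by
    refine Finset.prod_congr rfl fun i hi => ?_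
    rw [Pi.add_apply, Pi.single_eq_of_ne (Finset.ne_of_mem_erase hi), add_zero]
  rw [h1]
  ring

theorem pderiv_mon (j : ι) (n : ι → ℕ) :
    pderiv j (mon n) = C ((n j : ℕ) : ℂ) * mon (n - Pi.single j 1) := by
  rw [mon_split j n, mon_split j (n - Pi.single j 1)]
  have h0 : ∀ T : Finset ι, j ∉ T → pderiv j (∏ i ∈ T, (X i : MvPolynomial ι ℂ) ^ n i) = 0 := by
    intro T
    induction T using Finset.induction_on with
    | empty => intro _; simp
    | insert i T hi ih =>
      intro hj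
      rw [Finset.mem_insert, not_or] at hj
      rw [Finset.prod_insert hi, Derivation.leibniz, ih hj.2, Derivation.leibniz_pow,
        pderiv_X_of_ne (Ne.symm hj.1)]
      simp
  have h0 := h0 (Finset.univ.erase j) (Finset.notMem_erase j _)
  rw [Derivation.leibniz, h0, smul_zero, zero_add, Derivation.leibniz_pow, pderiv_X_self]
  have h1 : ∏ i ∈ Finset.univ.erase j, (X i : MvPolynomial ι ℂ) ^ (n - Pi.single j 1 : ι → ℕ) i =
      ∏ i ∈ Finset.univ.erase j, (X i : MvPolynomial ι ℂ) ^ n i := by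
    refine Finset.prod_congr rfl fun i hi => ?_
    rw [Pi.sub_apply, Pi.single_eq_of_ne (Finset.ne_of_mem_erase hi), Nat.sub_zero]
  rw [h1, Pi.sub_apply, Pi.single_eq_same]
  simp only [smul_eq_mul, nsmul_eq_mul, mul_one, map_natCast]
  ring

/-- `∂ ^ γ w ^ n` -/
noncomputable def Dm (γ n : ι → ℕ) : MvPolynomial ι ℂ :=
  C ((∏ j, (n j).descFactorial (γ j) : ℕ) : ℂ) * mon (n - γ)

theorem Dm_zero (n : ι → ℕ) : Dm 0 n = mon n := by
  unfold Dm
  simp

theorem pderiv_Dm (j : ι) (γ n : ι → ℕ) : pderiv j (Dm γ n) = Dm (γ + Pi.single j 1) n := by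
  unfold Dm
  rw [Derivation.leibniz, pderiv_C, smul_zero, add_zero, pderiv_mon, smul_eq_mul, ← mul_assoc,
    ← C_mul]
  congr 1
  · congr 1
    have e1 := Finset.mul_prod_erase Finset.univ (fun i => (n i).descFactorial (γ i))
      (Finset.mem_univ j)
    have e2 := Finset.mul_prod_erase Finset.univ
      (fun i => (n i).descFactorial ((γ + Pi.single j 1 : ι → ℕ) i)) (Finset.mem_univ j)
    rw [← e1, ← e2]
    have h1 : ∏ i ∈ Finset.univ.erase j, (n i).descFactorial ((γ + Pi.single j 1 : ι → ℕ) i) =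
        ∏ i ∈ Finset.univ.erase j, (n i).descFactorial (γ i) := by
      refine Finset.prod_congr rfl fun i hi => ?_
      rw [Pi.add_apply, Pi.single_eq_of_ne (Finset.ne_of_mem_erase hi), add_zero]
    rw [h1, Pi.add_apply, Pi.single_eq_same, Nat.descFactorial_succ, Pi.sub_apply]
    push_cast
    ring
  · congr 1
    funext i
    simp only [Pi.sub_apply, Pi.add_apply]
    omega

/-- Compositions of at most `k` derivatives and of multiplications, which change the degree by
`e`. -/
inductive Opr : ℕ → ℤ → (MvPolynomial ι ℂ →ₗ[ℂ] MvPolynomial ι ℂ) → Prop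
  | id : Opr 0 0 LinearMap.id
  | mulX (j : ι) {k : ℕ} {e : ℤ} {L : MvPolynomial ι ℂ →ₗ[ℂ] MvPolynomial ι ℂ} (h : Opr k e L) :
      Opr k (e + 1) ((LinearMap.mulLeft ℂ (X j)).comp L)
  | der (j : ι) {k : ℕ} {e : ℤ} {L : MvPolynomial ι ℂ →ₗ[ℂ] MvPolynomial ι ℂ} (h : Opr k e L) :
      Opr (k + 1) (e - 1) ((((pderiv j : Derivation ℂ (MvPolynomial ι ℂ) (MvPolynomial ι ℂ)) :
        MvPolynomial ι ℂ →ₗ[ℂ] MvPolynomial ι ℂ)).comp L)
  | smul (a : ℂ) {k : ℕ} {e : ℤ} {L : MvPolynomial ι ℂ →ₗ[ℂ] MvPolynomial ι ℂ} (h : Opr k e L) :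
      Opr k e (a • L)

/-- Operators which multiply the monomials by numbers and shift them. -/
def Sh (k : ℕ) (e : ℤ) (a : (ι → ℕ) → ℂ) (m : (ι → ℕ) → ι → ℕ) : Prop :=
  ∃ L, Opr k e L ∧ ∀ s : ι → ℕ, L (mon s) = C (a s) * mon (m s)

theorem Sh.mulX {k : ℕ} {e : ℤ} {a : (ι → ℕ) → ℂ} {m : (ι → ℕ) → ι → ℕ} (h : Sh k e a m)
    (j : ι) : Sh k (e + 1) a (fun s => m s + Pi.single j 1) := by
  obtain ⟨L, h1, h2⟩ := h
  refine ⟨_, h1.mulX j, fun s => ?_⟩
  rw [LinearMap.comp_apply, h2, LinearMap.mulLeft_apply, ← X_mul_mon]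
  ring

theorem Sh.der {k : ℕ} {e : ℤ} {a : (ι → ℕ) → ℂ} {m : (ι → ℕ) → ι → ℕ} (h : Sh k e a m)
    (j : ι) : Sh (k + 1) (e - 1) (fun s => a s * (m s j : ℂ)) (fun s => m s - Pi.single j 1) := by
  obtain ⟨L, h1, h2⟩ := h
  refine ⟨_, h1.der j, fun s => ?_⟩
  rw [LinearMap.comp_apply, h2]
  change pderiv j (C (a s) * mon (m s)) = _
  rw [Derivation.leibniz, pderiv_C, smul_zero, add_zero, pderiv_mon, smul_eq_mul, C_mul]
  ring

theorem Sh.congr {k : ℕ} {e e' : ℤ} {a a' : (ι → ℕ) → ℂ} {m m' : (ι → ℕ) → ι → ℕ} (h : Sh k e a m)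
    (he : e = e') (H : ∀ s, C (a s) * mon (m s) = C (a' s) * mon (m' s)) : Sh k e' a' m' := by
  obtain ⟨L, h1, h2⟩ := h
  exact ⟨L, he ▸ h1, fun s => (h2 s).trans (H s)⟩

theorem Sh.smul {k : ℕ} {e : ℤ} {a : (ι → ℕ) → ℂ} {m : (ι → ℕ) → ι → ℕ} (h : Sh k e a m)
    (c : ℂ) : Sh k e (fun s => c * a s) m := by
  obtain ⟨L, h1, h2⟩ := h
  refine ⟨_, h1.smul c, fun s => ?_⟩
  rw [LinearMap.smul_apply, h2, C_mul, smul_eq_C_mul]
  ring

/-- multiplication by a power -/
theorem Sh.mulXpow {k : ℕ} {e : ℤ} {a : (ι → ℕ) → ℂ} {m : (ι → ℕ) → ι → ℕ} (h : Sh k e a m)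
    (j : ι) (d : ℕ) : Sh k (e + d) a (fun s => m s + Pi.single j d) := by
  induction d with
  | zero =>
    refine h.congr (by simp) fun s => ?_
    rw [Pi.single_zero, add_zero]
  | succ d ih =>
    refine (ih.mulX j).congr (by push_cast; ring) fun s => ?_
    rw [add_assoc, ← Pi.single_add]

/-- the operator `(w_j ∂_j) ^ β` -/
theorem Sh.euler {k : ℕ} {e : ℤ} {a : (ι → ℕ) → ℂ} {m : (ι → ℕ) → ι → ℕ} (h : Sh k e a m)
    (j : ι) (β : ℕ) : ∃ k', Sh k' e (fun s => a s * (m s j : ℂ) ^ β) m := by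
  induction β with
  | zero => exact ⟨k, h.congr rfl fun s => by rw [pow_zero, mul_one]⟩
  | succ β ih =>
    obtain ⟨k', h1⟩ := ih
    refine ⟨_, ((h1.der j).mulX j).congr (by ring) fun s => ?_⟩
    by_cases h0 : m s j = 0
    · rw [h0]
      simp
    · have h2 : m s - Pi.single j 1 + Pi.single j 1 = m s := by
        funext i
        by_cases hi : i = j
        · subst hi
          rw [Pi.add_apply, Pi.sub_apply, Pi.single_eq_same]
          omega
        · rw [Pi.add_apply, Pi.sub_apply, Pi.single_eq_of_ne hi]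
          simp
      rw [h2, pow_succ]
      congr 2
      ring

/-- the operator `∂_j ^ d` -/
theorem Sh.derpow {k : ℕ} {e : ℤ} {a : (ι → ℕ) → ℂ} {m : (ι → ℕ) → ι → ℕ} (h : Sh k e a m)
    (j : ι) (d : ℕ) : Sh (k + d) (e - d) (fun s => a s * ((m s j).descFactorial d : ℂ))
      (fun s => m s - Pi.single j d) := by
  induction d with
  | zero =>
    refine h.congr (by simp) fun s => ?_
    simp
  | succ d ih =>
    refine (ih.der j).congr (by push_cast; ring) fun s => ?_
    have h2 : m s - Pi.single j d - Pi.single j 1 = m s - Pi.single j (d + 1) := by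
      rw [Pi.single_add]
      funext i
      simp only [Pi.sub_apply, Pi.add_apply]
      omega
    rw [h2, Pi.sub_apply, Pi.single_eq_same, Nat.descFactorial_succ]
    congr 2
    push_cast
    ring

/-- The operators of the functional equation. -/
theorem exists_opr (c : ι → ℤ) (β : ι → ℕ) : ∃ k, Sh k (∑ j, c j)
    (fun s => ∏ j, ((s j : ℂ) ^ β j * ((if c j < 0 then (s j).choose (-c j).toNat else 1 : ℕ) : ℂ)))
    (fun s j => ((s j : ℤ) + c j).toNat) := by
  classical
  have key : ∀ T : Finset ι, ∃ k, Sh k (∑ j ∈ T, c j)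
      (fun s => ∏ j ∈ T, ((s j : ℂ) ^ β j *
        ((if c j < 0 then (s j).choose (-c j).toNat else 1 : ℕ) : ℂ)))
      (fun s j => if j ∈ T then ((s j : ℤ) + c j).toNat else s j) := by
    intro T
    induction T using Finset.induction_on with
    | empty =>
      refine ⟨0, LinearMap.id, ?_, fun s => ?_⟩
      · rw [Finset.sum_empty]
        exact Opr.id
      · simp
    | insert j T hj ih =>
      obtain ⟨k, h1⟩ := ih
      obtain ⟨k', h2⟩ := h1.euler j (β j)
      by_cases hc : c j < 0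
      · obtain ⟨d, hd⟩ : ∃ d : ℕ, c j = -(d : ℤ) := ⟨(-c j).toNat, by omega⟩
        have h3 := (h2.derpow j d).smul ((d.factorial : ℂ)⁻¹)
        refine ⟨_, h3.congr (by rw [Finset.sum_insert hj, hd]; ring) fun s => ?_⟩
        rw [Finset.prod_insert hj]
        have e1 : (-c j).toNat = d := by omega
        have e2 : (fun i => if i ∈ insert j T then ((s i : ℤ) + c i).toNat else s i) =
            (fun i => if i ∈ T then ((s i : ℤ) + c i).toNat else s i) - Pi.single j d := by
          funext i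
          by_cases hi : i = j
          · subst hi
            rw [Pi.sub_apply, Pi.single_eq_same]
            simp only [Finset.mem_insert_self, if_true, if_neg hj]
            omega
          · rw [Pi.sub_apply, Pi.single_eq_of_ne hi]
            simp only [Finset.mem_insert, hi, false_or, Nat.sub_zero]
        rw [e2]
        congr 2
        simp only [if_neg hj, if_pos hc, e1]
        have h5 : ((s j).descFactorial d : ℂ) = (d.factorial : ℂ) * ((s j).choose d : ℂ) := by
          rw [Nat.descFactorial_eq_factorial_mul_choose]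
          push_cast
          rfl
        have h6 : (d.factorial : ℂ) ≠ 0 := Nat.cast_ne_zero.2 (Nat.factorial_ne_zero d)
        rw [h5]
        field_simp
      · obtain ⟨d, hd⟩ : ∃ d : ℕ, c j = (d : ℤ) := ⟨(c j).toNat, by omega⟩
        have h3 := h2.mulXpow j d
        refine ⟨_, h3.congr (by rw [Finset.sum_insert hj, hd]; ring) fun s => ?_⟩
        rw [Finset.prod_insert hj]
        have e2 : (fun i => if i ∈ insert j T then ((s i : ℤ) + c i).toNat else s i) =
            (fun i => if i ∈ T then ((s i : ℤ) + c i).toNat else s i) + Pi.single j d := by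
          funext i
          by_cases hi : i = j
          · subst hi
            rw [Pi.add_apply, Pi.single_eq_same]
            simp only [Finset.mem_insert_self, if_true, if_neg hj]
            omega
          · rw [Pi.add_apply, Pi.single_eq_of_ne hi]
            simp only [Finset.mem_insert, hi, false_or, add_zero]
        rw [e2]
        congr 2
        simp only [if_neg hj, if_neg hc]
        push_cast
        ring
  obtain ⟨k, L, h1, h2⟩ := key Finset.univ
  refine ⟨k, L, h1, fun s => ?_⟩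
  rw [h2]
  simp only [Finset.mem_univ, if_true]

/-- The polynomials `∑ H₁ ^ q B` with `q ≥ p - k`, of degree `m`. -/
noncomputable def TT (H₁ : MvPolynomial ι ℂ) (M₁ p k : ℕ) (m : ℤ) : Submodule ℂ (MvPolynomial ι ℂ) :=
  Submodule.span ℂ {A | ∃ (q t : ℕ) (B : MvPolynomial ι ℂ), p ≤ q + k ∧ B.IsHomogeneous t ∧
    ((M₁ : ℤ) * q + t = m) ∧ A = H₁ ^ q * B}

theorem TT.mulX {H₁ : MvPolynomial ι ℂ} {M₁ p k : ℕ} {m : ℤ} {A : MvPolynomial ι ℂ}
    (hA : A ∈ TT H₁ M₁ p k m) (j : ι) : X j * A ∈ TT H₁ M₁ p k (m + 1) := by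
  refine Submodule.span_induction (p := fun A _ => X j * A ∈ TT H₁ M₁ p k (m + 1)) ?_ ?_ ?_ ?_ hA
  · rintro A ⟨q, t, B, h1, h2, h3, rfl⟩
    refine Submodule.subset_span ⟨q, t + 1, X j * B, h1, ?_, by push_cast; rw [← h3]; ring, by ring⟩
    have := (isHomogeneous_X ℂ j).mul h2
    rwa [add_comm] at this
  · rw [mul_zero]; exact Submodule.zero_mem _
  · intro A B _ _ h1 h2
    rw [mul_add]; exact Submodule.add_mem _ h1 h2
  · intro a A _ h
    rw [mul_smul_comm]; exact Submodule.smul_mem _ _ h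

theorem TT.der {H₁ : MvPolynomial ι ℂ} {M₁ p k : ℕ} {m : ℤ} (hH : H₁.IsHomogeneous M₁)
    {A : MvPolynomial ι ℂ} (hA : A ∈ TT H₁ M₁ p k m) (j : ι) :
    pderiv j A ∈ TT H₁ M₁ p (k + 1) (m - 1) := by
  refine Submodule.span_induction (p := fun A _ => pderiv j A ∈ TT H₁ M₁ p (k + 1) (m - 1))
    ?_ ?_ ?_ ?_ hA
  · rintro A ⟨q, t, B, h1, h2, h3, rfl⟩
    rw [Derivation.leibniz, Derivation.leibniz_pow]
    refine Submodule.add_mem _ ?_ ?_
    · rcases Nat.eq_zero_or_pos t with ht | ht
      · have h4 : pderiv j B = 0 := by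
          rw [ht] at h2
          obtain ⟨a, ha⟩ := (totalDegree_eq_zero_iff_eq_C).1 (Nat.le_zero.1 h2.totalDegree_le) ▸
            (⟨_, rfl⟩ : ∃ a : ℂ, a = coeff 0 B)
          have h5 := (totalDegree_eq_zero_iff_eq_C).1 (Nat.le_zero.1 h2.totalDegree_le)
          rw [h5, pderiv_C]
        rw [h4, smul_zero]
        exact Submodule.zero_mem _
      · refine Submodule.subset_span ⟨q, t - 1, pderiv j B, by omega, h2.pderiv, ?_, rfl⟩
        rw [← h3]
        push_cast [Nat.cast_sub ht]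
        ring
    · rcases Nat.eq_zero_or_pos q with hq | hq
      · rw [hq, zero_smul, smul_zero]
        exact Submodule.zero_mem _
      · rcases Nat.eq_zero_or_pos M₁ with hM | hM
        · have h4 : pderiv j H₁ = 0 := by
            rw [hM] at hH
            have h5 := (totalDegree_eq_zero_iff_eq_C).1 (Nat.le_zero.1 hH.totalDegree_le)
            rw [h5, pderiv_C]
          rw [h4, smul_zero, smul_zero, smul_zero]
          exact Submodule.zero_mem _
        · have h5 : B • (q • (H₁ ^ (q - 1) • pderiv j H₁)) =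
              ((q : ℕ) : ℂ) • (H₁ ^ (q - 1) * (pderiv j H₁ * B)) := by
            simp only [smul_eq_mul, nsmul_eq_mul, smul_eq_C_mul, map_natCast]
            ring
          rw [h5]
          refine Submodule.smul_mem _ _ (Submodule.subset_span ⟨q - 1, M₁ - 1 + t,
            pderiv j H₁ * B, by omega, hH.pderiv.mul h2, ?_, rfl⟩)
          rw [← h3]
          push_cast [Nat.cast_sub hq, Nat.cast_sub hM]
          ring
  · rw [map_zero]; exact Submodule.zero_mem _
  · intro A B _ _ h1 h2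
    rw [map_add]; exact Submodule.add_mem _ h1 h2
  · intro a A _ h
    rw [Derivation.map_smul]; exact Submodule.smul_mem _ _ h

theorem TT.mono {H₁ : MvPolynomial ι ℂ} {M₁ p k k' : ℕ} {m m' : ℤ} (hk : k ≤ k') (hm : m = m')
    {A : MvPolynomial ι ℂ} (hA : A ∈ TT H₁ M₁ p k m) : A ∈ TT H₁ M₁ p k' m' := by
  subst hm
  refine Submodule.span_mono ?_ hA
  rintro A ⟨q, t, B, g1, g2, g3, rfl⟩
  exact ⟨q, t, B, by omega, g2, g3, rfl⟩

/-- **The structure of the operators.** -/
theorem Opr.struct {k : ℕ} {e : ℤ} {L : MvPolynomial ι ℂ →ₗ[ℂ] MvPolynomial ι ℂ}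
    (hL : Opr k e L) (H₁ : MvPolynomial ι ℂ) (M₁ p : ℕ) (hH : H₁.IsHomogeneous M₁) :
    ∃ (I : Type) (_ : Fintype I) (γ : I → ι → ℕ) (A : I → MvPolynomial ι ℂ),
      (∀ i, A i ∈ TT H₁ M₁ p k (M₁ * p + (∑ j, γ i j : ℕ) + e)) ∧
      ∀ n, L (mon n * H₁ ^ p) = ∑ i, Dm (γ i) n * A i := by
  induction hL with
  | id =>
    refine ⟨Unit, inferInstance, fun _ => 0, fun _ => H₁ ^ p, fun _ => ?_, fun n => ?_⟩
    · exact Submodule.subset_span ⟨p, 0, 1, le_refl _, isHomogeneous_one _ _, by simp, by ring⟩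
    · simp [Dm_zero]
  | mulX j h ih =>
    obtain ⟨I, hI, γ, A, h1, h2⟩ := ih
    refine ⟨I, hI, γ, fun i => X j * A i, fun i => ?_, fun n => ?_⟩
    · have := Pool.Agent.H74T.TT.mulX (h1 i) j
      rwa [add_assoc] at this
    · rw [LinearMap.comp_apply, h2, LinearMap.mulLeft_apply, Finset.mul_sum]
      exact Finset.sum_congr rfl fun i _ => by ring
  | der j h ih =>
    obtain ⟨I, hI, γ, A, h1, h2⟩ := ih
    refine ⟨I ⊕ I, inferInstance, Sum.elim (fun i => γ i + Pi.single j 1) γ,
      Sum.elim A (fun i => pderiv j (A i)), ?_, fun n => ?_⟩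
    · intro i'
      rcases i' with i | i
      · have h3 := h1 i
        simp only [Sum.elim_inl]
        have h4 : (∑ j', (γ i + Pi.single j 1 : ι → ℕ) j' : ℕ) = (∑ j', γ i j') + 1 := by
          simp only [Pi.add_apply]
          rw [Finset.sum_add_distrib, Finset.sum_pi_single']
          simp
        rw [h4]
        exact Pool.Agent.H74T.TT.mono (Nat.le_succ _) (by push_cast; ring) h3
      · have := Pool.Agent.H74T.TT.der hH (h1 i) j
        simp only [Sum.elim_inr]
        rwa [add_sub_assoc] at this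
    · rw [LinearMap.comp_apply, h2, Fintype.sum_sum_type]
      change pderiv j (∑ i, Dm (γ i) n * A i) = _
      rw [map_sum, ← Finset.sum_add_distrib]
      refine Finset.sum_congr rfl fun i _ => ?_
      rw [Derivation.leibniz, pderiv_Dm]
      simp only [Sum.elim_inl, Sum.elim_inr, smul_eq_mul]
      ring
  | smul a h ih =>
    obtain ⟨I, hI, γ, A, h1, h2⟩ := ih
    refine ⟨I, hI, γ, fun i => a • A i, fun i => Submodule.smul_mem _ _ (h1 i), fun n => ?_⟩
    rw [LinearMap.smul_apply, h2, Finset.smul_sum]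
    exact Finset.sum_congr rfl fun i _ => by rw [mul_smul_comm]

end Pool.Agent.H74T
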